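import Mathlib

/-!
# Fractal local smoothing (MP_c0f824_an): definitions

The half-wave operator `e^{it√(-Δ)} P_j` in the normalisation of the problem, covering numbers,
maximal separated sets, the inequality `(∗)` and the exponents of the problem.
-/

open MeasureTheory Set
open scoped ENNReal ContDiff

namespace Pool.Agent.Lib.MP_c0f824_an.FT

/-- The Euclidean space `ℝ^d`. -/
abbrev Rd (d : ℕ) := EuclideanSpace ℝ (Fin d)

/-- The cutoff `β` of the problem: smooth, compactly supported inside `(1/2, 2)`, and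
`∑_{k ∈ ℤ} β(2^{-k} r) = 1` for every `r > 0`. -/
structure IsCutoff (β : ℝ → ℝ) : Prop where
  smooth : ContDiff ℝ ∞ β
  compact : HasCompactSupport β
  supp : tsupport β ⊆ Ioo (1 / 2) 2
  sum : ∀ r : ℝ, 0 < r → HasSum (fun k : ℤ => β ((2 : ℝ) ^ (-k) * r)) 1

/-- The Fourier transform `f̂(ξ) = ∫ e^{-ix·ξ} f(x) dx`. -/
noncomputable def ft {d : ℕ} (f : Rd d → ℂ) (ξ : Rd d) : ℂ :=
  ∫ x, Complex.exp (-(Complex.I * ((inner ℝ x ξ : ℝ) : ℂ))) * f x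

/-- The function `e^{it√(-Δ)} P_j f`, i.e.
`(2π)^{-d} ∫ e^{ix·ξ} e^{it|ξ|} β(2^{-j}|ξ|) f̂(ξ) dξ`. -/
noncomputable def halfWave {d : ℕ} (β : ℝ → ℝ) (j : ℕ) (t : ℝ) (f : Rd d → ℂ) (x : Rd d) : ℂ :=
  (((2 * Real.pi) ^ d : ℝ) : ℂ)⁻¹ *
    ∫ ξ, Complex.exp (Complex.I * ((inner ℝ x ξ : ℝ) : ℂ)) *
      Complex.exp (Complex.I * ((t * ‖ξ‖ : ℝ) : ℂ)) *
      ((β ((2 : ℝ) ^ (-(j : ℝ)) * ‖ξ‖) : ℝ) : ℂ) * ft f ξ

/-- The covering number `𝒩(A, δ)`: the smallest `n` such that `A` is covered by `n` open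
intervals of length `δ`. -/
noncomputable def cov (A : Set ℝ) (δ : ℝ) : ℕ :=
  sInf {n : ℕ | ∃ c : Fin n → ℝ, A ⊆ ⋃ i, Ioo (c i) (c i + δ)}

/-- `F` is `δ`-separated. -/
def Sep (δ : ℝ) (F : Set ℝ) : Prop := ∀ s ∈ F, ∀ t ∈ F, s ≠ t → δ ≤ |s - t|

/-- `F` is a `δ`-separated subset of `E`, maximal under inclusion. -/
def IsNet (E : Set ℝ) (δ : ℝ) (F : Set ℝ) : Prop :=
  Maximal (fun G : Set ℝ => G ⊆ E ∧ Sep δ G) F

/-- The inequality `(∗)` of the problem at the frequency `2^j`, for the set of times `F`, with the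
constant `C` and the exponent `s`, for all Schwartz functions `f`. -/
def IneqAt (d : ℕ) (β : ℝ → ℝ) (j : ℕ) (F : Set ℝ) (p q s C : ℝ) : Prop :=
  ∀ f : SchwartzMap (Rd d) ℂ,
    (∑' t : F, eLpNorm (halfWave β j t f) (ENNReal.ofReal q) volume ^ q) ^ (1 / q) ≤
      ENNReal.ofReal (C * (2 : ℝ) ^ ((j : ℝ) * s)) * eLpNorm f (ENNReal.ofReal p) volume

/-- The inequality `(∗)` for the set `E`: for every `j ≥ 1` it holds for some choice of the maximal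
`2^{-j}`-separated subset `E(2^{-j})` of `E`, with the same constant `C`. -/
def Ineq (d : ℕ) (β : ℝ → ℝ) (E : Set ℝ) (p q s C : ℝ) : Prop :=
  ∀ j : ℕ, 1 ≤ j → ∃ F, IsNet E ((2 : ℝ) ^ (-(j : ℝ))) F ∧ IneqAt d β j F p q s C

/-- `s₁(p,q) = (d-1)/2 - d/q + 1/p`. -/
noncomputable def s1 (d : ℕ) (p q : ℝ) : ℝ := ((d : ℝ) - 1) / 2 - d / q + 1 / p

/-- `s₂(p,q) = (d+1)/(2p) - (d+1-2α)/(2q)`. -/
noncomputable def s2 (d : ℕ) (α p q : ℝ) : ℝ :=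
  ((d : ℝ) + 1) / (2 * p) - ((d : ℝ) + 1 - 2 * α) / (2 * q)

/-- `s₃(p,q) = d/p - (d-1)/2 - (1-α)/q`. -/
noncomputable def s3 (d : ℕ) (α p q : ℝ) : ℝ := (d : ℝ) / p - ((d : ℝ) - 1) / 2 - (1 - α) / q

/-- The critical exponent `s_c(p,q) = max{s₁, s₂, s₃}`. -/
noncomputable def sc (d : ℕ) (α p q : ℝ) : ℝ := max (s1 d p q) (max (s2 d α p q) (s3 d α p q))

/-- The line (L): `1/q = (d-1)/(d-1+2α) (1 - 1/p)`. -/
def OnL (d : ℕ) (α p q : ℝ) : Prop :=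
  1 / q = ((d : ℝ) - 1) / ((d : ℝ) - 1 + 2 * α) * (1 - 1 / p)

/-- The critical exponent `q_c = 2(d-1+α)/(d-1)`. -/
noncomputable def qc (d : ℕ) (α : ℝ) : ℝ := 2 * ((d : ℝ) - 1 + α) / ((d : ℝ) - 1)

/-- The exponent below which `(∗)` fails:
`s_*(q) = α/q + (d-1)(1-α)(q-2)/(8q)`. -/
noncomputable def sStar (d : ℕ) (α q : ℝ) : ℝ :=
  α / q + ((d : ℝ) - 1) * (1 - α) * (q - 2) / (8 * q)

end Pool.Agent.Lib.MP_c0f824_an.FT
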