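import Pool.Agent.Lib.MP_c0f824_an.FT.Spec

section
/-!
# CARRY: no carry at the times of `E` (MP_c0f824_an)
-/
open MeasureTheory Set
open scoped ENNReal ContDiff

namespace Pool.Agent.Lib.MP_c0f824_an.FT.CarryM

theorem geo (x : ℝ) (hx0 : 0 ≤ x) (hx1 : x ≤ 1) (n k M : ℕ) :
    (1 - x) * ∑ j ∈ Finset.range M, (if n ≤ k + j then x ^ (k + j + 1) else 0) +
      x ^ (max n (k + M) + 1) ≤ x ^ (n + 1) := by
  induction M with
  | zero =>
    simp only [Finset.range_zero, Finset.sum_empty, mul_zero, zero_add]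
    exact pow_le_pow_of_le_one hx0 hx1 (by omega)
  | succ M ih =>
    rw [Finset.sum_range_succ, mul_add]
    by_cases h : n ≤ k + M
    · rw [if_pos h]
      rw [max_eq_right h] at ih
      rw [max_eq_right (show n ≤ k + (M + 1) by omega)]
      refine le_trans (le_of_eq ?_) ih
      rw [show k + (M + 1) + 1 = (k + M + 1) + 1 by omega, pow_succ x (k + M + 1)]
      ring
    · rw [if_neg h]
      rw [max_eq_left (show k + M ≤ n by omega)] at ih
      rw [max_eq_left (show k + (M + 1) ≤ n by omega)]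
      linarith

/-- The coefficient of `N^{-(μ+1)}` in the product. -/
def coef {n M G P : ℕ} (h : ℕ) (b : Fin n → Fin P) (e : Fin M → Fin G) (μ : ℕ) : ℕ :=
  ∑ i : Fin n, ∑ j : Fin M, if h + (i : ℕ) + (j : ℕ) + 1 = μ then (e j : ℕ) * (b i : ℕ) else 0

theorem coef_le {n M G P : ℕ} (h : ℕ) (b : Fin n → Fin P) (e : Fin M → Fin G) (μ : ℕ) :
    coef h b e μ ≤ n * G * P := by
  unfold coef
  have h1 : ∀ i : Fin n, (∑ j : Fin M,
      if h + (i : ℕ) + (j : ℕ) + 1 = μ then (e j : ℕ) * (b i : ℕ) else 0) ≤ G * P := by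
    intro i
    calc (∑ j : Fin M, if h + (i : ℕ) + (j : ℕ) + 1 = μ then (e j : ℕ) * (b i : ℕ) else 0)
        ≤ ∑ j : Fin M, if h + (i : ℕ) + (j : ℕ) + 1 = μ then G * P else 0 := by
          refine Finset.sum_le_sum fun j _ => ?_
          split_ifs
          · exact Nat.mul_le_mul (e j).2.le (b i).2.le
          · exact le_rfl
      _ = (Finset.univ.filter fun j : Fin M => h + (i : ℕ) + (j : ℕ) + 1 = μ).card * (G * P) := by
          rw [← Finset.sum_filter, Finset.sum_const, smul_eq_mul]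
      _ ≤ 1 * (G * P) := by
          refine Nat.mul_le_mul_right _ (Finset.card_le_one.2 ?_)
          intro a ha a' ha'
          simp only [Finset.mem_filter, Finset.mem_univ, true_and] at ha ha'
          exact Fin.ext (by omega)
      _ = G * P := one_mul _
  calc _ ≤ ∑ _i : Fin n, G * P := Finset.sum_le_sum fun i _ => h1 i
    _ = n * G * P := by
      rw [Finset.sum_const, Finset.card_univ, Fintype.card_fin, smul_eq_mul, mul_assoc]

theorem sum_coef {n M G P : ℕ} (N h : ℕ) (b : Fin n → Fin P) (e : Fin M → Fin G) :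
    ∑ μ : Fin n, ((coef h b e (μ : ℕ) : ℕ) : ℝ) / (N : ℝ) ^ ((μ : ℕ) + 1) =
      ∑ i : Fin n, ∑ j : Fin M, ((e j : ℕ) : ℝ) * ((b i : ℕ) : ℝ) *
        (if n ≤ h + (i : ℕ) + (j : ℕ) + 1 then 0 else 1 / (N : ℝ) ^ (h + (i : ℕ) + (j : ℕ) + 2)) := by
  unfold coef
  push_cast
  simp_rw [Finset.sum_div]
  rw [Finset.sum_comm]
  refine Finset.sum_congr rfl fun i _ => ?_
  rw [Finset.sum_comm]
  refine Finset.sum_congr rfl fun j _ => ?_
  by_cases hc : n ≤ h + (i : ℕ) + (j : ℕ) + 1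
  · rw [if_pos hc, mul_zero]
    refine Finset.sum_eq_zero fun μ _ => ?_
    have := μ.2
    rw [if_neg (by omega), zero_div]
  · rw [if_neg hc]
    push Not at hc
    rw [Finset.sum_eq_single (⟨h + (i : ℕ) + (j : ℕ) + 1, hc⟩ : Fin n)]
    · rw [if_pos rfl, mul_one_div]
    · intro μ _ hμ
      rw [if_neg, zero_div]
      intro hh
      exact hμ (Fin.ext hh.symm)
    · intro hh
      exact absurd (Finset.mem_univ _) hh

theorem prod_eq {n M G P : ℕ} (N h : ℕ) (b : Fin n → Fin P) (e : Fin M → Fin G) :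
    dv N e / (N : ℝ) ^ h * dv N b =
      ∑ i : Fin n, ∑ j : Fin M, ((e j : ℕ) : ℝ) * ((b i : ℕ) : ℝ) *
        (1 / (N : ℝ) ^ (h + (i : ℕ) + (j : ℕ) + 2)) := by
  unfold dv
  rw [Finset.mul_sum]
  refine Finset.sum_congr rfl fun i _ => ?_
  rw [Finset.sum_div, Finset.sum_mul]
  refine Finset.sum_congr rfl fun j _ => ?_
  rw [div_div, div_mul_div_comm, mul_one_div]
  congr 1
  rw [← pow_add, ← pow_add]
  congr 1
  omega

theorem specCarry : SpecCarry := by
  intro N n M h G P Q hn hQ hN y b e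
  have hQ1 : 1 ≤ Q := by
    have := (y ⟨0, hn⟩).2
    omega
  have hN2 : 2 ≤ N := by omega
  have hc : ∀ μ : Fin n, (y μ : ℕ) + coef h b e (μ : ℕ) < 2 * Q := by
    intro μ
    have h1 := (y μ).2
    have h2 := coef_le h b e (μ : ℕ)
    omega
  refine ⟨fun μ => ⟨(y μ : ℕ) + coef h b e (μ : ℕ), hc μ⟩, ?_⟩
  have hdc : dv N (fun μ : Fin n => (⟨(y μ : ℕ) + coef h b e (μ : ℕ), hc μ⟩ : Fin (2 * Q))) =
      dv N y + ∑ μ : Fin n, ((coef h b e (μ : ℕ) : ℕ) : ℝ) / (N : ℝ) ^ ((μ : ℕ) + 1) := by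
    unfold dv
    rw [← Finset.sum_add_distrib]
    refine Finset.sum_congr rfl fun μ _ => ?_
    push_cast
    rw [add_div]
  have hN0 : (0 : ℝ) < N := by exact_mod_cast (by omega : 0 < N)
  have hdiff : dv N y + dv N e / (N : ℝ) ^ h * dv N b -
      dv N (fun μ : Fin n => (⟨(y μ : ℕ) + coef h b e (μ : ℕ), hc μ⟩ : Fin (2 * Q))) =
      ∑ i : Fin n, ∑ j : Fin M, ((e j : ℕ) : ℝ) * ((b i : ℕ) : ℝ) *
        (if n ≤ h + (i : ℕ) + 1 + (j : ℕ) then
          ((N : ℝ)⁻¹) ^ (h + (i : ℕ) + 1 + (j : ℕ) + 1) else 0) := by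
    rw [hdc, sum_coef, prod_eq]
    rw [add_sub_add_left_eq_sub, ← Finset.sum_sub_distrib]
    refine Finset.sum_congr rfl fun i _ => ?_
    rw [← Finset.sum_sub_distrib]
    refine Finset.sum_congr rfl fun j _ => ?_
    rw [← mul_sub]
    congr 1
    by_cases hh : n ≤ h + (i : ℕ) + (j : ℕ) + 1
    · rw [if_pos hh, if_pos (by omega), sub_zero, inv_pow, one_div]
      congr 2
      omega
    · rw [if_neg hh, if_neg (by omega), sub_self]
  rw [hdiff]
  have hx0 : (0 : ℝ) ≤ (N : ℝ)⁻¹ := by positivity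
  have hN2' : (2 : ℝ) ≤ N := by exact_mod_cast hN2
  have hx1 : (N : ℝ)⁻¹ ≤ 1 / 2 := by
    rw [inv_eq_one_div]
    exact one_div_le_one_div_of_le (by norm_num) hN2'
  constructor
  · refine Finset.sum_nonneg fun i _ => Finset.sum_nonneg fun j _ => mul_nonneg (by positivity) ?_
    split_ifs
    · positivity
    · exact le_rfl
  · set x : ℝ := (N : ℝ)⁻¹ with hxdef
    have hrow : ∀ i : Fin n, (∑ j : Fin M, ((e j : ℕ) : ℝ) * ((b i : ℕ) : ℝ) *
        (if n ≤ h + (i : ℕ) + 1 + (j : ℕ) then x ^ (h + (i : ℕ) + 1 + (j : ℕ) + 1) else 0)) ≤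
        (G : ℝ) * P * (x ^ (n + 1) / (1 - x)) := by
      intro i
      calc _ ≤ ∑ j : Fin M, (G : ℝ) * P *
            (if n ≤ h + (i : ℕ) + 1 + (j : ℕ) then x ^ (h + (i : ℕ) + 1 + (j : ℕ) + 1) else 0) := by
            refine Finset.sum_le_sum fun j _ => mul_le_mul_of_nonneg_right ?_ ?_
            · have h1 : ((e j : ℕ) : ℝ) ≤ G := by exact_mod_cast (e j).2.le
              have h2 : ((b i : ℕ) : ℝ) ≤ P := by exact_mod_cast (b i).2.le
              exact mul_le_mul h1 h2 (by positivity) (by positivity)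
            · split_ifs
              · positivity
              · exact le_rfl
        _ = (G : ℝ) * P * ∑ j ∈ Finset.range M,
            (if n ≤ h + (i : ℕ) + 1 + j then x ^ (h + (i : ℕ) + 1 + j + 1) else 0) := by
            rw [← Finset.mul_sum, Finset.sum_range]
        _ ≤ _ := by
            refine mul_le_mul_of_nonneg_left ?_ (by positivity)
            rw [le_div_iff₀ (by linarith)]
            have := geo x hx0 (by linarith) n (h + (i : ℕ) + 1) M
            have h3 : 0 ≤ x ^ (max n (h + (i : ℕ) + 1 + M) + 1) := by positivity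
            nlinarith
    calc _ ≤ ∑ _i : Fin n, (G : ℝ) * P * (x ^ (n + 1) / (1 - x)) :=
          Finset.sum_le_sum fun i _ => hrow i
      _ = (n * G * P : ℕ) * (x ^ (n + 1) / (1 - x)) := by
          rw [Finset.sum_const, Finset.card_univ, Fintype.card_fin, nsmul_eq_mul]
          push_cast
          ring
      _ ≤ (Q : ℝ) * (x ^ (n + 1) / (1 - x)) := by
          refine mul_le_mul_of_nonneg_right (by exact_mod_cast hQ) ?_
          have : 0 < 1 - x := by linarith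
          positivity
      _ ≤ ((N : ℝ) - 1) * (x ^ (n + 1) / (1 - x)) := by
          refine mul_le_mul_of_nonneg_right ?_ ?_
          · have : (Q : ℝ) + 1 ≤ N := by exact_mod_cast (by omega : Q + 1 ≤ N)
            linarith
          · have : 0 < 1 - x := by linarith
            positivity
      _ = 1 / (N : ℝ) ^ n := by
          have h4 : (1 : ℝ) - x = ((N : ℝ) - 1) * x := by
            rw [hxdef]
            field_simp
          have h5 : (N : ℝ) - 1 ≠ 0 := by linarith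
          have h6 : x ≠ 0 := by rw [hxdef]; positivity
          rw [h4, pow_succ]
          rw [show (1 : ℝ) / (N : ℝ) ^ n = x ^ n by rw [hxdef, inv_pow, one_div]]
          field_simp

end Pool.Agent.Lib.MP_c0f824_an.FT.CarryM
end

section
/-!
# Compression at the times near `E`

All balls `closedBall (x_T - t ω_T) r` lie in a product set of small measure.
-/
open MeasureTheory Set
open scoped ENNReal

namespace Pool.Agent.Lib.MP_c0f824_an.FT.CompressM

lemma dv_nonneg (N : ℕ) {n k : ℕ} (c : Fin n → Fin k) : 0 ≤ dv N c :=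
  Finset.sum_nonneg fun _ _ => by positivity

/-- Digits below `N` give numbers at most `1`. -/
lemma dv_le_one (N : ℕ) {n k : ℕ} (hN : 2 ≤ N) (hk : k ≤ N) (c : Fin n → Fin k) :
    dv N c ≤ 1 := by
  have hN0 : (0 : ℝ) < N := by
    have : (2 : ℝ) ≤ N := by exact_mod_cast hN
    linarith
  have h1 : ∀ i : Fin n, ((c i : ℕ) : ℝ) / (N : ℝ) ^ ((i : ℕ) + 1) ≤
      1 / (N : ℝ) ^ (i : ℕ) - 1 / (N : ℝ) ^ ((i : ℕ) + 1) := by
    intro i
    have h2 : ((c i : ℕ) : ℝ) ≤ (N : ℝ) - 1 := by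
      have h3 : (c i : ℕ) + 1 ≤ N := le_trans (c i).2 hk
      have h4 : (((c i : ℕ) + 1 : ℕ) : ℝ) ≤ N := by exact_mod_cast h3
      push_cast at h4
      linarith
    have h5 : 1 / (N : ℝ) ^ (i : ℕ) = (N : ℝ) / (N : ℝ) ^ ((i : ℕ) + 1) := by
      rw [pow_succ]
      field_simp
    rw [h5, ← sub_div]
    gcongr
  calc dv N c ≤ ∑ i : Fin n, (1 / (N : ℝ) ^ (i : ℕ) - 1 / (N : ℝ) ^ ((i : ℕ) + 1)) :=
        Finset.sum_le_sum fun i _ => h1 i
    _ = ∑ i ∈ Finset.range n, (1 / (N : ℝ) ^ i - 1 / (N : ℝ) ^ (i + 1)) :=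
        Fin.sum_univ_eq_sum_range (fun i => 1 / (N : ℝ) ^ i - 1 / (N : ℝ) ^ (i + 1)) n
    _ = 1 - 1 / (N : ℝ) ^ n := by
        rw [Finset.sum_range_sub' (fun i => 1 / (N : ℝ) ^ i)]
        simp
    _ ≤ 1 := by
        have : 0 ≤ 1 / (N : ℝ) ^ n := by positivity
        linarith

lemma hgt_nonneg {m : ℕ} (b : Fin m → ℝ) : 0 ≤ hgt b := Real.sqrt_nonneg _

lemma hgt_le_one {m : ℕ} (b : Fin m → ℝ) : hgt b ≤ 1 := by
  unfold hgt
  apply Real.sqrt_le_one.mpr
  have : 0 ≤ ∑ i, b i ^ 2 := Finset.sum_nonneg fun i _ => sq_nonneg _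
  linarith

/-- The one-dimensional set: the neighbourhoods of the numbers `dv c`. -/
def W (N n Q : ℕ) (r : ℝ) : Set ℝ :=
  ⋃ c : Fin n → Fin (2 * Q), Icc (dv N c - 3 * r) (dv N c + 3 * r)

lemma measurable_W (N n Q : ℕ) (r : ℝ) : MeasurableSet (W N n Q r) :=
  MeasurableSet.iUnion fun _ => measurableSet_Icc

lemma volume_W (N n Q : ℕ) (r : ℝ) (hr : 0 ≤ r) :
    volume (W N n Q r) ≤ ENNReal.ofReal (6 * r * (2 * Q : ℝ) ^ n) := by
  calc volume (W N n Q r)
      ≤ ∑ c : Fin n → Fin (2 * Q), volume (Icc (dv N c - 3 * r) (dv N c + 3 * r)) :=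
        measure_iUnion_fintype_le _ _
    _ = ∑ _c : Fin n → Fin (2 * Q), ENNReal.ofReal (6 * r) := by
        apply Finset.sum_congr rfl
        intro c _
        rw [Real.volume_Icc]
        congr 1
        ring
    _ = ENNReal.ofReal (6 * r * (2 * Q : ℝ) ^ n) := by
        have h1 : ENNReal.ofReal ((2 * Q : ℝ) ^ n) = (((2 * Q) ^ n : ℕ) : ℝ≥0∞) := by
          rw [← ENNReal.ofReal_natCast]
          congr 1
          push_cast
          ring
        have h2 : (0 : ℝ) ≤ 6 * r := by positivity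
        rw [Finset.sum_const, Finset.card_univ, Fintype.card_fun, Fintype.card_fin,
          Fintype.card_fin, nsmul_eq_mul, ENNReal.ofReal_mul h2, h1, mul_comm]

/-- The sides of the product set. -/
def side (m N n Q : ℕ) (r : ℝ) : Fin (m + 1) → Set ℝ :=
  Fin.cons (Icc (-1 - r) (3 + r)) fun _ : Fin m => W N n Q r

/-- The product set. -/
def U (m N n Q : ℕ) (r : ℝ) : Set (Rd (m + 1)) :=
  (fun x : Rd (m + 1) => (WithLp.ofLp x : Fin (m + 1) → ℝ)) ⁻¹' (univ.pi (side m N n Q r))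

lemma measurable_side (m N n Q : ℕ) (r : ℝ) (i : Fin (m + 1)) :
    MeasurableSet (side m N n Q r i) := by
  refine Fin.cases ?_ (fun i => ?_) i
  · exact measurableSet_Icc
  · exact measurable_W N n Q r

lemma measurable_U (m N n Q : ℕ) (r : ℝ) : MeasurableSet (U m N n Q r) :=
  (PiLp.volume_preserving_ofLp (Fin (m + 1))).measurable
    (MeasurableSet.univ_pi fun i => measurable_side m N n Q r i)

lemma volume_U (m N n Q : ℕ) (r : ℝ) (hr : 0 ≤ r) :
    volume (U m N n Q r) ≤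
      ENNReal.ofReal ((4 + 2 * r) * (6 * r * (2 * Q : ℝ) ^ n) ^ m) := by
  unfold U
  rw [(PiLp.volume_preserving_ofLp (Fin (m + 1))).measure_preimage
    (MeasurableSet.univ_pi fun i => measurable_side m N n Q r i).nullMeasurableSet,
    volume_pi_pi, Fin.prod_univ_succ, ENNReal.ofReal_mul (by positivity)]
  have h0 : volume (side m N n Q r 0) = ENNReal.ofReal (4 + 2 * r) := by
    change volume (Icc (-1 - r) (3 + r)) = _
    rw [Real.volume_Icc]
    congr 1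
    ring
  rw [h0]
  gcongr
  calc ∏ i : Fin m, volume (side m N n Q r i.succ)
      ≤ ∏ _i : Fin m, ENNReal.ofReal (6 * r * (2 * Q : ℝ) ^ n) :=
        Finset.prod_le_prod' fun i _ => volume_W N n Q r hr
    _ = ENNReal.ofReal ((6 * r * (2 * Q : ℝ) ^ n) ^ m) := by
        rw [Finset.prod_const, Finset.card_univ, Fintype.card_fin,
          ENNReal.ofReal_pow (by positivity)]

theorem specCompress (h : SpecCarry) : SpecCompress := by
  intro m N n M hh G P Q hn hN hG hPQ hQN τ t r e hr ht he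
  have hN0 : (0 : ℝ) < N := by
    have : (2 : ℝ) ≤ N := by exact_mod_cast hN
    linarith
  have hN1 : (1 : ℝ) ≤ N := by
    have : (2 : ℝ) ≤ N := by exact_mod_cast hN
    linarith
  have hNn : (0 : ℝ) < (N : ℝ) ^ n := by positivity
  have hr0 : 0 < r := lt_of_lt_of_le (by positivity) hr
  have hPN : P ≤ N := by
    have h1 : P ≤ n * G * P := Nat.le_mul_of_pos_left P (Nat.mul_pos hn hG)
    omega
  refine ⟨U m N n Q r, measurable_U m N n Q r, volume_U m N n Q r hr0.le, ?_⟩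
  intro T x hx
  rw [Metric.mem_closedBall, dist_eq_norm] at hx
  have hco : ∀ i : Fin (m + 1),
      |x i - (pos N τ T - t • dir N T) i| ≤ r := by
    intro i
    have h1 := PiLp.norm_apply_le (x - (pos N τ T - t • dir N T)) i
    rw [PiLp.sub_apply, Real.norm_eq_abs] at h1
    exact h1.trans hx
  intro i _
  refine Fin.cases ?_ (fun i => ?_) i
  · -- the first coordinate
    change x 0 ∈ Icc (-1 - r) (3 + r)
    have h1 := hco 0
    have h2 : (pos N τ T - t • dir N T) 0 =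
        ((T.2.2 : ℕ) : ℝ) / (N : ℝ) ^ n + (τ - t) * hgt fun i => dv N (T.2.1 i) := by
      simp only [PiLp.sub_apply, PiLp.smul_apply, pos, dir, vec, Fin.cons_zero, smul_eq_mul]
      ring
    rw [h2] at h1
    have h3 : ((T.2.2 : ℕ) : ℝ) / (N : ℝ) ^ n ≤ 1 := by
      rw [div_le_one hNn]
      have : (T.2.2 : ℕ) < N ^ n := T.2.2.2
      exact_mod_cast this.le
    have h3' : 0 ≤ ((T.2.2 : ℕ) : ℝ) / (N : ℝ) ^ n := by positivity
    have h4 : |(τ - t) * hgt fun i => dv N (T.2.1 i)| ≤ 1 := by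
      rw [abs_mul, abs_of_nonneg (hgt_nonneg _)]
      calc |τ - t| * hgt (fun i => dv N (T.2.1 i)) ≤ 1 * 1 :=
            mul_le_mul ht (hgt_le_one _) (hgt_nonneg _) zero_le_one
        _ = 1 := one_mul 1
    rw [abs_le] at h1 h4
    constructor <;> linarith [h1.1, h1.2, h4.1, h4.2]
  · -- the other coordinates
    change x i.succ ∈ W N n Q r
    have h1 := hco i.succ
    have h2 : (pos N τ T - t • dir N T) i.succ =
        dv N (T.1 i) + (τ - t) * dv N (T.2.1 i) := by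
      simp only [PiLp.sub_apply, PiLp.smul_apply, pos, dir, vec, Fin.cons_succ, smul_eq_mul]
      ring
    rw [h2] at h1
    obtain ⟨c, hc1, hc2⟩ := h N n M hh G P Q hn hPQ hQN (T.1 i) (T.2.1 i) e
    have hb0 := dv_nonneg N (T.2.1 i)
    have hb1 := dv_le_one N hN hPN (T.2.1 i)
    have h5 : |(τ - t - dv N e / (N : ℝ) ^ hh) * dv N (T.2.1 i)| ≤ 1 / (N : ℝ) ^ (2 * n) := by
      rw [abs_mul, abs_of_nonneg hb0]
      have h6 : |τ - t - dv N e / (N : ℝ) ^ hh| ≤ 1 / (N : ℝ) ^ (2 * n) := by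
        have h7 : τ - t - dv N e / (N : ℝ) ^ hh = -(t - (τ - dv N e / (N : ℝ) ^ hh)) := by ring
        rw [h7, abs_neg]
        exact he
      calc |τ - t - dv N e / (N : ℝ) ^ hh| * dv N (T.2.1 i)
          ≤ 1 / (N : ℝ) ^ (2 * n) * 1 := mul_le_mul h6 hb1 hb0 (by positivity)
        _ = 1 / (N : ℝ) ^ (2 * n) := mul_one _
    have h8 : 1 / (N : ℝ) ^ (2 * n) ≤ r := by
      refine le_trans ?_ hr
      apply one_div_le_one_div_of_le hNn
      exact pow_le_pow_right₀ hN1 (by omega)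
    have h9 : (τ - t) * dv N (T.2.1 i) = dv N e / (N : ℝ) ^ hh * dv N (T.2.1 i) +
        (τ - t - dv N e / (N : ℝ) ^ hh) * dv N (T.2.1 i) := by ring
    rw [h9] at h1
    rw [abs_le] at h1 h5
    unfold W
    rw [mem_iUnion]
    refine ⟨c, ?_, ?_⟩ <;> linarith [h1.1, h1.2, h5.1, h5.2]

end Pool.Agent.Lib.MP_c0f824_an.FT.CompressM
end

section
/-!
# The theorem from its parts
-/
open MeasureTheory Set
open scoped ENNReal ContDiff

namespace Pool.Agent.Lib.MP_c0f824_an.FT.MainM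

lemma IneqAt.mono {d : ℕ} {β : ℝ → ℝ} {j : ℕ} {F : Set ℝ} {p q s C C' : ℝ} (hC : C ≤ C')
    (h : IneqAt d β j F p q s C) : IneqAt d β j F p q s C' := by
  intro f
  refine (h f).trans ?_
  gcongr

theorem key (hL : SpecLower) (hN : SpecNum) (hP : SpecParam) (m : ℕ) (α p q s : ℝ) (hm : 1 ≤ m)
    (hα0 : 0 < α) (hα1 : α < 1) (hp : 1 ≤ p) (hq : 2 < q) (hs : s < sStar (m + 1) α q) :
    ∃ (D : Par) (c : ℝ), 0 < c ∧ (D.g : ℝ) ≤ α * D.a ∧ ∀ β : ℝ → ℝ, IsCutoff β →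
      ∃ w₁ : ℕ, ∀ w : ℕ, w₁ ≤ w → D.l + 1 ≤ w → ∀ E' : Set ℝ, D.E w ⊆ E' → E' ⊆ Icc 1 2 →
        ∀ C : ℝ, Ineq (m + 1) β E' p q s C → (2 : ℝ) ^ (c * D.j w) ≤ C := by
  obtain ⟨D, c, hc, hg, hD⟩ := hN m α q s hm hα0 hα1 hq hs
  refine ⟨D, c, hc, hg, fun β hβ => ?_⟩
  obtain ⟨K₀, hK₀, c₁, hc₁, hLo⟩ := hL m β hm hβ
  obtain ⟨w₁, hw₁⟩ := hD K₀ c₁ hK₀ hc₁
  refine ⟨max w₁ m, fun w hw hlw E' hE hE' C hI => ?_⟩
  have hmw : (m : ℝ) ≤ 4 ^ w := by
    have h1 : m ≤ w := (le_max_right _ _).trans hw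
    have h2 : w < 4 ^ w := Nat.lt_pow_self (by norm_num)
    exact_mod_cast (h1.trans h2.le)
  have hj : 1 ≤ D.j w := (Nat.one_le_two_pow).trans (hP D w hlw).2.2.2.2.2.2.2.2.2.2.2.2.2.2.2
  obtain ⟨F, hF, hIF⟩ := hI (D.j w) hj
  have hpos : ∀ C' : ℝ, 0 < C' → IneqAt (m + 1) β (D.j w) F p q s C' →
      (2 : ℝ) ^ (c * D.j w) ≤ C' := by
    intro C' hC' hI'
    exact hw₁ w ((le_max_left _ _).trans hw) C' hC'
      (hLo D w E' F p q s C' hlw hmw hp hq hC' hE hE' hF hI')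
  by_cases hC : 0 < C
  · exact hpos C hC hIF
  · exfalso
    have h1 := hpos (1 / 2) (by norm_num) (IneqAt.mono (by linarith) hIF)
    have h2 : (1 : ℝ) ≤ (2 : ℝ) ^ (c * D.j w) :=
      Real.one_le_rpow (by norm_num) (by positivity)
    linarith

theorem specMain (hL : SpecLower) (hN : SpecNum) (hC : SpecCover) (hU : SpecUnion)
    (hP : SpecParam) (hLi : SpecLine) : SpecMain := by
  intro d α p q hd hα0 hα1 hp hon hq1 hq2
  obtain ⟨hq, hp1, hsc⟩ := hLi d α p q hd hα0 hα1 hp hon hq1 hq2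
  obtain ⟨m, rfl⟩ : ∃ m, d = m + 1 := ⟨d - 1, by omega⟩
  have hm : 1 ≤ m := by omega
  constructor
  · -- (a)
    set σ : ℝ := (sStar (m + 1) α q - sc (m + 1) α p q) / 2 with hσ
    have hσ0 : 0 < σ := by rw [hσ]; linarith
    obtain ⟨D, c, hc, hg, hD⟩ := key hL hN hP m α p q (sc (m + 1) α p q + σ) hm hα0 hα1 hp1.le hq
      (by rw [hσ]; linarith)
    have hEE : D.EE (D.l + 1) ⊆ Icc 1 2 := by
      intro x hx
      simp only [Par.EE, mem_iUnion, exists_prop] at hx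
      obtain ⟨w, hw, hx⟩ := hx
      exact (hP D w hw).2.2.2.2.2.2.2.2.2.1 hx
    refine ⟨D.EE (D.l + 1), hEE, ?_, σ, hσ0, ?_⟩
    · obtain ⟨C₀, hC₀⟩ := hU D α hα0 hα1 hg (D.l + 1) le_rfl
      exact ⟨2 * D.a + 1, C₀, hC₀⟩
    · intro β hβ C hI
      obtain ⟨w₁, hw₁⟩ := hD β hβ
      have h2c : (1 : ℝ) < (2 : ℝ) ^ c := Real.one_lt_rpow (by norm_num) hc
      obtain ⟨k, hk⟩ := pow_unbounded_of_one_lt C h2c
      set w : ℕ := max (max w₁ (D.l + 1)) k with hw
      have hw1 : w₁ ≤ w := (le_max_left _ _).trans (le_max_left _ _)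
      have hw2 : D.l + 1 ≤ w := (le_max_right _ _).trans (le_max_left _ _)
      have hw3 : k ≤ w := le_max_right _ _
      have h1 := hw₁ w hw1 hw2 (D.EE (D.l + 1))
        (by
          intro x hx
          simp only [Par.EE, mem_iUnion, exists_prop]
          exact ⟨w, hw2, hx⟩) hEE C hI
      have hjw : 2 ^ w ≤ D.j w := (hP D w hw2).2.2.2.2.2.2.2.2.2.2.2.2.2.2.2
      have hjk : (k : ℝ) ≤ D.j w := by
        have : k ≤ 2 ^ w := hw3.trans (Nat.lt_two_pow_self).le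
        exact_mod_cast this.trans hjw
      have h2 : ((2 : ℝ) ^ c) ^ k ≤ (2 : ℝ) ^ (c * D.j w) := by
        rw [← Real.rpow_natCast, ← Real.rpow_mul (by norm_num)]
        apply Real.rpow_le_rpow_of_exponent_le (by norm_num)
        gcongr
      linarith
  · -- (b)
    obtain ⟨D, c, hc, hg, hD⟩ := key hL hN hP m α p q (sc (m + 1) α p q) hm hα0 hα1 hp1.le hq hsc
    have ha5 : 5 ≤ D.a := by
      have := D.ha
      have := D.hg
      have := D.hp
      omega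
    have haR : (5 : ℝ) ≤ D.a := by exact_mod_cast ha5
    refine ⟨1 / (4 * D.a), by positivity, fun β hβ A₀ => ?_⟩
    obtain ⟨w₁, hw₁⟩ := hD β hβ
    have hlog2 : 0 < Real.log 2 := Real.log_pos (by norm_num)
    obtain ⟨k, hk⟩ := pow_unbounded_of_one_lt (3 / (c * Real.log 2)) (Real.one_lt_sqrt_two)
    obtain ⟨k', hk'⟩ := exists_nat_ge A₀
    set w : ℕ := max (max w₁ (D.l + 1)) (max k k') with hw
    have hw1 : w₁ ≤ w := (le_max_left _ _).trans (le_max_left _ _)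
    have hw2 : D.l + 1 ≤ w := (le_max_right _ _).trans (le_max_left _ _)
    have hw3 : k ≤ w := (le_max_left _ _).trans (le_max_right _ _)
    have hw4 : k' ≤ w := (le_max_right _ _).trans (le_max_right _ _)
    obtain ⟨hHP, hQN, hGN, hN2, hG1, hP1, hPQ, hn1, hhM, hE12, hEc, hτ1, hτ2, hδ, hρ, hjw⟩ :=
      hP D w hw2
    have hN1 : (1 : ℝ) ≤ (D.N w : ℝ) := by exact_mod_cast (by omega : 1 ≤ D.N w)
    refine ⟨3 * (D.N w : ℝ) ^ 2, ?_, D.E w, hE12, ?_, ?_⟩
    · have h1 : (k' : ℝ) ≤ D.N w := by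
        have : k' ≤ D.N w := by
          refine (hw4.trans (Nat.lt_two_pow_self).le).trans ?_
          unfold Par.N
          exact Nat.pow_le_pow_right (by norm_num) (by nlinarith)
        exact_mod_cast this
      nlinarith
    · intro δ x y hδ0 hδ1 hx hy hxy
      have hGα : ((D.G w : ℕ) : ℝ) ≤ ((D.N w : ℕ) : ℝ) ^ α := by
        unfold Par.G Par.N
        push_cast
        rw [← Real.rpow_natCast 2 (D.a * w), ← Real.rpow_mul (by norm_num),
          ← Real.rpow_natCast 2 (D.g * w)]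
        apply Real.rpow_le_rpow_of_exponent_le (by norm_num)
        push_cast
        have : (0 : ℝ) ≤ w := by positivity
        nlinarith
      have h1 := hC (D.N w) (D.M w) (Par.h w) (D.G w) (D.τ w) α hα0 hα1.le hN2 hG1 hGN hGα
        x (y - x) δ hδ0 hxy (by linarith)
      rw [show x + (y - x) = y by ring] at h1
      exact h1
    · intro C hI
      have h1 := hw₁ w hw1 hw2 (D.E w) (Subset.refl _) hE12 C hI
      refine le_trans ?_ h1
      rw [Real.rpow_def_of_pos (by norm_num : (0 : ℝ) < 2)]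
      apply Real.exp_le_exp.mpr
      have haw : (3 * (D.N w : ℝ) ^ 2) ^ (1 / (4 * (D.a : ℝ))) ≤ 3 * Real.sqrt 2 ^ w := by
        have e1 : (D.N w : ℝ) ^ 2 = (Real.sqrt 2 ^ w) ^ (4 * (D.a : ℝ)) := by
          unfold Par.N
          push_cast
          rw [show (4 * (D.a : ℝ)) = ((4 * D.a : ℕ) : ℝ) by push_cast; ring, Real.rpow_natCast,
            ← pow_mul, ← pow_mul, show w * (4 * D.a) = 2 * (D.a * w * 2) by ring,
            pow_mul (Real.sqrt 2) 2, Real.sq_sqrt (by norm_num)]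
        rw [Real.mul_rpow (by norm_num) (by positivity), e1, ← Real.rpow_mul (by positivity),
          show 4 * (D.a : ℝ) * (1 / (4 * (D.a : ℝ))) = 1 by field_simp, Real.rpow_one]
        gcongr
        calc (3 : ℝ) ^ (1 / (4 * (D.a : ℝ))) ≤ 3 ^ (1 : ℝ) := by
              apply Real.rpow_le_rpow_of_exponent_le (by norm_num)
              rw [div_le_one (by positivity)]
              linarith
          _ = 3 := Real.rpow_one 3
      have hsq : 3 / (c * Real.log 2) ≤ Real.sqrt 2 ^ w := by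
        refine hk.le.trans ?_
        exact pow_le_pow_right₀ (Real.one_lt_sqrt_two).le hw3
      have hcl : 0 < c * Real.log 2 := by positivity
      rw [div_le_iff₀ hcl] at hsq
      have h2w : (Real.sqrt 2 ^ w) * (Real.sqrt 2 ^ w) = 2 ^ w := by
        rw [← mul_pow, Real.mul_self_sqrt (by norm_num)]
      have hjR : (2 : ℝ) ^ w ≤ D.j w := by exact_mod_cast hjw
      have hs0 : 0 ≤ Real.sqrt 2 ^ w := by positivity
      calc (3 * (D.N w : ℝ) ^ 2) ^ (1 / (4 * (D.a : ℝ))) ≤ 3 * Real.sqrt 2 ^ w := haw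
        _ ≤ (Real.sqrt 2 ^ w * (c * Real.log 2)) * Real.sqrt 2 ^ w := by gcongr
        _ = (c * Real.log 2) * 2 ^ w := by rw [← h2w]; ring
        _ ≤ (c * Real.log 2) * D.j w := by gcongr
        _ = Real.log 2 * (c * D.j w) := by ring

end Pool.Agent.Lib.MP_c0f824_an.FT.MainM
end

section
/-!
# The general theorem: all `p ≥ 1`, all `q > 2`, all `s < s_*(q)`
-/
open MeasureTheory Set
open scoped ENNReal ContDiff

namespace Pool.Agent.Lib.MP_c0f824_an.FT.GeneralM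

theorem key2 (hL : SpecLower) (hN : SpecNum) (hP : SpecParam) (m : ℕ) (α q s : ℝ) (hm : 1 ≤ m)
    (hα0 : 0 < α) (hα1 : α < 1) (hq : 2 < q) (hs : s < sStar (m + 1) α q) :
    ∃ (D : Par) (c : ℝ), 0 < c ∧ (D.g : ℝ) ≤ α * D.a ∧ ∀ β : ℝ → ℝ, IsCutoff β →
      ∃ w₁ : ℕ, ∀ w : ℕ, w₁ ≤ w → D.l + 1 ≤ w → ∀ E' : Set ℝ, D.E w ⊆ E' → E' ⊆ Icc 1 2 →
        ∀ p : ℝ, 1 ≤ p → ∀ C : ℝ, Ineq (m + 1) β E' p q s C → (2 : ℝ) ^ (c * D.j w) ≤ C := by
  obtain ⟨D, c, hc, hg, hD⟩ := hN m α q s hm hα0 hα1 hq hs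
  refine ⟨D, c, hc, hg, fun β hβ => ?_⟩
  obtain ⟨K₀, hK₀, c₁, hc₁, hLo⟩ := hL m β hm hβ
  obtain ⟨w₁, hw₁⟩ := hD K₀ c₁ hK₀ hc₁
  refine ⟨max w₁ m, fun w hw hlw E' hE hE' p hp C hI => ?_⟩
  have hmw : (m : ℝ) ≤ 4 ^ w := by
    have h1 : m ≤ w := (le_max_right _ _).trans hw
    have h2 : w < 4 ^ w := Nat.lt_pow_self (by norm_num)
    exact_mod_cast (h1.trans h2.le)
  have hj : 1 ≤ D.j w := (Nat.one_le_two_pow).trans (hP D w hlw).2.2.2.2.2.2.2.2.2.2.2.2.2.2.2
  obtain ⟨F, hF, hIF⟩ := hI (D.j w) hj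
  have hpos : ∀ C' : ℝ, 0 < C' → IneqAt (m + 1) β (D.j w) F p q s C' →
      (2 : ℝ) ^ (c * D.j w) ≤ C' := by
    intro C' hC' hI'
    exact hw₁ w ((le_max_left _ _).trans hw) C' hC'
      (hLo D w E' F p q s C' hlw hmw hp hq hC' hE hE' hF hI')
  by_cases hC : 0 < C
  · exact hpos C hC hIF
  · exfalso
    have h1 := hpos (1 / 2) (by norm_num) (MainM.IneqAt.mono (by linarith) hIF)
    have h2 : (1 : ℝ) ≤ (2 : ℝ) ^ (c * D.j w) :=
      Real.one_le_rpow (by norm_num) (by positivity)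
    linarith

theorem partA (hL : SpecLower) (hN : SpecNum) (hU : SpecUnion) (hP : SpecParam) (m : ℕ)
    (α q s : ℝ) (hm : 1 ≤ m) (hα0 : 0 < α) (hα1 : α < 1) (hq : 2 < q)
    (hs : s < sStar (m + 1) α q) :
    ∃ E : Set ℝ, E ⊆ Icc 1 2 ∧
      (∃ (κ : ℕ) (C₀ : ℝ), ∀ δ a b : ℝ, 0 < δ → δ < 1 → 1 ≤ a → b ≤ 2 → δ ≤ b - a →
        (cov (E ∩ Icc a b) δ : ℝ) ≤ C₀ * (Real.log (2 / δ)) ^ κ * ((b - a) / δ) ^ α) ∧
      ∀ p : ℝ, 1 ≤ p → ∀ β : ℝ → ℝ, IsCutoff β → ∀ C : ℝ, ¬ Ineq (m + 1) β E p q s C := by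
  obtain ⟨D, c, hc, hg, hD⟩ := key2 hL hN hP m α q s hm hα0 hα1 hq hs
  have hEE : D.EE (D.l + 1) ⊆ Icc 1 2 := by
    intro x hx
    simp only [Par.EE, mem_iUnion, exists_prop] at hx
    obtain ⟨w, hw, hx⟩ := hx
    exact (hP D w hw).2.2.2.2.2.2.2.2.2.1 hx
  refine ⟨D.EE (D.l + 1), hEE, ?_, ?_⟩
  · obtain ⟨C₀, hC₀⟩ := hU D α hα0 hα1 hg (D.l + 1) le_rfl
    exact ⟨2 * D.a + 1, C₀, hC₀⟩
  · intro p hp β hβ C hI
    obtain ⟨w₁, hw₁⟩ := hD β hβ
    have h2c : (1 : ℝ) < (2 : ℝ) ^ c := Real.one_lt_rpow (by norm_num) hc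
    obtain ⟨k, hk⟩ := pow_unbounded_of_one_lt C h2c
    set w : ℕ := max (max w₁ (D.l + 1)) k with hw
    have hw1 : w₁ ≤ w := (le_max_left _ _).trans (le_max_left _ _)
    have hw2 : D.l + 1 ≤ w := (le_max_right _ _).trans (le_max_left _ _)
    have hw3 : k ≤ w := le_max_right _ _
    have h1 := hw₁ w hw1 hw2 (D.EE (D.l + 1))
      (by
        intro x hx
        simp only [Par.EE, mem_iUnion, exists_prop]
        exact ⟨w, hw2, hx⟩) hEE p hp C hI
    have hjw : 2 ^ w ≤ D.j w := (hP D w hw2).2.2.2.2.2.2.2.2.2.2.2.2.2.2.2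
    have hjk : (k : ℝ) ≤ D.j w := by
      have : k ≤ 2 ^ w := hw3.trans (Nat.lt_two_pow_self).le
      exact_mod_cast this.trans hjw
    have h2 : ((2 : ℝ) ^ c) ^ k ≤ (2 : ℝ) ^ (c * D.j w) := by
      rw [← Real.rpow_natCast, ← Real.rpow_mul (by norm_num)]
      apply Real.rpow_le_rpow_of_exponent_le (by norm_num)
      gcongr
    linarith

theorem partB (hL : SpecLower) (hN : SpecNum) (hC : SpecCover) (hP : SpecParam) (m : ℕ)
    (α q s : ℝ) (hm : 1 ≤ m) (hα0 : 0 < α) (hα1 : α < 1) (hq : 2 < q)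
    (hs : s < sStar (m + 1) α q) :
    ∃ c : ℝ, 0 < c ∧ ∀ β : ℝ → ℝ, IsCutoff β → ∀ A₀ : ℝ, ∃ A : ℝ, A₀ ≤ A ∧
      ∃ E : Set ℝ, E ⊆ Icc 1 2 ∧
        (∀ δ a b : ℝ, 0 < δ → δ < 1 → 1 ≤ a → b ≤ 2 → δ ≤ b - a →
          (cov (E ∩ Icc a b) δ : ℝ) ≤ A * ((b - a) / δ) ^ α) ∧
        ∀ p : ℝ, 1 ≤ p → ∀ C : ℝ, Ineq (m + 1) β E p q s C → Real.exp (A ^ c) ≤ C := by
  obtain ⟨D, c, hc, hg, hD⟩ := key2 hL hN hP m α q s hm hα0 hα1 hq hs
  have ha5 : 5 ≤ D.a := by
    have := D.ha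
    have := D.hg
    have := D.hp
    omega
  have haR : (5 : ℝ) ≤ D.a := by exact_mod_cast ha5
  refine ⟨1 / (4 * D.a), by positivity, fun β hβ A₀ => ?_⟩
  obtain ⟨w₁, hw₁⟩ := hD β hβ
  have hlog2 : 0 < Real.log 2 := Real.log_pos (by norm_num)
  obtain ⟨k, hk⟩ := pow_unbounded_of_one_lt (3 / (c * Real.log 2)) (Real.one_lt_sqrt_two)
  obtain ⟨k', hk'⟩ := exists_nat_ge A₀
  set w : ℕ := max (max w₁ (D.l + 1)) (max k k') with hw
  have hw1 : w₁ ≤ w := (le_max_left _ _).trans (le_max_left _ _)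
  have hw2 : D.l + 1 ≤ w := (le_max_right _ _).trans (le_max_left _ _)
  have hw3 : k ≤ w := (le_max_left _ _).trans (le_max_right _ _)
  have hw4 : k' ≤ w := (le_max_right _ _).trans (le_max_right _ _)
  obtain ⟨hHP, hQN, hGN, hN2, hG1, hP1, hPQ, hn1, hhM, hE12, hEc, hτ1, hτ2, hδ, hρ, hjw⟩ :=
    hP D w hw2
  have hN1 : (1 : ℝ) ≤ (D.N w : ℝ) := by exact_mod_cast (by omega : 1 ≤ D.N w)
  refine ⟨3 * (D.N w : ℝ) ^ 2, ?_, D.E w, hE12, ?_, ?_⟩
  · have h1 : (k' : ℝ) ≤ D.N w := by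
      have : k' ≤ D.N w := by
        refine (hw4.trans (Nat.lt_two_pow_self).le).trans ?_
        unfold Par.N
        exact Nat.pow_le_pow_right (by norm_num) (by nlinarith)
      exact_mod_cast this
    nlinarith
  · intro δ x y hδ0 hδ1 hx hy hxy
    have hGα : ((D.G w : ℕ) : ℝ) ≤ ((D.N w : ℕ) : ℝ) ^ α := by
      unfold Par.G Par.N
      push_cast
      rw [← Real.rpow_natCast 2 (D.a * w), ← Real.rpow_mul (by norm_num),
        ← Real.rpow_natCast 2 (D.g * w)]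
      apply Real.rpow_le_rpow_of_exponent_le (by norm_num)
      push_cast
      have : (0 : ℝ) ≤ w := by positivity
      nlinarith
    have h1 := hC (D.N w) (D.M w) (Par.h w) (D.G w) (D.τ w) α hα0 hα1.le hN2 hG1 hGN hGα
      x (y - x) δ hδ0 hxy (by linarith)
    rw [show x + (y - x) = y by ring] at h1
    exact h1
  · intro p hp C hI
    have h1 := hw₁ w hw1 hw2 (D.E w) (Subset.refl _) hE12 p hp C hI
    refine le_trans ?_ h1
    rw [Real.rpow_def_of_pos (by norm_num : (0 : ℝ) < 2)]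
    apply Real.exp_le_exp.mpr
    have haw : (3 * (D.N w : ℝ) ^ 2) ^ (1 / (4 * (D.a : ℝ))) ≤ 3 * Real.sqrt 2 ^ w := by
      have e1 : (D.N w : ℝ) ^ 2 = (Real.sqrt 2 ^ w) ^ (4 * (D.a : ℝ)) := by
        unfold Par.N
        push_cast
        rw [show (4 * (D.a : ℝ)) = ((4 * D.a : ℕ) : ℝ) by push_cast; ring, Real.rpow_natCast,
          ← pow_mul, ← pow_mul, show w * (4 * D.a) = 2 * (D.a * w * 2) by ring,
          pow_mul (Real.sqrt 2) 2, Real.sq_sqrt (by norm_num)]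
      rw [Real.mul_rpow (by norm_num) (by positivity), e1, ← Real.rpow_mul (by positivity),
        show 4 * (D.a : ℝ) * (1 / (4 * (D.a : ℝ))) = 1 by field_simp, Real.rpow_one]
      gcongr
      calc (3 : ℝ) ^ (1 / (4 * (D.a : ℝ))) ≤ 3 ^ (1 : ℝ) := by
            apply Real.rpow_le_rpow_of_exponent_le (by norm_num)
            rw [div_le_one (by positivity)]
            linarith
        _ = 3 := Real.rpow_one 3
    have hsq : 3 / (c * Real.log 2) ≤ Real.sqrt 2 ^ w := by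
      refine hk.le.trans ?_
      exact pow_le_pow_right₀ (Real.one_lt_sqrt_two).le hw3
    have hcl : 0 < c * Real.log 2 := by positivity
    rw [div_le_iff₀ hcl] at hsq
    have h2w : (Real.sqrt 2 ^ w) * (Real.sqrt 2 ^ w) = 2 ^ w := by
      rw [← mul_pow, Real.mul_self_sqrt (by norm_num)]
    have hjR : (2 : ℝ) ^ w ≤ D.j w := by exact_mod_cast hjw
    have hs0 : 0 ≤ Real.sqrt 2 ^ w := by positivity
    calc (3 * (D.N w : ℝ) ^ 2) ^ (1 / (4 * (D.a : ℝ))) ≤ 3 * Real.sqrt 2 ^ w := haw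
      _ ≤ (Real.sqrt 2 ^ w * (c * Real.log 2)) * Real.sqrt 2 ^ w := by gcongr
      _ = (c * Real.log 2) * 2 ^ w := by rw [← h2w]; ring
      _ ≤ (c * Real.log 2) * D.j w := by gcongr
      _ = Real.log 2 * (c * D.j w) := by ring


end Pool.Agent.Lib.MP_c0f824_an.FT.GeneralM
end

section
/-!
# LINE: algebra on the line (L)
-/
namespace Pool.Agent.Lib.MP_c0f824_an.FT.LineM

theorem specLine : SpecLine := by
  intro d α p q hd hα0 hα1 hp hL hq1 hq2
  have hd2 : (2 : ℝ) ≤ d := by exact_mod_cast hd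
  obtain ⟨m, hmdef⟩ : ∃ m : ℝ, (d : ℝ) = m + 1 := ⟨(d : ℝ) - 1, by ring⟩
  have hm1 : 1 ≤ m := by linarith
  have hm0 : 0 < m := by linarith
  unfold OnL at hL
  unfold qc at hq1 hq2
  rw [hmdef] at hL hq1 hq2
  have e1 : m + 1 - 1 = m := by ring
  rw [e1] at hL hq1 hq2
  have hqc : 2 * (m + α) / m = 2 + 2 * α / m := by field_simp
  rw [hqc] at hq1 hq2
  have hpos : 0 < 2 * α / m := by positivity
  have hq : 2 < q := by linarith
  have hq0 : 0 < q := by linarith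
  have hp1 : 1 / p = 1 - (m + 2 * α) / (m * q) := by
    have h2 : 1 - 1 / p = (m + 2 * α) / m * (1 / q) := by
      rw [hL]; field_simp
    have h3 : (m + 2 * α) / m * (1 / q) = (m + 2 * α) / (m * q) := by field_simp
    rw [h3] at h2
    linarith
  have hlt : 1 < p := by
    have h3 : 0 < (m + 2 * α) / (m * q) := by positivity
    have h4 : 1 / p < 1 := by linarith
    rwa [div_lt_one hp] at h4
  have hden : 0 < 3 * (m + 1) + 5 + α * m := by positivity
  have key : (q - 2) * (3 * m + 8 + α * m) < 8 * α * (m + 2) / m := by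
    have h5 : q - 2 < 2 * α / m + 2 * α * (1 - α) / (3 * (m + 1) + 5 + α * m) := by linarith
    have h6 : (q - 2) * (3 * (m + 1) + 5 + α * m) <
        (2 * α / m + 2 * α * (1 - α) / (3 * (m + 1) + 5 + α * m)) *
          (3 * (m + 1) + 5 + α * m) := mul_lt_mul_of_pos_right h5 hden
    have h7 : (2 * α / m + 2 * α * (1 - α) / (3 * (m + 1) + 5 + α * m)) *
          (3 * (m + 1) + 5 + α * m) = 8 * α * (m + 2) / m := by
      field_simp
      ring
    have h8 : 3 * (m + 1) + 5 + α * m = 3 * m + 8 + α * m := by ring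
    rw [h7, h8] at h6
    exact h6
  have hs1 : s1 d p q < sStar d α q := by
    unfold s1 sStar
    rw [hmdef, e1, hp1]
    have h9 : m / 2 - (m + 1) / q + (1 - (m + 2 * α) / (m * q)) =
        ((m + 2) * (q - 2) / 2 - 2 * α / m) / q := by field_simp; ring
    have h10 : α / q + m * (1 - α) * (q - 2) / (8 * q) =
        (α + m * (1 - α) * (q - 2) / 8) / q := by field_simp
    rw [h9, h10]
    apply div_lt_div_of_pos_right _ hq0
    have h11 : 8 * α * (m + 2) / m = 8 * α + 8 * (2 * α / m) := by field_simp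
    rw [h11] at key
    nlinarith
  have hs2 : s2 d α p q < sStar d α q := by
    have : s2 d α p q = s1 d p q := by
      unfold s1 s2
      have h12 : ((d : ℝ) + 1) / (2 * p) = (d + 1) / 2 * (1 / p) := by field_simp
      rw [h12, hmdef, e1, hp1]
      field_simp
      ring
    rw [this]; exact hs1
  have hs3 : s3 d α p q < sStar d α q := by
    have : s3 d α p q = s1 d p q - α / q := by
      unfold s1 s3
      have h12 : (d : ℝ) / p = d * (1 / p) := by field_simp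
      rw [h12, hmdef, e1, hp1]
      field_simp
      ring
    rw [this]
    have : 0 < α / q := by positivity
    linarith
  refine ⟨hq, hlt, ?_⟩
  unfold sc
  exact max_lt hs1 (max_lt hs2 hs3)

end Pool.Agent.Lib.MP_c0f824_an.FT.LineM
end

section
/-!
# Auxiliary facts for the assembly
-/
open MeasureTheory Set
open scoped ENNReal ContDiff

namespace Pool.Agent.Lib.MP_c0f824_an.FT.LowerM

lemma tsum_ge (F : Set ℝ) (F' : Finset ℝ) (hF : ∀ x ∈ F', x ∈ F) (g : ℝ → ℝ≥0∞) :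
    ∑ t ∈ F', g t ≤ ∑' t : F, g t := by
  classical
  let emb : {x // x ∈ F'} ↪ F := ⟨fun x => ⟨x.1, hF x.1 x.2⟩, fun x y h => by
    have h2 : (x : ℝ) = (y : ℝ) := congrArg (fun z : F => (z : ℝ)) h
    exact Subtype.ext h2⟩
  let T : Finset F := F'.attach.map emb
  calc ∑ t ∈ F', g t = ∑ t ∈ T, g t := by
        rw [Finset.sum_map]
        exact (Finset.sum_attach F' (fun t => g t)).symm
    _ ≤ ∑' t : F, g t := ENNReal.sum_le_tsum T

lemma volume_closedBall_le (d : ℕ) (R : ℝ) (hR : 0 ≤ R) :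
    volume (Metric.closedBall (0 : Rd d) R) ≤ ENNReal.ofReal ((2 * R) ^ d) := by
  have h1 : Metric.closedBall (0 : Rd d) R ⊆
      (WithLp.ofLp : Rd d → (Fin d → ℝ)) ⁻¹' (Set.pi univ fun _ => Icc (-R) R) := by
    intro x hx
    rw [Metric.mem_closedBall, dist_zero_right] at hx
    intro i _
    have := PiLp.norm_apply_le x i
    rw [Real.norm_eq_abs] at this
    exact abs_le.mp (this.trans hx)
  refine (measure_mono h1).trans ?_
  rw [(PiLp.volume_preserving_ofLp (Fin d)).measure_preimage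
    (MeasurableSet.univ_pi fun _ => measurableSet_Icc).nullMeasurableSet]
  rw [volume_pi_pi]
  simp only [Real.volume_Icc, Finset.prod_const, Finset.card_univ, Fintype.card_fin]
  rw [← ENNReal.ofReal_pow (by linarith)]
  apply ENNReal.ofReal_le_ofReal
  apply le_of_eq
  ring

lemma eLpNorm_bound {d : ℕ} (f : Rd d → ℂ) (M R p : ℝ) (hR : 0 ≤ R) (hp : 1 ≤ p)
    (hf : ∀ x, ‖f x‖ ≤ M) (hs : ∀ x, R < ‖x‖ → f x = 0) :
    eLpNorm f (ENNReal.ofReal p) volume ≤ ENNReal.ofReal (M * (1 + (2 * R) ^ d)) := by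
  have hsup : f.support ⊆ Metric.closedBall (0 : Rd d) R := by
    intro x hx
    rw [Metric.mem_closedBall, dist_zero_right]
    by_contra hcon
    exact hx (hs x (not_le.mp hcon))
  rw [← eLpNorm_restrict_eq_of_support_subset hsup]
  refine (eLpNorm_le_of_ae_bound (Filter.Eventually.of_forall hf)).trans ?_
  rw [Measure.restrict_apply_univ, ENNReal.toReal_ofReal (by linarith)]
  have hV0 : (0 : ℝ) ≤ (2 * R) ^ d := by positivity
  have h1 : volume (Metric.closedBall (0 : Rd d) R) ^ p⁻¹ ≤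
      ENNReal.ofReal (1 + (2 * R) ^ d) := by
    calc volume (Metric.closedBall (0 : Rd d) R) ^ p⁻¹
        ≤ ENNReal.ofReal ((2 * R) ^ d) ^ p⁻¹ :=
          ENNReal.rpow_le_rpow (volume_closedBall_le d R hR) (by positivity)
      _ = ENNReal.ofReal (((2 * R) ^ d) ^ p⁻¹) :=
          ENNReal.ofReal_rpow_of_nonneg hV0 (by positivity)
      _ ≤ ENNReal.ofReal (1 + (2 * R) ^ d) := by
          apply ENNReal.ofReal_le_ofReal
          set V := (2 * R) ^ d
          calc V ^ p⁻¹ ≤ (1 + V) ^ p⁻¹ :=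
                Real.rpow_le_rpow hV0 (by linarith) (by positivity)
            _ ≤ (1 + V) ^ (1 : ℝ) := by
                apply Real.rpow_le_rpow_of_exponent_le (by linarith)
                exact inv_le_one_of_one_le₀ hp
            _ = 1 + V := Real.rpow_one _
  calc volume (Metric.closedBall (0 : Rd d) R) ^ p⁻¹ * ENNReal.ofReal M
      ≤ ENNReal.ofReal (1 + (2 * R) ^ d) * ENNReal.ofReal M := by gcongr
    _ = ENNReal.ofReal (M * (1 + (2 * R) ^ d)) := by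
        rw [← ENNReal.ofReal_mul (by positivity), mul_comm]

/-- A finite sum of numbers of absolute value at most `1`, of which at most `M` do not vanish. -/
lemma norm_sum_le_card {ι : Type} [Fintype ι] (a : ι → ℂ) (S : ι → Prop) (M : ℝ)
    (h1 : ∀ i, ‖a i‖ ≤ 1) (h0 : ∀ i, ¬ S i → a i = 0) (hM : (Nat.card {i // S i} : ℝ) ≤ M) :
    ‖∑ i, a i‖ ≤ M := by
  classical
  calc ‖∑ i, a i‖ ≤ ∑ i, ‖a i‖ := norm_sum_le _ _
    _ ≤ ∑ i, (if S i then (1 : ℝ) else 0) := by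
        apply Finset.sum_le_sum
        intro i _
        split_ifs with hi
        · exact h1 i
        · rw [h0 i hi, norm_zero]
    _ = (Nat.card {i // S i} : ℝ) := by
        rw [Finset.sum_ite, Finset.sum_const_zero, add_zero, Finset.sum_const, nsmul_eq_mul,
          mul_one, Nat.card_eq_fintype_card, Fintype.card_subtype]
    _ ≤ M := hM


/-! ### Digits -/

lemma dv_nonneg (N : ℕ) {n k : ℕ} (c : Fin n → Fin k) : 0 ≤ dv N c :=
  Finset.sum_nonneg fun _ _ => by positivity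

lemma dv_le (N : ℕ) {n k : ℕ} (c : Fin n → Fin k) (hN : 2 ≤ N) (hk : k ≤ N) (hk1 : 1 ≤ k) :
    dv N c ≤ (k : ℝ) / N := by
  have hN2 : (2 : ℝ) ≤ N := by exact_mod_cast hN
  have hNpos : (0 : ℝ) < N := by linarith
  have hk1' : (1 : ℝ) ≤ k := by exact_mod_cast hk1
  have hkN : (k : ℝ) ≤ N := by exact_mod_cast hk
  set x : ℝ := (N : ℝ)⁻¹ with hx
  have hx0 : 0 ≤ x := by positivity
  have hx1 : x < 1 := by
    rw [hx]; exact inv_lt_one_of_one_lt₀ (by linarith)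
  have h1 : dv N c ≤ ∑ i : Fin n, ((k : ℝ) - 1) * x * x ^ (i : ℕ) := by
    apply Finset.sum_le_sum
    intro i _
    have hc : ((c i : ℕ) : ℝ) ≤ (k : ℝ) - 1 := by
      have : (c i : ℕ) + 1 ≤ k := (c i).2
      have : ((c i : ℕ) : ℝ) + 1 ≤ k := by exact_mod_cast this
      linarith
    calc ((c i : ℕ) : ℝ) / (N : ℝ) ^ ((i : ℕ) + 1) = ((c i : ℕ) : ℝ) * x * x ^ (i : ℕ) := by
          rw [hx, pow_succ, inv_pow, div_eq_mul_inv, mul_inv]; ring
      _ ≤ ((k : ℝ) - 1) * x * x ^ (i : ℕ) := by gcongr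
  have h2 : ∑ i : Fin n, ((k : ℝ) - 1) * x * x ^ (i : ℕ) ≤ ((k : ℝ) - 1) * x * (1 - x)⁻¹ := by
    rw [← Finset.mul_sum]
    apply mul_le_mul_of_nonneg_left _ (by nlinarith)
    rw [Fin.sum_univ_eq_sum_range (fun i => x ^ i) n, ← tsum_geometric_of_lt_one hx0 hx1]
    exact (summable_geometric_of_lt_one hx0 hx1).sum_le_tsum _ (fun i _ => by positivity)
  refine (h1.trans h2).trans ?_
  have h3 : (1 - x)⁻¹ = N / (N - 1) := by
    rw [hx]
    have : (N : ℝ) - 1 ≠ 0 := by linarith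
    field_simp
  rw [h3, hx]
  have h4 : (0 : ℝ) < (N : ℝ) - 1 := by linarith
  rw [show ((k : ℝ) - 1) * (N : ℝ)⁻¹ * ((N : ℝ) / ((N : ℝ) - 1)) = ((k : ℝ) - 1) / (N - 1) by
    field_simp]
  rw [div_le_div_iff₀ h4 hNpos]
  nlinarith

lemma dv_le_one (N : ℕ) {n k : ℕ} (c : Fin n → Fin k) (hN : 2 ≤ N) (hk : k ≤ N) (hk1 : 1 ≤ k) :
    dv N c ≤ 1 := by
  refine (dv_le N c hN hk hk1).trans ?_
  have hN2 : (2 : ℝ) ≤ N := by exact_mod_cast hN
  rw [div_le_one (by linarith)]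
  exact_mod_cast hk

/-! ### Vectors -/

lemma norm_sq_vec {m : ℕ} (x₀ : ℝ) (v : Fin m → ℝ) :
    ‖vec x₀ v‖ ^ 2 = x₀ ^ 2 + ∑ i, v i ^ 2 := by
  rw [EuclideanSpace.real_norm_sq_eq, Fin.sum_univ_succ]
  simp [vec]

lemma hgt_nonneg {m : ℕ} (b : Fin m → ℝ) : 0 ≤ hgt b := Real.sqrt_nonneg _

lemma hgt_le_one {m : ℕ} (b : Fin m → ℝ) : hgt b ≤ 1 := by
  unfold hgt
  rw [Real.sqrt_le_one]
  have : 0 ≤ ∑ i, b i ^ 2 := Finset.sum_nonneg fun _ _ => sq_nonneg _
  linarith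

lemma norm_dir {m n Q P L : ℕ} (N : ℕ) (T : Idx m n Q P L)
    (h : ∑ i, dv N (T.2.1 i) ^ 2 ≤ 1) : ‖dir N T‖ = 1 := by
  have h1 : ‖dir N T‖ ^ 2 = 1 := by
    unfold dir
    rw [norm_sq_vec, hgt, Real.sq_sqrt (by linarith)]
    ring
  have h2 : 0 ≤ ‖dir N T‖ := norm_nonneg _
  nlinarith

lemma norm_pos_le {m n Q P L : ℕ} (N : ℕ) (τ : ℝ) (T : Idx m n Q P L) (hN : 2 ≤ N)
    (hQ : Q ≤ N) (hP : P ≤ N) (hQ1 : 1 ≤ Q) (hP1 : 1 ≤ P) (hL : L ≤ N ^ n) (h0 : 0 ≤ τ)
    (h2 : τ ≤ 2) : ‖pos N τ T‖ ≤ 3 * ((m : ℝ) + 1) := by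
  have hNpos : (0 : ℝ) < (N : ℝ) ^ n := by
    have : (0 : ℝ) < N := by exact_mod_cast (by omega : 0 < N)
    positivity
  have h1 : ‖pos N τ T‖ ^ 2 ≤ 9 * ((m : ℝ) + 1) := by
    unfold pos
    rw [norm_sq_vec]
    have hk : ((T.2.2 : ℕ) : ℝ) / (N : ℝ) ^ n ≤ 1 := by
      rw [div_le_one hNpos]
      have : (T.2.2 : ℕ) ≤ N ^ n := (T.2.2.2.le).trans hL
      exact_mod_cast this
    have hk0 : 0 ≤ ((T.2.2 : ℕ) : ℝ) / (N : ℝ) ^ n := by positivity
    have hh0 := hgt_nonneg fun i => dv N (T.2.1 i)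
    have hh1 := hgt_le_one fun i => dv N (T.2.1 i)
    have e1 : (((T.2.2 : ℕ) : ℝ) / (N : ℝ) ^ n + τ * hgt fun i => dv N (T.2.1 i)) ^ 2 ≤ 9 := by
      have : τ * (hgt fun i => dv N (T.2.1 i)) ≤ 2 := by nlinarith
      have : 0 ≤ τ * (hgt fun i => dv N (T.2.1 i)) := by positivity
      nlinarith
    have e2 : ∑ i, (dv N (T.1 i) + τ * dv N (T.2.1 i)) ^ 2 ≤ ∑ _i : Fin m, (9 : ℝ) := by
      apply Finset.sum_le_sum
      intro i _
      have a0 := dv_nonneg N (T.1 i)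
      have a1 := dv_le_one N (T.1 i) hN hQ hQ1
      have b0 := dv_nonneg N (T.2.1 i)
      have b1 := dv_le_one N (T.2.1 i) hN hP hP1
      have : τ * dv N (T.2.1 i) ≤ 2 := by nlinarith
      have : 0 ≤ τ * dv N (T.2.1 i) := by positivity
      nlinarith
    rw [Finset.sum_const, Finset.card_univ, Fintype.card_fin, nsmul_eq_mul] at e2
    linarith
  have hm : (0 : ℝ) ≤ m := by positivity
  have h3 : ‖pos N τ T‖ ^ 2 ≤ (3 * ((m : ℝ) + 1)) ^ 2 := by nlinarith
  exact abs_le_of_sq_le_sq' h3 (by positivity) |>.2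

/-! ### Packets -/

lemma norm_packet_le {d : ℕ} (lam r : ℝ) (om x₀ x : Rd d) : ‖packet lam r om x₀ x‖ ≤ 1 := by
  unfold packet
  rw [norm_mul, mul_comm Complex.I, Complex.norm_exp_ofReal_mul_I, mul_one, Complex.norm_real,
    Real.norm_eq_abs, abs_of_nonneg (bump d).nonneg]
  exact (bump d).le_one

lemma packet_eq_zero {d : ℕ} (lam r : ℝ) (hr : 0 < r) (om x₀ x : Rd d)
    (hx : 2 * r ≤ ‖x - x₀‖) : packet lam r om x₀ x = 0 := by
  unfold packet
  have h : bump d (r⁻¹ • (x - x₀)) = 0 := by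
    apply (bump d).zero_of_le_dist
    rw [dist_zero_right, norm_smul, norm_inv, Real.norm_eq_abs, abs_of_pos hr]
    change (2 : ℝ) ≤ _
    rw [inv_mul_eq_div, le_div_iff₀ hr]
    exact hx
  rw [h]
  simp

end Pool.Agent.Lib.MP_c0f824_an.FT.LowerM
end

section
/-!
# The assembly: one block of the set of times
-/
open MeasureTheory Set
open scoped ENNReal ContDiff

namespace Pool.Agent.Lib.MP_c0f824_an.FT.LowerM

lemma eLpNorm_rpow {d : ℕ} (u : Rd d → ℂ) (q : ℝ) (hq : 0 < q) :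
    eLpNorm u (ENNReal.ofReal q) volume ^ q = ∫⁻ x, ‖u x‖ₑ ^ q := by
  have h0 : ENNReal.ofReal q ≠ 0 := by
    rw [Ne, ENNReal.ofReal_eq_zero, not_le]; exact hq
  rw [eLpNorm_eq_lintegral_rpow_enorm_toReal h0 ENNReal.ofReal_ne_top,
    ENNReal.toReal_ofReal hq.le, ← ENNReal.rpow_mul, one_div, inv_mul_cancel₀ hq.ne',
    ENNReal.rpow_one]

lemma card_aux (Q P N K vd : ℝ) (n m : ℕ) (hN : 0 < N) :
    (Q ^ n) ^ m * ((P ^ n) ^ m * N ^ n) * ((K / N ^ n) ^ (m + 1) * vd) / 8 =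
      (Q * P / N) ^ (n * m) * (vd * K ^ (m + 1) / 8) := by
  rw [pow_mul, div_pow (Q * P) N n, mul_pow Q P n]
  have hA : (0 : ℝ) < N ^ n := by positivity
  generalize N ^ n = A at hA ⊢
  generalize Q ^ n = B
  generalize P ^ n = D
  rw [div_pow, div_pow, mul_pow, pow_succ A m]
  field_simp

/-- The abstract form of the assembly. -/
lemma core (hWv : SpecWave) (hSg : SpecSigns) (hMs : SpecMass)
    (hOv : SpecOverlap) (hCp : SpecCompress) (hNt : SpecNet) (hSp : SpecSep)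
    (m : ℕ) (β : ℝ → ℝ) (hβ : IsCutoff β) (K₀ : ℝ) (hK₀ : 1 ≤ K₀)
    (hpk : ∀ (j : ℕ) (om x₀ x : Rd (m + 1)) (t : ℝ), ‖om‖ = 1 → 0 ≤ t → t ≤ 2 →
      ‖x - x₀ + t • om‖ ≤ K₀ * (2 : ℝ) ^ (-(j : ℝ) / 2) →
      1 / 2 ≤ ‖halfWave β j t
        (packet ((2 : ℝ) ^ (j : ℝ)) (K₀ * (2 : ℝ) ^ (-(j : ℝ) / 2)) om x₀) x‖)
    (vd : ℝ) (hvd : 0 < vd) (hvdv : ENNReal.ofReal vd = volume (Metric.ball (0 : Rd (m + 1)) 1))
    (N n M h G P Q H jj : ℕ)
    (hHP : H * P ≤ N) (hHQ : H = 2 * Q) (hQ : Q = n * G * P) (hN2 : 2 ≤ N) (hG1 : 1 ≤ G)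
    (hGN : 2 * G ≤ N)
    (hP1 : 1 ≤ P) (hPQ : P ≤ Q) (hn1 : 1 ≤ n) (hhM : h + M = 2 * n)
    (hPN : ∀ (b : Fin m → Fin n → Fin P), ∑ i, dv N (b i) ^ 2 ≤ 1)
    (hδ : (2 : ℝ) ^ (-(jj : ℝ)) = 1 / (N : ℝ) ^ (2 * n))
    (hρ : (2 : ℝ) ^ (-(jj : ℝ) / 2) = 1 / (N : ℝ) ^ n)
    (τ : ℝ) (hτ : τ = 1 + (H : ℝ) / N) (hτ1 : 1 < τ) (hτ2 : τ ≤ 2)
    (E' F : Set ℝ) (p q s C : ℝ) (hp : 1 ≤ p) (hq : 2 < q) (hC : 0 < C)
    (hE : times N M h G τ ⊆ E') (hE' : E' ⊆ Icc 1 2) (hF : IsNet E' ((2 : ℝ) ^ (-(jj : ℝ))) F)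
    (hI : IneqAt (m + 1) β jj F p q s C) :
    ((G : ℝ) ^ M / 2 *
        (((Q : ℝ) * P / N) ^ (n * m) * (vd * K₀ ^ (m + 1) / 8)) ^ (q / 2) *
        (((2 * Q : ℝ) / N) ^ (n * m) * (6 + 2 * K₀) ^ (m + 1) * 6 ^ m) ^ (1 - q / 2)) ^
          (1 / q) ≤
        C * (2 : ℝ) ^ ((jj : ℝ) * s) * ((P : ℝ) * (4 * K₀ + 2)) ^ (m + 1) *
          (1 + (8 * ((m : ℝ) + 1) + 4 * K₀) ^ (m + 1)) := by
  classical
  have hNpos : (0 : ℝ) < N := by exact_mod_cast (by omega : 0 < N)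
  have hNn : (0 : ℝ) < (N : ℝ) ^ n := by positivity
  have hNn1 : (1 : ℝ) ≤ (N : ℝ) ^ n := one_le_pow₀ (by exact_mod_cast (by omega : 1 ≤ N))
  have hQ1 : 1 ≤ Q := hP1.trans hPQ
  have hH1 : 2 * Q ≤ H := by omega
  have hHN : H ≤ N := by nlinarith
  have h2QN : 2 * Q ≤ N := by omega
  set δ : ℝ := (2 : ℝ) ^ (-(jj : ℝ)) with hδdef
  have hδpos : 0 < δ := by positivity
  set r : ℝ := K₀ * (2 : ℝ) ^ (-(jj : ℝ) / 2) with hr
  have hr' : r = K₀ / (N : ℝ) ^ n := by rw [hr, hρ]; ring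
  have hrpos : 0 < r := by rw [hr]; positivity
  have hrK : r ≤ K₀ := by
    rw [hr', div_le_iff₀ hNn]
    nlinarith
  have hr1 : 1 / (N : ℝ) ^ n ≤ r := by
    rw [hr']
    gcongr
  -- the finite set of times
  obtain ⟨F', hF'1, hF'2⟩ := hNt (Fin M → Fin G) inferInstance
    (fun e => τ - dv N e / (N : ℝ) ^ h) δ E' F hδpos
    (by
      intro e e' hne
      have := (hSp N M h G hN2 (by omega) e e').2.2 hne
      rw [hhM] at this
      have e2 : (τ - dv N e / (N : ℝ) ^ h) - (τ - dv N e' / (N : ℝ) ^ h) =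
        -(dv N e / (N : ℝ) ^ h - dv N e' / (N : ℝ) ^ h) := by ring
      simp only [e2, abs_neg]
      rw [hδ]
      exact this)
    (fun e => hE ⟨e, rfl⟩) hF
  have hF'E : ∀ t ∈ F', t ∈ Icc (1 : ℝ) 2 := fun t ht => hE' (hF.prop.1 (hF'1 t ht).1)
  -- the packets
  set ι := Idx m n Q P (N ^ n) with hι
  have hfex : ∀ T : ι, ∃ f : SchwartzMap (Rd (m + 1)) ℂ, ∀ x, f x =
      packet ((2 : ℝ) ^ (jj : ℝ)) r (dir N T) (pos N τ T) x := fun T =>
    hWv.1 (m + 1) _ r _ _ hrpos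
  choose fT hfT using hfex
  have hfT' : ∀ T : ι, (fT T : Rd (m + 1) → ℂ) =
      packet ((2 : ℝ) ^ (jj : ℝ)) r (dir N T) (pos N τ T) := fun T => funext (hfT T)
  set u : ℝ → ι → Rd (m + 1) → ℂ := fun t T => halfWave β jj t (fT T) with hu
  have hum : ∀ t T, Measurable (u t T) := fun t T =>
    (hWv.2.2 (m + 1) β hβ jj t (fT T)).measurable
  obtain ⟨ε, hε, hεs⟩ := hSg ι (Rd (m + 1)) inferInstance inferInstance volume F' u q hq.le hum
  -- the function
  set f : SchwartzMap (Rd (m + 1)) ℂ := ∑ T : ι, (ε T : ℂ) • fT T with hf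
  have hfx : ∀ x, f x = ∑ T : ι, (ε T : ℂ) * fT T x := by
    intro x
    rw [hf, sum_apply]
    rfl
  have hfx' : (f : Rd (m + 1) → ℂ) = fun x => ∑ T : ι, (ε T : ℂ) * fT T x := funext hfx
  have hwave : ∀ t x, halfWave β jj t f x = ∑ T : ι, (ε T : ℂ) * u t T x := by
    intro t x
    rw [hfx']
    exact hWv.2.1 (m + 1) β hβ jj t ι inferInstance (fun T => (ε T : ℂ)) fT x
  -- lower bound
  set b : ℝ := r ^ (m + 1) * vd with hb
  have hbpos : 0 < b := by positivity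
  set v : ℝ := (4 + 2 * r) * (6 * r * (2 * Q : ℝ) ^ n) ^ m with hv
  have hQpos : (0 : ℝ) < Q := by exact_mod_cast hQ1
  have hPpos : (0 : ℝ) < P := by exact_mod_cast hP1
  have hvpos : 0 < v := by positivity
  have hN0 : 0 < N ^ n := by positivity
  have hne : Nonempty ι := ⟨(fun _ _ => ⟨0, hQ1⟩, fun _ _ => ⟨0, hP1⟩, ⟨0, hN0⟩)⟩
  set X : ℝ := ((Fintype.card ι : ℝ) * b / 8) ^ (q / 2) * v ^ (1 - q / 2) with hX
  have hX0 : 0 ≤ X := by positivity
  have hlow : ∀ t ∈ F', ENNReal.ofReal X ≤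
      ∫⁻ x, (∑ T : ι, ‖u t T x‖ₑ ^ (2 : ℝ)) ^ (q / 2) := by
    intro t ht
    obtain ⟨e, he⟩ := (hF'1 t ht).2
    have ht12 := hF'E t ht
    obtain ⟨U, hUm, hUv, hUT⟩ := hCp m N n M h G P Q hn1 hN2 hG1 (by rw [hQ]) h2QN τ t r e hr1
      (by rw [abs_le]; constructor <;> linarith [ht12.1, ht12.2])
      (by rw [← hδ]; exact he.le)
    refine hMs ι (Rd (m + 1)) inferInstance hne inferInstance volume
      (fun T => Metric.closedBall (pos N τ T - t • dir N T) r) U b v q (u t) hbpos hvpos hq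
      (fun T => Metric.isClosed_closedBall.measurableSet) hUT hUm hUv ?_ (hum t) ?_
    · intro T
      rw [Measure.addHaar_closedBall _ _ hrpos.le, hb, ENNReal.ofReal_mul (by positivity), hvdv,
        finrank_euclideanSpace_fin]
    · intro T x hx
      have h1 := hpk jj (dir N T) (pos N τ T) x t (norm_dir N T (hPN T.2.1))
        (by linarith [ht12.1]) ht12.2 (by
          rw [Metric.mem_closedBall, dist_eq_norm] at hx
          have : x - pos N τ T + t • dir N T = x - (pos N τ T - t • dir N T) := by abel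
          rw [this]
          exact hx)
      simp only [hu]
      rw [hfT' T]
      exact h1
  have hsum : ENNReal.ofReal ((G : ℝ) ^ M / 2 * X) ≤
      ∑' t : F, eLpNorm (halfWave β jj t f) (ENNReal.ofReal q) volume ^ q := by
    calc ENNReal.ofReal ((G : ℝ) ^ M / 2 * X) ≤ ENNReal.ofReal ((F'.card : ℝ) * X) := by
          apply ENNReal.ofReal_le_ofReal
          apply mul_le_mul_of_nonneg_right _ hX0
          rw [Fintype.card_fun, Fintype.card_fin, Fintype.card_fin] at hF'2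
          have : ((G ^ M : ℕ) : ℝ) ≤ ((2 * F'.card : ℕ) : ℝ) := by exact_mod_cast hF'2
          push_cast at this
          linarith
      _ = ∑ t ∈ F', ENNReal.ofReal X := by
          rw [Finset.sum_const, nsmul_eq_mul, ENNReal.ofReal_mul (by positivity),
            ENNReal.ofReal_natCast]
      _ ≤ ∑ t ∈ F', ∫⁻ x, (∑ T : ι, ‖u t T x‖ₑ ^ (2 : ℝ)) ^ (q / 2) := Finset.sum_le_sum hlow
      _ ≤ ∑ t ∈ F', ∫⁻ x, ‖∑ T : ι, (ε T : ℂ) * u t T x‖ₑ ^ q := hεs
      _ = ∑ t ∈ F', eLpNorm (halfWave β jj t f) (ENNReal.ofReal q) volume ^ q := by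
          apply Finset.sum_congr rfl
          intro t _
          rw [eLpNorm_rpow _ q (by linarith)]
          simp only [hwave]
      _ ≤ ∑' t : F, eLpNorm (halfWave β jj t f) (ENNReal.ofReal q) volume ^ q :=
          tsum_ge F F' (fun x hx => (hF'1 x hx).1)
            (fun t => eLpNorm (halfWave β jj t f) (ENNReal.ofReal q) volume ^ q)
  -- upper bound
  set M₀ : ℝ := ((P : ℝ) * (4 * K₀ + 2)) ^ (m + 1) with hM₀
  set R : ℝ := 4 * ((m : ℝ) + 1) + 2 * K₀ with hR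
  have hRpos : 0 ≤ R := by positivity
  have hup : eLpNorm f (ENNReal.ofReal p) volume ≤
      ENNReal.ofReal (M₀ * (1 + (2 * R) ^ (m + 1))) := by
    apply eLpNorm_bound (f : Rd (m + 1) → ℂ) M₀ R p hRpos hp
    · intro x
      rw [hfx]
      apply norm_sum_le_card _ (fun T : ι => ‖x - pos N τ T‖ ≤ 2 * r)
      · intro T
        rw [norm_mul, hfT]
        have h1 : ‖(ε T : ℂ)‖ = 1 := by
          rcases hε T with h | h <;> simp [h]
        rw [h1, one_mul]
        exact norm_packet_le _ _ _ _ _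
      · intro T hT
        rw [hfT, packet_eq_zero _ _ hrpos _ _ _ (not_le.mp hT).le, mul_zero]
      · have h1 := hOv m N n P Q H (N ^ n) hn1 hP1 hPQ hH1 hHP x (2 * r) (by positivity)
        rw [← hτ] at h1
        refine h1.trans (le_of_eq ?_)
        rw [hM₀, hr']
        congr 2
        field_simp
        ring
    · intro x hx
      rw [hfx]
      apply Finset.sum_eq_zero
      intro T _
      rw [hfT, packet_eq_zero _ _ hrpos, mul_zero]
      have h1 := norm_pos_le N τ T hN2 (by omega) (by omega) hQ1 hP1 le_rfl (by linarith) hτ2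
      have h2 : ‖x‖ ≤ ‖x - pos N τ T‖ + ‖pos N τ T‖ := by
        simpa using norm_add_le (x - pos N τ T) (pos N τ T)
      have hm0 : (0 : ℝ) ≤ m := by positivity
      rw [hR] at hx
      linarith
  -- comparison
  have hfin := hI f
  have hCs : 0 ≤ C * (2 : ℝ) ^ ((jj : ℝ) * s) := by positivity
  have hfin2 : ENNReal.ofReal (((G : ℝ) ^ M / 2 * X) ^ (1 / q)) ≤
      ENNReal.ofReal (C * (2 : ℝ) ^ ((jj : ℝ) * s) * (M₀ * (1 + (2 * R) ^ (m + 1)))) := by
    calc ENNReal.ofReal (((G : ℝ) ^ M / 2 * X) ^ (1 / q)) =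
          ENNReal.ofReal ((G : ℝ) ^ M / 2 * X) ^ (1 / q) := by
          rw [ENNReal.ofReal_rpow_of_nonneg (by positivity) (by positivity)]
      _ ≤ (∑' t : F, eLpNorm (halfWave β jj t f) (ENNReal.ofReal q) volume ^ q) ^ (1 / q) :=
          ENNReal.rpow_le_rpow hsum (by positivity)
      _ ≤ ENNReal.ofReal (C * (2 : ℝ) ^ ((jj : ℝ) * s)) *
          eLpNorm f (ENNReal.ofReal p) volume := hfin
      _ ≤ ENNReal.ofReal (C * (2 : ℝ) ^ ((jj : ℝ) * s)) *
          ENNReal.ofReal (M₀ * (1 + (2 * R) ^ (m + 1))) := by gcongr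
      _ = _ := by rw [← ENNReal.ofReal_mul hCs]
  rw [ENNReal.ofReal_le_ofReal_iff (by positivity)] at hfin2
  have hcard0 : (Fintype.card ι : ℝ) = ((Q : ℝ) ^ n) ^ m * (((P : ℝ) ^ n) ^ m * (N : ℝ) ^ n) := by
    have : Fintype.card ι = (Q ^ n) ^ m * ((P ^ n) ^ m * N ^ n) := by
      simp [ι, Idx, Fintype.card_prod]
    rw [this]
    push_cast
    ring
  have hcard : (Fintype.card ι : ℝ) * b / 8 =
      ((Q : ℝ) * P / N) ^ (n * m) * (vd * K₀ ^ (m + 1) / 8) := by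
    rw [hcard0, hb, hr']
    exact card_aux Q P N K₀ vd n m hNpos
  have hvle : v ≤ ((2 * Q : ℝ) / N) ^ (n * m) * (6 + 2 * K₀) ^ (m + 1) * 6 ^ m := by
    have e0 : 6 * r * (2 * Q : ℝ) ^ n = 6 * K₀ * ((2 * Q : ℝ) / N) ^ n := by
      rw [hr', div_pow]
      ring
    have e1 : v = (4 + 2 * r) * K₀ ^ m * (((2 * Q : ℝ) / N) ^ (n * m) * 6 ^ m) := by
      rw [hv, e0, mul_pow, mul_pow, ← pow_mul]
      ring
    rw [e1]
    have e2 : (4 + 2 * r) * K₀ ^ m ≤ (6 + 2 * K₀) ^ (m + 1) := by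
      rw [pow_succ, mul_comm]
      apply mul_le_mul _ (by linarith) (by positivity) (by positivity)
      exact pow_le_pow_left₀ (by linarith) (by linarith) m
    calc (4 + 2 * r) * K₀ ^ m * (((2 * Q : ℝ) / N) ^ (n * m) * 6 ^ m)
        ≤ (6 + 2 * K₀) ^ (m + 1) * (((2 * Q : ℝ) / N) ^ (n * m) * 6 ^ m) := by gcongr
      _ = _ := by ring
  have hX' : (((Q : ℝ) * P / N) ^ (n * m) * (vd * K₀ ^ (m + 1) / 8)) ^ (q / 2) *
      (((2 * Q : ℝ) / N) ^ (n * m) * (6 + 2 * K₀) ^ (m + 1) * 6 ^ m) ^ (1 - q / 2) ≤ X := by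
    rw [hX, hcard]
    apply mul_le_mul_of_nonneg_left _ (by positivity)
    exact Real.rpow_le_rpow_of_nonpos hvpos hvle (by linarith)
  calc _ ≤ ((G : ℝ) ^ M / 2 * X) ^ (1 / q) := by
        apply Real.rpow_le_rpow (by positivity) _ (by positivity)
        rw [mul_assoc]
        exact mul_le_mul_of_nonneg_left hX' (by positivity)
    _ ≤ C * (2 : ℝ) ^ ((jj : ℝ) * s) * (M₀ * (1 + (2 * R) ^ (m + 1))) := hfin2
    _ = _ := by
        rw [hM₀, hR]
        ring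

theorem specLower (hPk : SpecPacket) (hWv : SpecWave) (hSg : SpecSigns) (hMs : SpecMass)
    (hOv : SpecOverlap) (hCp : SpecCompress) (hNt : SpecNet) (hSp : SpecSep)
    (hPm : SpecParam) : SpecLower := by
  intro m β hm hβ
  obtain ⟨K₀, hK₀, hpk⟩ := hPk (m + 1) β hβ
  have hb1 : 0 < volume (Metric.ball (0 : Rd (m + 1)) 1) := Metric.measure_ball_pos _ _ one_pos
  have hb2 : volume (Metric.ball (0 : Rd (m + 1)) 1) ≠ ⊤ := measure_ball_lt_top.ne
  set vd : ℝ := (volume (Metric.ball (0 : Rd (m + 1)) 1)).toReal with hvd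
  have hvd0 : 0 < vd := ENNReal.toReal_pos hb1.ne' hb2
  refine ⟨K₀, hK₀, vd * K₀ ^ (m + 1) / 8, by positivity, ?_⟩
  intro D w E' F p q s C hlw hmw hp hq hC hE hE' hF hI
  obtain ⟨hHP, hQN, hGN, hN2, hG1, hP1, hPQ, hn1, hhM, hE12, -, hτ1, hτ2, hδ, hρ, hj⟩ :=
    hPm D w hlw
  have hτ2' : D.τ w ≤ 2 := by
    have : (2 : ℝ) ^ (-(w : ℝ)) ≤ 1 := by
      apply Real.rpow_le_one_of_one_le_of_nonpos (by norm_num)
      have : (0 : ℝ) ≤ w := by positivity
      linarith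
    linarith
  have hPN : ∀ b : Fin m → Fin (D.n w) → Fin (D.P w), ∑ i, dv (D.N w) (b i) ^ 2 ≤ 1 := by
    intro b
    have hPle : D.P w ≤ D.N w := by
      have := hPQ
      omega
    have h1 : ((D.P w : ℕ) : ℝ) / (D.N w : ℕ) ≤ ((2 : ℝ) ^ w)⁻¹ := by
      unfold Par.P Par.N
      have e : D.p * w + w ≤ D.a * w := by
        have := D.ha
        nlinarith
      have e2 : (2 : ℝ) ^ (D.p * w) * 2 ^ w ≤ 2 ^ (D.a * w) := by
        rw [← pow_add]
        exact pow_le_pow_right₀ (by norm_num) e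
      push_cast
      rw [div_le_iff₀ (by positivity), inv_mul_eq_div, le_div_iff₀ (by positivity)]
      exact e2
    have h2 : ∀ i, dv (D.N w) (b i) ^ 2 ≤ ((4 : ℝ) ^ w)⁻¹ := by
      intro i
      have h3 := (dv_le (D.N w) (b i) hN2 hPle hP1).trans h1
      have h4 := dv_nonneg (D.N w) (b i)
      calc dv (D.N w) (b i) ^ 2 ≤ (((2 : ℝ) ^ w)⁻¹) ^ 2 := pow_le_pow_left₀ h4 h3 2
        _ = ((4 : ℝ) ^ w)⁻¹ := by
            rw [inv_pow, ← pow_mul, mul_comm w 2, pow_mul]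
            norm_num
    calc ∑ i, dv (D.N w) (b i) ^ 2 ≤ ∑ _i : Fin m, ((4 : ℝ) ^ w)⁻¹ :=
          Finset.sum_le_sum fun i _ => h2 i
      _ = m * ((4 : ℝ) ^ w)⁻¹ := by
          rw [Finset.sum_const, Finset.card_univ, Fintype.card_fin, nsmul_eq_mul]
      _ ≤ 1 := by
          rw [← div_eq_mul_inv, div_le_one (by positivity)]
          exact hmw
  exact core hWv hSg hMs hOv hCp hNt hSp m β hβ K₀ hK₀ hpk vd hvd0
    (by rw [hvd, ENNReal.ofReal_toReal hb2]) (D.N w) (D.n w) (D.M w) (Par.h w) (D.G w) (D.P w)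
    (D.Q w) (D.H w) (D.j w) hHP rfl rfl hN2 hG1 hGN hP1 hPQ hn1 hhM hPN hδ hρ (D.τ w) rfl hτ1
    hτ2' E' F p q s C hp hq hC hE hE' hF hI

end Pool.Agent.Lib.MP_c0f824_an.FT.LowerM
end

section
/-!
# MASS: a lower bound for the integral of a power

Hölder's inequality on `U` for `S = ∑ ‖u i‖²`: `∫_U S ≥ kb/4` and
`∫_U S ≤ (∫ S^{q/2})^{2/q} μ(U)^{1-2/q}`.
-/
open MeasureTheory Set
open scoped ENNReal

namespace Pool.Agent.Lib.MP_c0f824_an.FT.MassM

theorem specMass : SpecMass := by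
  intro ι X _ _ _ μ B U b v q u hb hv hq hB hBU hU hμU hbB hu hlow
  classical
  set p : ℝ := q / 2 with hpdef
  have hp1 : 1 < p := by rw [hpdef]; linarith
  have hp0 : 0 < p := by linarith
  set S : X → ℝ≥0∞ := fun x => ∑ i, ‖u i x‖ₑ ^ (2 : ℝ) with hSdef
  have hSm : Measurable S := by
    apply Finset.measurable_sum
    intro i _
    exact (hu i).enorm.pow_const _
  set k : ℕ := Fintype.card ι with hk
  have hk1 : 1 ≤ k := Fintype.card_pos
  -- lower bound of the integral over `U`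
  have hlow1 : ENNReal.ofReal ((k : ℝ) * b / 4) ≤ ∫⁻ x in U, S x ∂μ := by
    have h1 : ∫⁻ x in U, S x ∂μ = ∑ i, ∫⁻ x in U, ‖u i x‖ₑ ^ (2 : ℝ) ∂μ := by
      rw [hSdef]
      exact lintegral_finsetSum _ (fun i _ => (hu i).enorm.pow_const _)
    rw [h1]
    have h2 : ∀ i, ENNReal.ofReal (b / 4) ≤ ∫⁻ x in U, ‖u i x‖ₑ ^ (2 : ℝ) ∂μ := by
      intro i
      calc ENNReal.ofReal (b / 4) = ENNReal.ofReal (1 / 4) * ENNReal.ofReal b := by
            rw [← ENNReal.ofReal_mul (by norm_num)]; congr 1; ring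
        _ ≤ ENNReal.ofReal (1 / 4) * μ (B i) := by gcongr; exact hbB i
        _ = ∫⁻ _ in B i, ENNReal.ofReal (1 / 4) ∂μ := by
            rw [setLIntegral_const]
        _ ≤ ∫⁻ x in B i, ‖u i x‖ₑ ^ (2 : ℝ) ∂μ := by
            apply setLIntegral_mono' (hB i)
            intro x hx
            have h3 := hlow i x hx
            have h4 : (‖u i x‖ₑ : ℝ≥0∞) = ENNReal.ofReal ‖u i x‖ := (ofReal_norm _).symm
            rw [h4, ENNReal.ofReal_rpow_of_nonneg (norm_nonneg _) (by norm_num)]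
            apply ENNReal.ofReal_le_ofReal
            rw [Real.rpow_two]
            nlinarith
        _ ≤ ∫⁻ x in U, ‖u i x‖ₑ ^ (2 : ℝ) ∂μ := lintegral_mono_set (hBU i)
    calc ENNReal.ofReal ((k : ℝ) * b / 4) = ∑ _i : ι, ENNReal.ofReal (b / 4) := by
          rw [Finset.sum_const, Finset.card_univ, ← hk, nsmul_eq_mul,
            ← ENNReal.ofReal_natCast, ← ENNReal.ofReal_mul (by positivity)]
          congr 1; ring
      _ ≤ _ := Finset.sum_le_sum fun i _ => h2 i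
  -- Hölder
  have hconj : p.HolderConjugate (p / (p - 1)) := Real.HolderConjugate.conjExponent hp1
  have hH := ENNReal.lintegral_mul_le_Lp_mul_Lq (μ.restrict U) hconj (f := S)
    (g := fun _ => (1 : ℝ≥0∞)) hSm.aemeasurable aemeasurable_const
  have hH2 : ENNReal.ofReal ((k : ℝ) * b / 4) ≤
      (∫⁻ x, S x ^ p ∂μ) ^ (1 / p) * (ENNReal.ofReal v) ^ (1 / (p / (p - 1))) := by
    refine hlow1.trans ?_
    have e0 : ∫⁻ x in U, S x ∂μ = ∫⁻ x in U, (S * fun _ : X => (1 : ℝ≥0∞)) x ∂μ := by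
      apply lintegral_congr; intro x; simp
    rw [e0]
    refine hH.trans (mul_le_mul' ?_ ?_)
    · exact ENNReal.rpow_le_rpow (setLIntegral_le_lintegral _ _) (by positivity)
    · apply ENNReal.rpow_le_rpow
      · simpa using hμU
      · have : 0 < p / (p - 1) := div_pos hp0 (by linarith)
        positivity
  -- raise to the power `p`
  have hH3 : (ENNReal.ofReal ((k : ℝ) * b / 4)) ^ p ≤
      (∫⁻ x, S x ^ p ∂μ) * (ENNReal.ofReal v) ^ (p - 1) := by
    have h5 := ENNReal.rpow_le_rpow hH2 hp0.le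
    rw [ENNReal.mul_rpow_of_nonneg _ _ hp0.le, ← ENNReal.rpow_mul, ← ENNReal.rpow_mul] at h5
    have e1 : 1 / p * p = 1 := by field_simp
    have e2 : 1 / (p / (p - 1)) * p = p - 1 := by
      have : p - 1 ≠ 0 := by linarith
      field_simp
    rw [e1, e2, ENNReal.rpow_one] at h5
    exact h5
  have hv' : ENNReal.ofReal v ≠ 0 := by simpa using hv
  have hH4 : (ENNReal.ofReal ((k : ℝ) * b / 4)) ^ p * (ENNReal.ofReal v) ^ (1 - p) ≤
      ∫⁻ x, S x ^ p ∂μ := by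
    calc (ENNReal.ofReal ((k : ℝ) * b / 4)) ^ p * (ENNReal.ofReal v) ^ (1 - p)
        ≤ ((∫⁻ x, S x ^ p ∂μ) * (ENNReal.ofReal v) ^ (p - 1)) * (ENNReal.ofReal v) ^ (1 - p) := by
          gcongr
      _ = ∫⁻ x, S x ^ p ∂μ := by
          rw [mul_assoc, ← ENNReal.rpow_add _ _ hv' ENNReal.ofReal_ne_top]
          simp
  refine le_trans ?_ hH4
  rw [ENNReal.ofReal_rpow_of_nonneg (by positivity) hp0.le, ENNReal.ofReal_rpow_of_pos hv,
    ← ENNReal.ofReal_mul (by positivity)]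
  apply ENNReal.ofReal_le_ofReal
  have hkb : (0 : ℝ) < (k : ℝ) * b := by positivity
  gcongr ?_ * _
  apply Real.rpow_le_rpow (by positivity) _ hp0.le
  linarith

end Pool.Agent.Lib.MP_c0f824_an.FT.MassM
end

section
/-!
# NET: nets
-/
namespace Pool.Agent.Lib.MP_c0f824_an.FT.NetM

theorem specNet : SpecNet := by
  intro ι _ t δ E' F hδ hsep hE hF
  classical
  have hex : ∀ i, ∃ x ∈ F, |x - t i| < δ := by
    intro i
    by_contra hcon
    push Not at hcon
    have hFE := hF.prop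
    have hG : insert (t i) F ⊆ E' ∧ Sep δ (insert (t i) F) := by
      constructor
      · exact Set.insert_subset (hE i) hFE.1
      · intro s hs r hr hsr
        rcases Set.mem_insert_iff.mp hs with rfl | hs'
        · rcases Set.mem_insert_iff.mp hr with h | hr'
          · exact absurd h.symm hsr
          · rw [abs_sub_comm]; exact hcon r hr'
        · rcases Set.mem_insert_iff.mp hr with h | hr'
          · rw [h]; exact hcon s hs'
          · exact hFE.2 s hs' r hr' hsr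
    have hle : insert (t i) F ≤ F := hF.le_of_ge hG (Set.subset_insert _ _)
    have hmem : t i ∈ F := hle (Set.mem_insert _ _)
    have := hcon (t i) hmem
    simp at this
    linarith
  choose φ hφF hφ using hex
  refine ⟨Finset.univ.image φ, ?_, ?_⟩
  · intro x hx
    obtain ⟨i, -, rfl⟩ := Finset.mem_image.mp hx
    exact ⟨hφF i, i, hφ i⟩
  · have := Finset.card_le_mul_card_image (f := φ) (Finset.univ : Finset ι) 2 (by
      intro a _
      by_contra hcon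
      push Not at hcon
      obtain ⟨i, hi, j, hj, k, hk, hij, hik, hjk⟩ := Finset.two_lt_card.mp hcon
      have e1 := (Finset.mem_filter.mp hi).2
      have e2 := (Finset.mem_filter.mp hj).2
      have e3 := (Finset.mem_filter.mp hk).2
      have h1 := hφ i
      have h2 := hφ j
      have h3 := hφ k
      rw [e1] at h1
      rw [e2] at h2
      rw [e3] at h3
      rw [abs_lt] at h1 h2 h3
      rcases le_abs.mp (hsep i j hij) with g1 | g1 <;>
      rcases le_abs.mp (hsep i k hik) with g2 | g2 <;>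
      rcases le_abs.mp (hsep j k hjk) with g3 | g3 <;>
      linarith [h1.1, h1.2, h2.1, h2.2, h3.1, h3.2])
    simpa using this

end Pool.Agent.Lib.MP_c0f824_an.FT.NetM
end

section
/-!
# Kakeya compression at fractal times (MP_c0f824_an): the choice of the parameters
-/
open MeasureTheory Set
open scoped ENNReal ContDiff

namespace Pool.Agent.Lib.MP_c0f824_an.FT.NumM

open Par

/-! ### Logarithms of the parameters -/

theorem logb_two_pow (k : ℕ) : Real.logb 2 ((2 : ℝ) ^ k) = k := by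
  rw [Real.logb_pow, Real.logb_self_eq_one (by norm_num), mul_one]

variable (D : Par) (w : ℕ)

theorem castN : ((D.N w : ℕ) : ℝ) = (2 : ℝ) ^ (D.a * w) := by simp [Par.N]
theorem castG : ((D.G w : ℕ) : ℝ) = (2 : ℝ) ^ (D.g * w) := by simp [Par.G]
theorem castP : ((D.P w : ℕ) : ℝ) = (2 : ℝ) ^ (D.p * w) := by simp [Par.P]
theorem castn : ((D.n w : ℕ) : ℝ) = (2 : ℝ) ^ (w + D.l) := by simp [Par.n]
theorem castQ : ((D.Q w : ℕ) : ℝ) = (2 : ℝ) ^ (w + D.l + D.g * w + D.p * w) := by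
  simp only [Par.Q, Par.n, Par.G, Par.P, Nat.cast_mul, Nat.cast_pow, Nat.cast_ofNat]
  rw [← pow_add, ← pow_add]

theorem lN : Real.logb 2 (D.N w : ℝ) = D.a * w := by rw [castN, logb_two_pow]; push_cast; ring
theorem lG : Real.logb 2 (D.G w : ℝ) = D.g * w := by rw [castG, logb_two_pow]; push_cast; ring
theorem lP : Real.logb 2 (D.P w : ℝ) = D.p * w := by rw [castP, logb_two_pow]; push_cast; ring
theorem lQ : Real.logb 2 (D.Q w : ℝ) = w + D.l + D.g * w + D.p * w := by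
  rw [castQ, logb_two_pow]; push_cast; ring

theorem posN : (0 : ℝ) < D.N w := by rw [castN]; positivity
theorem posG : (0 : ℝ) < D.G w := by rw [castG]; positivity
theorem posP : (0 : ℝ) < D.P w := by rw [castP]; positivity
theorem posQ : (0 : ℝ) < D.Q w := by rw [castQ]; positivity

theorem castM : ((D.M w : ℕ) : ℝ) = (D.n w : ℝ) * (2 - (1 / 2) ^ D.l) := by
  have h1 : Par.h w ≤ 2 * D.n w := by
    simp only [Par.h, Par.n]
    calc 2 ^ w ≤ 2 ^ (w + D.l) := Nat.pow_le_pow_right (by norm_num) (by omega)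
      _ ≤ 2 * 2 ^ (w + D.l) := by omega
  have h2 : ((Par.h w : ℕ) : ℝ) = (D.n w : ℝ) * (1 / 2) ^ D.l := by
    rw [castn]
    simp only [Par.h, Nat.cast_pow, Nat.cast_ofNat]
    rw [pow_add, mul_assoc, ← mul_pow]
    norm_num
  rw [Par.M, Nat.cast_sub h1, h2]
  push_cast
  ring

theorem castj : ((D.j w : ℕ) : ℝ) = 2 * (D.n w : ℝ) * (D.a * w) := by
  simp only [Par.j]; push_cast; ring

/-- The logarithm of the `q`-th power of the left side. -/
noncomputable def lhs (m : ℕ) (q K₀ c₁ : ℝ) : ℝ :=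
  (D.n w : ℝ) * (2 - (1 / 2) ^ D.l) * (D.g * w) - 1 +
    (q / 2) * ((D.n w : ℝ) * m * ((w + D.l + D.g * w + D.p * w) + D.p * w - D.a * w) +
      Real.logb 2 c₁) +
    (1 - q / 2) * ((D.n w : ℝ) * m * (1 + (w + D.l + D.g * w + D.p * w) - D.a * w) +
      Real.logb 2 ((6 + 2 * K₀) ^ (m + 1) * 6 ^ m))

theorem logLHS (m : ℕ) (q K₀ c₁ : ℝ) (hK : 1 ≤ K₀) (hc : 0 < c₁) :
    Real.logb 2 ((D.G w : ℝ) ^ (D.M w) / 2 *
        (((D.Q w : ℝ) * D.P w / D.N w) ^ (D.n w * m) * c₁) ^ (q / 2) *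
        (((2 * D.Q w : ℝ) / D.N w) ^ (D.n w * m) * (6 + 2 * K₀) ^ (m + 1) * 6 ^ m) ^
          (1 - q / 2)) = lhs D w m q K₀ c₁ := by
  have pN := posN D w
  have pG := posG D w
  have pP := posP D w
  have pQ := posQ D w
  have h6 : (0 : ℝ) < 6 + 2 * K₀ := by linarith
  have e1 : (0 : ℝ) < (D.G w : ℝ) ^ (D.M w) / 2 := by positivity
  have e2 : (0 : ℝ) < ((D.Q w : ℝ) * D.P w / D.N w) ^ (D.n w * m) * c₁ := by positivity
  have e3 : (0 : ℝ) < ((2 * D.Q w : ℝ) / D.N w) ^ (D.n w * m) := by positivity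
  have e4 : (0 : ℝ) < (6 + 2 * K₀) ^ (m + 1) * 6 ^ m := by positivity
  rw [mul_assoc (((2 * D.Q w : ℝ) / D.N w) ^ (D.n w * m))]
  have e5 : (0 : ℝ) < ((2 * D.Q w : ℝ) / D.N w) ^ (D.n w * m) *
      ((6 + 2 * K₀) ^ (m + 1) * 6 ^ m) := by positivity
  rw [Real.logb_mul (by positivity) (by positivity), Real.logb_mul (by positivity) (by positivity),
    Real.logb_rpow_eq_mul_logb_of_pos e2, Real.logb_rpow_eq_mul_logb_of_pos e5,
    Real.logb_mul e3.ne' e4.ne', Real.logb_mul (by positivity) hc.ne',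
    Real.logb_div (by positivity) (by norm_num), Real.logb_pow, Real.logb_pow, Real.logb_pow,
    Real.logb_div (by positivity) pN.ne', Real.logb_div (by positivity) pN.ne',
    Real.logb_mul pQ.ne' pP.ne', Real.logb_mul (by norm_num) pQ.ne', lN, lG, lP, lQ,
    Real.logb_self_eq_one (by norm_num), castM, lhs]
  push_cast
  ring

/-- The logarithmic form of the inequality. -/
theorem key (m : ℕ) (q s K₀ c₁ C : ℝ) (hK : 1 ≤ K₀) (hc : 0 < c₁) (hC : 0 < C)
    (h : ((D.G w : ℝ) ^ (D.M w) / 2 *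
          (((D.Q w : ℝ) * D.P w / D.N w) ^ (D.n w * m) * c₁) ^ (q / 2) *
          (((2 * D.Q w : ℝ) / D.N w) ^ (D.n w * m) * (6 + 2 * K₀) ^ (m + 1) * 6 ^ m) ^
            (1 - q / 2)) ^ (1 / q) ≤
          C * (2 : ℝ) ^ ((D.j w : ℝ) * s) * ((D.P w : ℝ) * (4 * K₀ + 2)) ^ (m + 1) *
            (1 + (8 * ((m : ℝ) + 1) + 4 * K₀) ^ (m + 1))) :
    (1 / q) * lhs D w m q K₀ c₁ ≤ Real.logb 2 C + (D.j w : ℝ) * s +
      (m + 1) * (D.p * w + Real.logb 2 (4 * K₀ + 2)) +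
      Real.logb 2 (1 + (8 * ((m : ℝ) + 1) + 4 * K₀) ^ (m + 1)) := by
  have pN := posN D w
  have pG := posG D w
  have pP := posP D w
  have pQ := posQ D w
  have h6 : (0 : ℝ) < 6 + 2 * K₀ := by linarith
  have h7 : (0 : ℝ) < 4 * K₀ + 2 := by linarith
  have h8 : (0 : ℝ) < 1 + (8 * ((m : ℝ) + 1) + 4 * K₀) ^ (m + 1) := by positivity
  have e0 : (0 : ℝ) < (D.G w : ℝ) ^ (D.M w) / 2 *
          (((D.Q w : ℝ) * D.P w / D.N w) ^ (D.n w * m) * c₁) ^ (q / 2) *
          (((2 * D.Q w : ℝ) / D.N w) ^ (D.n w * m) * (6 + 2 * K₀) ^ (m + 1) * 6 ^ m) ^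
            (1 - q / 2) := by positivity
  have h2 := (Real.logb_le_logb (b := 2) (by norm_num) (Real.rpow_pos_of_pos e0 _)
    (by positivity)).mpr h
  rw [Real.logb_rpow_eq_mul_logb_of_pos e0, logLHS D w m q K₀ c₁ hK hc,
    Real.logb_mul (by positivity) h8.ne', Real.logb_mul (by positivity) (by positivity),
    Real.logb_mul hC.ne' (by positivity), Real.logb_rpow_eq_mul_logb_of_pos (by norm_num),
    Real.logb_self_eq_one (by norm_num), Real.logb_pow, Real.logb_mul pP.ne' h7.ne', lP] at h2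
  push_cast at h2
  linarith

/-- The main quantity. -/
noncomputable def S (m : ℕ) (q : ℝ) : ℝ :=
  D.g * (2 - (1 / 2) ^ D.l) + m * ((1 + D.g + 2 * D.p - D.a) + (q / 2 - 1) * D.p)

theorem lhs_eq (m : ℕ) (q K₀ c₁ : ℝ) :
    lhs D w m q K₀ c₁ = (D.n w : ℝ) * w * S D m q + (D.n w : ℝ) * (m * (D.l + 1 - q / 2)) +
      (-1 + (q / 2) * Real.logb 2 c₁ +
        (1 - q / 2) * Real.logb 2 ((6 + 2 * K₀) ^ (m + 1) * 6 ^ m)) := by
  rw [lhs, S]
  ring

/-- The choice of the parameters. -/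
theorem choose (m : ℕ) (α q s : ℝ) (h0 : 0 < α) (h1 : α < 1) (hq : 2 < q)
    (hs : s < sStar (m + 1) α q) :
    ∃ D : Par, (D.g : ℝ) ≤ α * D.a ∧ 2 * D.a * q * s < S D m q := by
  have hq0 : (0 : ℝ) < q := by linarith
  -- the gap
  set T : ℝ := α + m * (q / 2 - 1) * (1 - α) / 4 with hT
  have hgap : 0 < T - q * s := by
    have h3 : q * sStar (m + 1) α q = T := by
      rw [sStar, hT]
      push_cast
      field_simp
      ring
    have h4 : q * s < q * sStar (m + 1) α q := mul_lt_mul_of_pos_left hs hq0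
    linarith
  set e : ℝ := T - q * s with he
  set K : ℝ := 2 + 2 * m + 3 * m * (q / 2 - 1) / 2 with hK
  have hK0 : 0 < K := by
    have : (0 : ℝ) ≤ m := Nat.cast_nonneg m
    have h5 : 0 ≤ 3 * m * (q / 2 - 1) / 2 := by
      have : 0 ≤ q / 2 - 1 := by linarith
      positivity
    linarith
  obtain ⟨l, hl⟩ := exists_pow_lt_of_lt_one hgap (by norm_num : (1 / 2 : ℝ) < 1)
  obtain ⟨a, ha⟩ := exists_nat_gt (max (1 / α) (max (4 / (1 - α)) (K / e)))
  have ha1 : 1 / α < a := lt_of_le_of_lt (le_max_left _ _) ha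
  have ha2 : 4 / (1 - α) < a :=
    lt_of_le_of_lt (le_trans (le_max_left _ _) (le_max_right _ _)) ha
  have ha3 : K / e < a := lt_of_le_of_lt (le_trans (le_max_right _ _) (le_max_right _ _)) ha
  have h1a : 0 < 1 - α := by linarith
  have ha1' : 1 < α * a := by
    rw [div_lt_iff₀ h0] at ha1
    linarith
  have ha2' : 4 < (1 - α) * a := by
    rw [div_lt_iff₀ h1a] at ha2
    linarith
  have ha3' : K < e * a := by
    rw [div_lt_iff₀ hgap] at ha3
    linarith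
  set g : ℕ := ⌊α * a⌋₊ with hg
  have haa : (0 : ℝ) ≤ α * a := by linarith
  have hg1 : (g : ℝ) ≤ α * a := Nat.floor_le haa
  have hg2 : α * a < g + 1 := Nat.lt_floor_add_one _
  have hg3 : 1 ≤ g := by
    rw [hg, Nat.one_le_floor_iff]
    exact ha1'.le
  have hga : g + 4 ≤ a := by
    have : (g : ℝ) + 4 < a := by linarith
    have h6 : ((g + 4 : ℕ) : ℝ) < a := by push_cast; exact this
    exact (Nat.cast_lt.mp h6).le
  set p : ℕ := (a - g - 2) / 2 with hp
  have hp1 : 1 ≤ p := by omega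
  have hp2 : g + 2 * p + 2 ≤ a := by omega
  have hp3 : a ≤ g + 2 * p + 3 := by omega
  refine ⟨⟨a, g, p, l, hg3, hp1, hp2⟩, hg1, ?_⟩
  have hp3' : (a : ℝ) ≤ g + 2 * p + 3 := by exact_mod_cast hp3
  have hm : (0 : ℝ) ≤ m := Nat.cast_nonneg m
  have hl0 : (0 : ℝ) < (1 / 2) ^ l := by positivity
  have hq1 : 0 < q / 2 - 1 := by linarith
  -- lower bound of S
  have b1 : α * a * 2 - 2 - a * (1 / 2) ^ l ≤ g * (2 - (1 / 2) ^ l) := by
    have hl1 : (1 / 2 : ℝ) ^ l ≤ 1 := pow_le_one₀ (by norm_num) (by norm_num)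
    have hg4 : (g : ℝ) ≤ a := by
      have : g ≤ a := by omega
      exact_mod_cast this
    nlinarith
  have b2 : m * (-2 : ℝ) ≤ m * (1 + g + 2 * p - a) := by
    apply mul_le_mul_of_nonneg_left _ hm
    linarith
  have b3 : ((1 - α) * a - 3) / 2 ≤ p := by linarith
  have b4 : m * ((q / 2 - 1) * (((1 - α) * a - 3) / 2)) ≤ m * ((q / 2 - 1) * p) := by
    apply mul_le_mul_of_nonneg_left _ hm
    exact mul_le_mul_of_nonneg_left b3 hq1.le
  have b5 : (a : ℝ) * (1 / 2) ^ l ≤ a * e := by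
    apply mul_le_mul_of_nonneg_left hl.le (Nat.cast_nonneg a)
  simp only [S]
  have b6 : 2 * (a : ℝ) * T = 2 * α * a + m * ((q / 2 - 1) * (((1 - α) * a) / 2)) := by
    rw [hT]; ring
  have b7 : 2 * (a : ℝ) * q * s = 2 * a * T - 2 * a * e := by rw [he]; ring
  have b8 : m * ((q / 2 - 1) * (((1 - α) * a - 3) / 2)) =
      m * ((q / 2 - 1) * (((1 - α) * a) / 2)) - 3 * m * (q / 2 - 1) / 2 := by ring
  rw [b7, b6]
  rw [b8] at b4
  have b9 : (m : ℝ) * (1 + g + 2 * p - a + (q / 2 - 1) * p) =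
      m * (1 + g + 2 * p - a) + m * ((q / 2 - 1) * p) := by ring
  rw [b9]
  rw [hK] at ha3'
  linarith

theorem specNum : SpecNum := by
  intro m α q s hm h0 h1 hq hs
  obtain ⟨D, hg, hS⟩ := choose m α q s h0 h1 hq hs
  have hq0 : (0 : ℝ) < q := by linarith
  set γ : ℝ := S D m q - 2 * D.a * q * s with hγ
  have hγ0 : 0 < γ := by linarith
  have ha0 : 0 < D.a := by
    have := D.ha
    omega
  have ha1 : (0 : ℝ) < D.a := by exact_mod_cast ha0
  refine ⟨D, γ / (4 * D.a * q), by positivity, hg, ?_⟩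
  intro K₀ c₁ hK hc
  -- the constants
  set R1 : ℝ := m * (D.l + 1 - q / 2) with hR1
  set R2 : ℝ := -1 + (q / 2) * Real.logb 2 c₁ +
        (1 - q / 2) * Real.logb 2 ((6 + 2 * K₀) ^ (m + 1) * 6 ^ m) with hR2
  set R3 : ℝ := (m + 1) * Real.logb 2 (4 * K₀ + 2) +
      Real.logb 2 (1 + (8 * ((m : ℝ) + 1) + 4 * K₀) ^ (m + 1)) with hR3
  set B : ℝ := (|R1| + |R2|) / q + (m + 1) * D.p + |R3| with hB
  obtain ⟨w₁, hw₁⟩ := exists_nat_gt (2 * q * B / γ)
  refine ⟨w₁, ?_⟩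
  intro w hw C hC h
  have hk := key D w m q s K₀ c₁ C hK hc hC h
  rw [lhs_eq, ← hR1, ← hR2, castj] at hk
  have hn1 : (w : ℝ) ≤ D.n w := by
    rw [castn]
    have : w < 2 ^ (w + D.l) := lt_of_le_of_lt (by omega : w ≤ w + D.l) Nat.lt_two_pow_self
    exact_mod_cast this.le
  have hn2 : (1 : ℝ) ≤ D.n w := by
    rw [castn]
    exact one_le_pow₀ (by norm_num)
  have hw2 : 2 * q * B / γ < w := lt_of_lt_of_le hw₁ (by exact_mod_cast hw)
  have hw3 : 2 * q * B < w * γ := by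
    rw [div_lt_iff₀ hγ0] at hw2
    exact hw2
  rw [← Real.le_logb_iff_rpow_le (by norm_num) hC, castj]
  set n : ℝ := (D.n w : ℝ) with hn
  -- bounds
  have c1 : (1 / q) * (n * w * S D m q + n * R1 + R2) =
      n * w * S D m q / q + n * R1 / q + R2 / q := by ring
  rw [c1] at hk
  have c2 : n * w * S D m q / q = 2 * n * (D.a * w) * s + n * w * γ / q := by
    rw [hγ]
    field_simp
    ring
  rw [c2] at hk
  have c3 : -(n * (|R1| / q)) ≤ n * R1 / q := by
    rw [mul_div_assoc, ← mul_neg]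
    apply mul_le_mul_of_nonneg_left _ (by linarith)
    rw [← neg_div]
    exact div_le_div_of_nonneg_right (neg_abs_le R1) hq0.le
  have c4 : -(n * (|R2| / q)) ≤ R2 / q := by
    have h5 : -(|R2| / q) ≤ R2 / q := by
      rw [← neg_div]
      exact div_le_div_of_nonneg_right (neg_abs_le R2) hq0.le
    have h6 : |R2| / q ≤ n * (|R2| / q) := by
      have : 0 ≤ |R2| / q := by positivity
      nlinarith
    linarith
  have c5 : ((m : ℝ) + 1) * (D.p * w) ≤ n * ((m + 1) * D.p) := by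
    have : (0 : ℝ) ≤ (m + 1) * D.p := by positivity
    nlinarith
  have c6 : R3 ≤ n * |R3| := by
    have := le_abs_self R3
    have h7 := abs_nonneg R3
    nlinarith
  have c7 : n * B = n * (|R1| / q) + n * (|R2| / q) + n * ((m + 1) * D.p) + n * |R3| := by
    rw [hB]; ring
  have c8 : n * B ≤ n * (w * γ / (2 * q)) := by
    apply mul_le_mul_of_nonneg_left _ (by linarith)
    rw [le_div_iff₀ (by positivity)]
    linarith
  have c9 : γ / (4 * D.a * q) * (2 * n * (D.a * w)) = n * (w * γ / (2 * q)) := by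
    field_simp
    ring
  have c10 : n * w * γ / q = n * (w * γ / (2 * q)) + n * (w * γ / (2 * q)) := by
    field_simp
    ring
  rw [c9]
  rw [c10] at hk
  have c11 : ((m : ℝ) + 1) * (D.p * w + Real.logb 2 (4 * K₀ + 2)) +
      Real.logb 2 (1 + (8 * ((m : ℝ) + 1) + 4 * K₀) ^ (m + 1)) =
      (m + 1) * (D.p * w) + R3 := by
    rw [hR3]; ring
  linarith

end Pool.Agent.Lib.MP_c0f824_an.FT.NumM
end

section
/-!
# Few overlaps at time `0` (in `ℝ^d`)
-/
open Set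

namespace Pool.Agent.Lib.MP_c0f824_an.FT.OverlapM

theorem abs_coord_le {d : ℕ} (v : Rd d) (i : Fin d) : |v i| ≤ ‖v‖ := by
  have h := PiLp.norm_apply_le v i
  rwa [Real.norm_eq_abs] at h

/-- The number of `k` with `|k/N^n - c| ≤ R`. -/
theorem card_k (L : ℕ) (A c R : ℝ) (hA : 0 < A) (hR : 0 ≤ R) (s : Finset (Fin L))
    (hs : ∀ k ∈ s, |((k : ℕ) : ℝ) / A - c| ≤ R) : (s.card : ℝ) ≤ 2 * R * A + 1 := by
  have h1 : s.card ≤ (Finset.Icc ⌈A * (c - R)⌉ ⌊A * (c + R)⌋).card := by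
    refine Finset.card_le_card_of_injOn (fun k => (((k : ℕ)) : ℤ)) ?_ ?_
    · intro k hk
      have h := hs k hk
      rw [abs_le] at h
      simp only [Finset.mem_coe, Finset.mem_Icc, Int.ceil_le, Int.le_floor, Int.cast_natCast]
      have e : A * (((k : ℕ) : ℝ) / A) = ((k : ℕ) : ℝ) := by field_simp
      have h2 := mul_le_mul_of_nonneg_left h.1 hA.le
      have h3 := mul_le_mul_of_nonneg_left h.2 hA.le
      constructor <;> linarith
    · intro k _ k' _ h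
      simp only [Nat.cast_inj] at h
      exact Fin.ext h
  have h2 : (((Finset.Icc ⌈A * (c - R)⌉ ⌊A * (c + R)⌋).card : ℕ) : ℝ) ≤ 2 * R * A + 1 := by
    rw [Int.card_Icc]
    have h6 : (((⌊A * (c + R)⌋ + 1 - ⌈A * (c - R)⌉) : ℤ) : ℝ) ≤ 2 * R * A + 1 := by
      push_cast
      have h7 := Int.floor_le (A * (c + R))
      have h8 := Int.le_ceil (A * (c - R))
      linarith
    have h9 : (0 : ℝ) ≤ 2 * R * A + 1 := by positivity
    rcases le_total 0 (⌊A * (c + R)⌋ + 1 - ⌈A * (c - R)⌉) with h | h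
    · have h10 := Int.toNat_of_nonneg h
      have h11 : ((((⌊A * (c + R)⌋ + 1 - ⌈A * (c - R)⌉).toNat : ℕ) : ℤ) : ℝ) =
          (((⌊A * (c + R)⌋ + 1 - ⌈A * (c - R)⌉) : ℤ) : ℝ) := by rw [h10]
      rw [Int.cast_natCast] at h11
      rw [h11]
      exact h6
    · rw [Int.toNat_of_nonpos h]
      simpa using h9
  calc (s.card : ℝ) ≤ (((Finset.Icc ⌈A * (c - R)⌉ ⌊A * (c + R)⌋).card : ℕ) : ℝ) := by
        exact_mod_cast h1
    _ ≤ _ := h2

theorem specOverlap (h : SpecZero) : SpecOverlap := by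
  intro m N n P Q H L hn hP hPQ hQH hHP x R hR
  classical
  have hH2 : 2 ≤ H := by omega
  have hN2 : 2 ≤ N := by nlinarith
  have hNn : (0 : ℝ) < (N : ℝ) ^ n := by positivity
  set τ : ℝ := 1 + (H : ℝ) / N with hτ
  rw [Nat.card_eq_fintype_card, Fintype.card_subtype]
  set s : Finset (Idx m n Q P L) := Finset.univ.filter fun T => ‖x - pos N τ T‖ ≤ R with hs
  let f : Idx m n Q P L → (Fin m → (Fin n → Fin Q) × (Fin n → Fin P)) :=
    fun T i => (T.1 i, T.2.1 i)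
  let A : Fin m → Finset ((Fin n → Fin Q) × (Fin n → Fin P)) := fun i =>
    Finset.univ.filter fun yb => |dv N yb.1 + (1 + (H : ℝ) / N) * dv N yb.2 - x i.succ| ≤ R
  set B : ℝ := (P : ℝ) * (2 * R * (N : ℝ) ^ n + 2) with hB
  have hA : ∀ i, ((A i).card : ℝ) ≤ B := by
    intro i
    have h1 := h N n P Q H hn hP hPQ hQH hHP (x i.succ) R hR
    rw [Nat.card_eq_fintype_card, Fintype.card_subtype] at h1
    exact h1
  have hcoord : ∀ T ∈ s, (∀ i : Fin m,
      |dv N (T.1 i) + (1 + (H : ℝ) / N) * dv N (T.2.1 i) - x i.succ| ≤ R) ∧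
      |((T.2.2 : ℕ) : ℝ) / (N : ℝ) ^ n - (x 0 - τ * hgt fun i => dv N (T.2.1 i))| ≤ R := by
    intro T hT
    rw [hs, Finset.mem_filter] at hT
    constructor
    · intro i
      have h2 := (abs_coord_le (x - pos N τ T) i.succ).trans hT.2
      have h3 : (x - pos N τ T) i.succ =
          x i.succ - (dv N (T.1 i) + τ * dv N (T.2.1 i)) := by
        simp [pos, vec]
      rw [h3, abs_sub_comm] at h2
      exact h2
    · have h2 := (abs_coord_le (x - pos N τ T) 0).trans hT.2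
      have h3 : (x - pos N τ T) 0 =
          x 0 - (((T.2.2 : ℕ) : ℝ) / (N : ℝ) ^ n + τ * hgt fun i => dv N (T.2.1 i)) := by
        simp [pos, vec]
      rw [h3, abs_sub_comm] at h2
      rw [show ((T.2.2 : ℕ) : ℝ) / (N : ℝ) ^ n - (x 0 - τ * hgt fun i => dv N (T.2.1 i)) =
        ((T.2.2 : ℕ) : ℝ) / (N : ℝ) ^ n + τ * (hgt fun i => dv N (T.2.1 i)) - x 0 by ring]
      exact h2
  have himg : (s.image f).card ≤ (Fintype.piFinset A).card := by
    refine Finset.card_le_card ?_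
    intro g hg
    rw [Finset.mem_image] at hg
    obtain ⟨T, hT, rfl⟩ := hg
    rw [Fintype.mem_piFinset]
    intro i
    exact Finset.mem_filter.2 ⟨Finset.mem_univ _, (hcoord T hT).1 i⟩
  have himg' : ((s.image f).card : ℝ) ≤ B ^ m := by
    calc ((s.image f).card : ℝ) ≤ ((Fintype.piFinset A).card : ℝ) := by exact_mod_cast himg
      _ = ∏ i, ((A i).card : ℝ) := by rw [Fintype.card_piFinset]; push_cast; rfl
      _ ≤ ∏ _i : Fin m, B :=
          Finset.prod_le_prod (fun i _ => by positivity) (fun i _ => hA i)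
      _ = B ^ m := by simp
  have hfib : ∀ g ∈ s.image f, (s.filter fun T => f T = g).card ≤
      ⌊2 * R * (N : ℝ) ^ n + 1⌋₊ := by
    intro g _
    refine Nat.le_floor ?_
    have h4 : (s.filter fun T => f T = g).card =
        ((s.filter fun T => f T = g).image fun T => T.2.2).card := by
      rw [Finset.card_image_of_injOn]
      intro T hT T' hT' hk
      simp only [Finset.coe_filter, mem_ofPred_eq] at hT hT'
      have h5 : f T = f T' := by rw [hT.2, hT'.2]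
      have h6 : ∀ i, (T.1 i, T.2.1 i) = (T'.1 i, T'.2.1 i) := fun i => congrFun h5 i
      refine Prod.ext ?_ (Prod.ext ?_ hk)
      · funext i
        exact (Prod.mk.inj (h6 i)).1
      · funext i
        exact (Prod.mk.inj (h6 i)).2
    rw [h4]
    refine card_k L ((N : ℝ) ^ n) (x 0 - τ * hgt fun i => dv N (g i).2) R hNn hR _ ?_
    intro k hk
    rw [Finset.mem_image] at hk
    obtain ⟨T, hT, rfl⟩ := hk
    rw [Finset.mem_filter] at hT
    have h7 := (hcoord T hT.1).2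
    have h8 : (fun i => dv N (g i).2) = fun i => dv N (T.2.1 i) := by
      rw [← hT.2]
    rw [h8]
    exact h7
  have hmul := Finset.card_le_mul_card_image s ⌊2 * R * (N : ℝ) ^ n + 1⌋₊ hfib
  have h0 : (0 : ℝ) ≤ 2 * R * (N : ℝ) ^ n + 1 := by positivity
  have hfl : ((⌊2 * R * (N : ℝ) ^ n + 1⌋₊ : ℕ) : ℝ) ≤ B := by
    refine (Nat.floor_le h0).trans ?_
    have hP1 : (1 : ℝ) ≤ P := by exact_mod_cast hP
    rw [hB]
    nlinarith [mul_nonneg hR hNn.le]
  have hB0 : 0 ≤ B := by positivity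
  calc (s.card : ℝ) ≤ ((⌊2 * R * (N : ℝ) ^ n + 1⌋₊ * (s.image f).card : ℕ) : ℝ) := by
        exact_mod_cast hmul
    _ = ((⌊2 * R * (N : ℝ) ^ n + 1⌋₊ : ℕ) : ℝ) * ((s.image f).card : ℝ) := by push_cast; rfl
    _ ≤ B * B ^ m := mul_le_mul hfl himg' (by positivity) hB0
    _ = B ^ (m + 1) := by ring

end Pool.Agent.Lib.MP_c0f824_an.FT.OverlapM
end

section
open MeasureTheory Set
open scoped ENNReal FourierTransform RealInnerProductSpace

namespace Pool.Agent.Lib.MP_c0f824_an.FT.PacketM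

variable {d : ℕ}

theorem beta_one {β : ℝ → ℝ} (hβ : IsCutoff β) : β 1 = 1 := by
  have h := hβ.sum 1 one_pos
  have h1 : HasSum (fun k : ℤ => β ((2 : ℝ) ^ (-k) * 1)) (β ((2 : ℝ) ^ (-(0 : ℤ)) * 1)) := by
    apply hasSum_single
    intro k hk
    apply image_eq_zero_of_notMem_tsupport
    intro hmem
    have h2 := hβ.supp hmem
    rw [mul_one] at h2
    have h4 : (2 : ℝ)⁻¹ = 1 / 2 := by norm_num
    rcases lt_or_gt_of_ne hk with hk' | hk'
    · have h3 : (2 : ℝ) ^ (1 : ℤ) ≤ 2 ^ (-k) := zpow_le_zpow_right₀ (by norm_num) (by omega)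
      rw [zpow_one] at h3
      linarith [h2.2]
    · have h3 : (2 : ℝ) ^ (-k) ≤ 2 ^ (-1 : ℤ) := zpow_le_zpow_right₀ (by norm_num) (by omega)
      rw [zpow_neg_one, h4] at h3
      linarith [h2.1]
  have h2 := h.unique h1
  simpa using h2.symm

theorem beta_bound {β : ℝ → ℝ} (hβ : IsCutoff β) : ∃ B : ℝ, 0 ≤ B ∧ ∀ x, |β x| ≤ B := by
  obtain ⟨B, hB⟩ := hβ.compact.exists_bound_of_continuous hβ.smooth.continuous
  exact ⟨max B 0, le_max_right _ _, fun x => (hB x).trans (le_max_left _ _)⟩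

theorem beta_lip {β : ℝ → ℝ} (hβ : IsCutoff β) : ∃ M : ℝ, 0 ≤ M ∧ ∀ x y, |β x - β y| ≤ M * |x - y| := by
  obtain ⟨C, hC⟩ := ContDiff.lipschitzWith_of_hasCompactSupport hβ.compact hβ.smooth (by simp)
  refine ⟨C, C.2, fun x y => ?_⟩
  have := hC.dist_le_mul x y
  simpa [Real.dist_eq] using this

/-- The bump as a Schwartz function. -/
noncomputable def chi (d : ℕ) : SchwartzMap (Rd d) ℂ :=
  HasCompactSupport.toSchwartzMap (f := fun x : Rd d => ((bump d x : ℝ) : ℂ))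
    ((bump d).hasCompactSupport.comp_left (g := fun y : ℝ => (y : ℂ)) (by simp))
    (Complex.ofRealCLM.contDiff.comp (bump d).contDiff)

theorem chi_apply (x : Rd d) : chi d x = ((bump d x : ℝ) : ℂ) := rfl

/-- Fourier transform of the bump in the normalisation of the problem. -/
noncomputable def X (d : ℕ) (η : Rd d) : ℂ := (𝓕 (chi d) : SchwartzMap (Rd d) ℂ) ((2 * Real.pi)⁻¹ • η)

theorem X_eq (η : Rd d) : X d η = ∫ y : Rd d, Complex.exp (-(Complex.I * ((inner ℝ y η : ℝ) : ℂ))) *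
    ((bump d y : ℝ) : ℂ) := by
  unfold X
  rw [SchwartzMap.fourier_coe, Real.fourier_eq']
  refine integral_congr_ae (Filter.Eventually.of_forall fun y => ?_)
  simp only [smul_eq_mul, chi_apply]
  congr 2
  rw [real_inner_smul_right]
  push_cast
  have : (Real.pi : ℂ) ≠ 0 := by exact_mod_cast Real.pi_ne_zero
  field_simp

theorem X_cont : Continuous (X d) := by
  unfold X
  exact (SchwartzMap.continuous _).comp (continuous_const_smul _)

theorem X_weight (k : ℕ) : Integrable (fun η : Rd d => ‖η‖ ^ k * ‖X d η‖) := by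
  have h := (𝓕 (chi d) : SchwartzMap (Rd d) ℂ).integrable_pow_mul volume k
  have h2 : Integrable (fun η : Rd d => ‖(2 * Real.pi)⁻¹ • η‖ ^ k *
      ‖(𝓕 (chi d) : SchwartzMap (Rd d) ℂ) ((2 * Real.pi)⁻¹ • η)‖) :=
    h.comp_smul (inv_ne_zero (by positivity))
  have h3 := h2.const_mul ((2 * Real.pi) ^ k)
  refine h3.congr (Filter.Eventually.of_forall fun η => ?_)
  simp only [X]
  have e1 : ‖(2 * Real.pi)⁻¹ • η‖ ^ k = ((2 * Real.pi) ^ k)⁻¹ * ‖η‖ ^ k := by
    rw [norm_smul, mul_pow, norm_inv, Real.norm_eq_abs, abs_of_pos (by positivity : (0 : ℝ) < 2 * Real.pi),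
      inv_pow]
  rw [e1, mul_assoc, ← mul_assoc, mul_inv_cancel₀ (by positivity), one_mul]

/-- Fourier inversion for the bump. -/
theorem inversion (v : Rd d) : (((2 * Real.pi) ^ d : ℝ) : ℂ)⁻¹ *
    ∫ η : Rd d, Complex.exp (Complex.I * ((inner ℝ v η : ℝ) : ℂ)) * X d η = ((bump d v : ℝ) : ℂ) := by
  have h1 := Measure.integral_comp_smul (volume : Measure (Rd d))
    (fun η : Rd d => Complex.exp (Complex.I * ((inner ℝ v η : ℝ) : ℂ)) * X d η) (2 * Real.pi)
  have hpi : (0 : ℝ) < 2 * Real.pi := by positivity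
  have hdim : Module.finrank ℝ (Rd d) = d := by simp
  rw [hdim, abs_of_pos (by positivity)] at h1
  have h2 : ∫ η : Rd d, Complex.exp (Complex.I * ((inner ℝ v ((2 * Real.pi) • η) : ℝ) : ℂ)) *
      X d ((2 * Real.pi) • η) = 𝓕⁻ (𝓕 (chi d) : SchwartzMap (Rd d) ℂ) v := by
    rw [SchwartzMap.fourierInv_coe, Real.fourierInv_eq']
    refine integral_congr_ae (Filter.Eventually.of_forall fun η => ?_)
    simp only [smul_eq_mul, X]
    rw [smul_smul, inv_mul_cancel₀ hpi.ne', one_smul]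
    congr 2
    rw [real_inner_smul_right, real_inner_comm]
    push_cast
    ring
  rw [FourierTransform.fourierInv_fourier_eq] at h2
  rw [h2, chi_apply] at h1
  rw [h1, Complex.real_smul]
  push_cast
  rfl

/-- The Fourier transform of a packet. -/
theorem ft_packet {lam r : ℝ} (hr : 0 < r) (om x₀ ξ : Rd d) :
    ft (packet lam r om x₀) ξ = ((r ^ d : ℝ) : ℂ) *
      Complex.exp (-(Complex.I * ((inner ℝ x₀ ξ : ℝ) : ℂ))) * X d (r • (ξ - lam • om)) := by
  unfold ft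
  set h : Rd d → ℂ := fun x => Complex.exp (-(Complex.I * ((inner ℝ x ξ : ℝ) : ℂ))) * packet lam r om x₀ x
  have h1 : ∫ x, h x = ∫ x, h (x₀ + x) := (integral_add_left_eq_self h x₀).symm
  have h2 := Measure.integral_comp_smul (volume : Measure (Rd d)) (fun x => h (x₀ + x)) r
  have hdim : Module.finrank ℝ (Rd d) = d := by simp
  rw [hdim, abs_of_pos (by positivity)] at h2
  have h3 : ∫ x, h (x₀ + x) = (r ^ d : ℝ) • ∫ x, h (x₀ + r • x) := by
    rw [h2, smul_smul, mul_inv_cancel₀ (by positivity), one_smul]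
  rw [h1, h3, X_eq, Complex.real_smul, mul_assoc]
  congr 1
  rw [← integral_const_mul]
  refine integral_congr_ae (Filter.Eventually.of_forall fun y => ?_)
  simp only [h, packet]
  have e1 : r⁻¹ • (x₀ + r • y - x₀) = y := by
    rw [add_sub_cancel_left, smul_smul, inv_mul_cancel₀ hr.ne', one_smul]
  rw [e1]
  have e2 : Complex.exp (-(Complex.I * ((inner ℝ (x₀ + r • y) ξ : ℝ) : ℂ))) *
      Complex.exp (Complex.I * ((lam * inner ℝ om (x₀ + r • y - x₀) : ℝ) : ℂ)) =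
      Complex.exp (-(Complex.I * ((inner ℝ x₀ ξ : ℝ) : ℂ))) *
      Complex.exp (-(Complex.I * ((inner ℝ y (r • (ξ - lam • om)) : ℝ) : ℂ))) := by
    rw [← Complex.exp_add, ← Complex.exp_add]
    congr 1
    rw [add_sub_cancel_left, inner_add_left, real_inner_smul_left, real_inner_smul_right,
      real_inner_smul_right, inner_sub_right, real_inner_smul_right, real_inner_comm om y]
    push_cast
    ring
  calc _ = (Complex.exp (-(Complex.I * ((inner ℝ (x₀ + r • y) ξ : ℝ) : ℂ))) *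
      Complex.exp (Complex.I * ((lam * inner ℝ om (x₀ + r • y - x₀) : ℝ) : ℂ))) * ((bump d y : ℝ) : ℂ) := by
        ring
    _ = _ := by rw [e2]; ring

/-- The phase error. -/
theorem psi_bound {lam : ℝ} (hl : 0 < lam) {om w : Rd d} (hom : ‖om‖ = 1) :
    0 ≤ ‖lam • om + w‖ - lam - inner ℝ om w ∧
      ‖lam • om + w‖ - lam - inner ℝ om w ≤ ‖w‖ ^ 2 / lam := by
  have hoo : inner ℝ om om = (1 : ℝ) := by rw [real_inner_self_eq_norm_sq, hom]; norm_num
  constructor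
  · have h1 := real_inner_le_norm om (lam • om + w)
    rw [inner_add_right, real_inner_smul_right, hoo, hom] at h1
    linarith
  · set a : ℝ := inner ℝ om w with ha
    have haw : |a| ≤ ‖w‖ := by
      have := abs_real_inner_le_norm om w
      rwa [hom, one_mul] at this
    have h2 : ‖lam • om + w‖ ^ 2 = lam ^ 2 + 2 * lam * a + ‖w‖ ^ 2 := by
      rw [norm_add_sq_real, norm_smul, hom, real_inner_smul_left, Real.norm_eq_abs, abs_of_pos hl]
      ring
    have hb : ‖w‖ ^ 2 / lam * lam = ‖w‖ ^ 2 := by field_simp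
    have hU : 0 ≤ lam + a + ‖w‖ ^ 2 / lam := by
      have h3 : 0 ≤ (lam + a + ‖w‖ ^ 2 / lam) * lam := by
        have h4 : (lam + a + ‖w‖ ^ 2 / lam) * lam = lam ^ 2 + a * lam + ‖w‖ ^ 2 := by
          rw [add_mul, hb]; ring
        rw [h4]
        have := neg_abs_le a
        nlinarith [sq_nonneg (lam - ‖w‖), norm_nonneg w, mul_nonneg hl.le (norm_nonneg w)]
      exact nonneg_of_mul_nonneg_left h3 hl
    have h5 : ‖lam • om + w‖ ≤ lam + a + ‖w‖ ^ 2 / lam := by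
      apply le_of_sq_le_sq _ hU
      rw [h2]
      have : (lam + a + ‖w‖ ^ 2 / lam) ^ 2 = lam ^ 2 + 2 * lam * a + 2 * (‖w‖ ^ 2 / lam * lam) +
          (a + ‖w‖ ^ 2 / lam) ^ 2 := by ring
      rw [this, hb]
      nlinarith [sq_nonneg (a + ‖w‖ ^ 2 / lam), sq_nonneg ‖w‖]
    linarith

/-- The half wave of a packet. -/
theorem halfWave_packet (β : ℝ → ℝ) (j : ℕ) (t : ℝ) {r : ℝ} (hr : 0 < r) (lam : ℝ) (om x₀ x : Rd d) :
    halfWave β j t (packet lam r om x₀) x =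
      Complex.exp (Complex.I * ((lam * (inner ℝ (x - x₀) om + t) : ℝ) : ℂ)) *
      ((((2 * Real.pi) ^ d : ℝ) : ℂ)⁻¹ *
      ∫ η : Rd d, Complex.exp (Complex.I * ((inner ℝ (r⁻¹ • (x - x₀ + t • om)) η : ℝ) : ℂ)) *
        ((Complex.exp (Complex.I * ((t * (‖lam • om + r⁻¹ • η‖ - lam - inner ℝ om (r⁻¹ • η)) : ℝ) : ℂ)) *
          ((β ((2 : ℝ) ^ (-(j : ℝ)) * ‖lam • om + r⁻¹ • η‖) : ℝ) : ℂ)) * X d η)) := by
  unfold halfWave
  rw [mul_left_comm]
  congr 1
  set G : Rd d → ℂ := fun ξ => Complex.exp (Complex.I * ((inner ℝ x ξ : ℝ) : ℂ)) *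
      Complex.exp (Complex.I * ((t * ‖ξ‖ : ℝ) : ℂ)) *
      ((β ((2 : ℝ) ^ (-(j : ℝ)) * ‖ξ‖) : ℝ) : ℂ) * ft (packet lam r om x₀) ξ with hG
  have h1 : ∫ ξ, G ξ = ∫ ξ, G (lam • om + ξ) := (integral_add_left_eq_self G (lam • om)).symm
  have h2 := Measure.integral_comp_smul (volume : Measure (Rd d)) (fun ξ => G (lam • om + ξ)) r⁻¹
  have hdim : Module.finrank ℝ (Rd d) = d := by simp
  rw [hdim, abs_of_pos (by positivity)] at h2
  have h3 : ∫ ξ, G (lam • om + ξ) = ((r⁻¹) ^ d : ℝ) • ∫ ξ, G (lam • om + r⁻¹ • ξ) := by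
    rw [h2, smul_smul, mul_inv_cancel₀ (by positivity), one_smul]
  rw [h1, h3, ← integral_const_mul, ← integral_smul]
  refine integral_congr_ae (Filter.Eventually.of_forall fun η => ?_)
  simp only [hG]
  rw [ft_packet hr, Complex.real_smul]
  have e1 : r • (lam • om + r⁻¹ • η - lam • om) = η := by
    rw [add_sub_cancel_left, smul_smul, mul_inv_cancel₀ hr.ne', one_smul]
  rw [e1]
  have e3 : (((r⁻¹) ^ d : ℝ) : ℂ) * ((r ^ d : ℝ) : ℂ) = 1 := by
    rw [← Complex.ofReal_mul, ← mul_pow, inv_mul_cancel₀ hr.ne']; simp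
  have e2 : Complex.exp (Complex.I * ((inner ℝ x (lam • om + r⁻¹ • η) : ℝ) : ℂ)) *
      Complex.exp (Complex.I * ((t * ‖lam • om + r⁻¹ • η‖ : ℝ) : ℂ)) *
      Complex.exp (-(Complex.I * ((inner ℝ x₀ (lam • om + r⁻¹ • η) : ℝ) : ℂ))) =
      Complex.exp (Complex.I * ((lam * (inner ℝ (x - x₀) om + t) : ℝ) : ℂ)) *
      Complex.exp (Complex.I * ((inner ℝ (r⁻¹ • (x - x₀ + t • om)) η : ℝ) : ℂ)) *
      Complex.exp (Complex.I * ((t * (‖lam • om + r⁻¹ • η‖ - lam - inner ℝ om (r⁻¹ • η)) : ℝ) : ℂ)) := by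
    rw [← Complex.exp_add, ← Complex.exp_add, ← Complex.exp_add, ← Complex.exp_add]
    congr 1
    simp only [inner_add_right, inner_add_left, inner_sub_left, real_inner_smul_left, real_inner_smul_right]
    push_cast
    ring
  calc _ = ((((r⁻¹) ^ d : ℝ) : ℂ) * ((r ^ d : ℝ) : ℂ)) *
      (Complex.exp (Complex.I * ((inner ℝ x (lam • om + r⁻¹ • η) : ℝ) : ℂ)) *
      Complex.exp (Complex.I * ((t * ‖lam • om + r⁻¹ • η‖ : ℝ) : ℂ)) *
      Complex.exp (-(Complex.I * ((inner ℝ x₀ (lam • om + r⁻¹ • η) : ℝ) : ℂ)))) *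
      ((β ((2 : ℝ) ^ (-(j : ℝ)) * ‖lam • om + r⁻¹ • η‖) : ℝ) : ℂ) * X d η := by ring
    _ = _ := by rw [e3, e2]; ring

theorem specPacket : SpecPacket := by
  intro d β hβ
  obtain ⟨B, hB0, hB⟩ := beta_bound hβ
  obtain ⟨M, hM0, hM⟩ := beta_lip hβ
  set Cc : ℝ := ∫ η : Rd d, (2 * B * (‖η‖ ^ 2 * ‖X d η‖) + M * (‖η‖ ^ 1 * ‖X d η‖)) with hCc
  have hCi : Integrable (fun η : Rd d => 2 * B * (‖η‖ ^ 2 * ‖X d η‖) + M * (‖η‖ ^ 1 * ‖X d η‖)) :=
    ((X_weight 2).const_mul _).add ((X_weight 1).const_mul _)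
  have hCc0 : 0 ≤ Cc := integral_nonneg fun η => by positivity
  refine ⟨max 1 (2 * Cc), le_max_left _ _, ?_⟩
  set K₀ : ℝ := max 1 (2 * Cc) with hK
  have hK1 : 1 ≤ K₀ := le_max_left _ _
  have hK2 : 2 * Cc ≤ K₀ := le_max_right _ _
  have hK0 : 0 < K₀ := by linarith
  intro j om x₀ x t hom ht0 ht2 hx
  set lam : ℝ := (2 : ℝ) ^ (j : ℝ) with hlam
  have hl0 : 0 < lam := Real.rpow_pos_of_pos two_pos _
  set r : ℝ := K₀ * (2 : ℝ) ^ (-(j : ℝ) / 2) with hr
  have hr0 : 0 < r := by positivity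
  have hrl : r ^ 2 * lam = K₀ ^ 2 := by
    have h0 : ((2 : ℝ) ^ (-(j : ℝ) / 2)) ^ 2 = (2 : ℝ) ^ (-(j : ℝ)) := by
      rw [← Real.rpow_natCast, ← Real.rpow_mul (by norm_num)]
      congr 1
      push_cast
      ring
    rw [hr, hlam, mul_pow, mul_assoc, h0, ← Real.rpow_add two_pos]
    simp
  have hrl' : K₀ ≤ r * lam := by
    rw [hr, hlam, mul_assoc, ← Real.rpow_add two_pos]
    have h1 : (1 : ℝ) ≤ (2 : ℝ) ^ (-(j : ℝ) / 2 + j) := by
      apply Real.one_le_rpow (by norm_num)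
      have : (0 : ℝ) ≤ j := Nat.cast_nonneg j
      linarith
    nlinarith
  set v : Rd d := r⁻¹ • (x - x₀ + t • om) with hv
  have hv1 : ‖v‖ ≤ 1 := by
    rw [hv, norm_smul, norm_inv, Real.norm_eq_abs, abs_of_pos hr0, inv_mul_le_iff₀ hr0, mul_one]
    exact hx
  have hbump : ((bump d v : ℝ) : ℂ) = 1 := by
    have : (bump d) v = 1 := (bump d).one_of_mem_closedBall (by simpa [bump] using hv1)
    rw [this]; simp
  have hinv := inversion (d := d) v
  rw [hbump] at hinv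
  set c : ℂ := (((2 * Real.pi) ^ d : ℝ) : ℂ)⁻¹ with hc
  have hcn : ‖c‖ ≤ 1 := by
    rw [hc, norm_inv, Complex.norm_real, Real.norm_eq_abs, abs_of_pos (by positivity)]
    apply inv_le_one_of_one_le₀
    apply one_le_pow₀
    nlinarith [Real.pi_gt_three]
  rw [halfWave_packet β j t hr0, norm_mul]
  have hexp : ∀ y : ℝ, ‖Complex.exp (Complex.I * (y : ℂ))‖ = 1 := fun y => by
    rw [mul_comm, Complex.norm_exp_ofReal_mul_I]
  rw [hexp, one_mul]
  set Em : Rd d → ℂ := fun η =>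
    (Complex.exp (Complex.I * ((t * (‖lam • om + r⁻¹ • η‖ - lam - inner ℝ om (r⁻¹ • η)) : ℝ) : ℂ)) *
          ((β ((2 : ℝ) ^ (-(j : ℝ)) * ‖lam • om + r⁻¹ • η‖) : ℝ) : ℂ)) with hEm
  -- pointwise error
  have herr : ∀ η : Rd d, ‖Em η - 1‖ ≤ (2 * B * ‖η‖ ^ 2 + M * ‖η‖ ^ 1) / K₀ := by
    intro η
    set w : Rd d := r⁻¹ • η with hw
    have hwn : ‖w‖ = ‖η‖ / r := by
      rw [hw, norm_smul, norm_inv, Real.norm_eq_abs, abs_of_pos hr0]; ring
    obtain ⟨p1, p2⟩ := psi_bound hl0 (w := w) hom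
    have hpsi : ‖w‖ ^ 2 / lam ≤ ‖η‖ ^ 2 / K₀ := by
      have : ‖w‖ ^ 2 / lam = ‖η‖ ^ 2 / K₀ ^ 2 := by
        rw [hwn, div_pow, div_div, hrl]
      rw [this]
      apply div_le_div_of_nonneg_left (by positivity) hK0
      nlinarith
    have hβarg : |β ((2 : ℝ) ^ (-(j : ℝ)) * ‖lam • om + w‖) - 1| ≤ M * ‖η‖ ^ 1 / K₀ := by
      rw [← beta_one hβ]
      refine (hM _ _).trans ?_
      rw [pow_one, mul_div_assoc]
      apply mul_le_mul_of_nonneg_left _ hM0
      have h2j : (2 : ℝ) ^ (-(j : ℝ)) = 1 / lam := by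
        rw [hlam, Real.rpow_neg (by norm_num), one_div]
      have h3 : (2 : ℝ) ^ (-(j : ℝ)) * ‖lam • om + w‖ - 1 = (‖lam • om + w‖ - lam) / lam := by
        rw [h2j]; field_simp
      rw [h3, abs_div, abs_of_pos hl0]
      have h4 : |‖lam • om + w‖ - lam| ≤ ‖w‖ := by
        have h5 : ‖lam • om‖ = lam := by rw [norm_smul, hom, mul_one, Real.norm_eq_abs, abs_of_pos hl0]
        have h6 := abs_norm_sub_norm_le (lam • om + w) (lam • om)
        rw [h5, add_sub_cancel_left] at h6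
        exact h6
      calc |‖lam • om + w‖ - lam| / lam ≤ ‖w‖ / lam := div_le_div_of_nonneg_right h4 hl0.le
        _ = ‖η‖ / (r * lam) := by rw [hwn, div_div]
        _ ≤ ‖η‖ / K₀ := div_le_div_of_nonneg_left (norm_nonneg _) hK0 hrl'
    have hsplit : Em η - 1 = (Complex.exp (Complex.I * ((t * (‖lam • om + w‖ - lam - inner ℝ om w) : ℝ) : ℂ)) - 1) *
          ((β ((2 : ℝ) ^ (-(j : ℝ)) * ‖lam • om + w‖) : ℝ) : ℂ) +
          (((β ((2 : ℝ) ^ (-(j : ℝ)) * ‖lam • om + w‖) : ℝ) : ℂ) - 1) := by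
      simp only [hEm, hw]; ring
    rw [hsplit]
    refine (norm_add_le _ _).trans ?_
    have e1 : ‖(Complex.exp (Complex.I * ((t * (‖lam • om + w‖ - lam - inner ℝ om w) : ℝ) : ℂ)) - 1) *
          ((β ((2 : ℝ) ^ (-(j : ℝ)) * ‖lam • om + w‖) : ℝ) : ℂ)‖ ≤ 2 * B * ‖η‖ ^ 2 / K₀ := by
      rw [norm_mul, Complex.norm_real]
      have h1 : ‖Complex.exp (Complex.I * ((t * (‖lam • om + w‖ - lam - inner ℝ om w) : ℝ) : ℂ)) - 1‖
          ≤ 2 * (‖η‖ ^ 2 / K₀) := by
        refine (Real.norm_exp_I_mul_ofReal_sub_one_le).trans ?_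
        rw [Real.norm_eq_abs, abs_of_nonneg (mul_nonneg ht0 p1)]
        exact mul_le_mul ht2 (p2.trans hpsi) p1 (by norm_num)
      calc _ ≤ (2 * (‖η‖ ^ 2 / K₀)) * B := mul_le_mul h1 (hB _) (abs_nonneg _) (by positivity)
        _ = _ := by ring
    have e2 : ‖(((β ((2 : ℝ) ^ (-(j : ℝ)) * ‖lam • om + w‖) : ℝ) : ℂ) - 1)‖ ≤ M * ‖η‖ ^ 1 / K₀ := by
      have : (((β ((2 : ℝ) ^ (-(j : ℝ)) * ‖lam • om + w‖) : ℝ) : ℂ) - 1)
          = ((β ((2 : ℝ) ^ (-(j : ℝ)) * ‖lam • om + w‖) - 1 : ℝ) : ℂ) := by push_cast; rfl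
      rw [this, Complex.norm_real]
      exact hβarg
    calc _ ≤ 2 * B * ‖η‖ ^ 2 / K₀ + M * ‖η‖ ^ 1 / K₀ := add_le_add e1 e2
      _ = _ := by ring
  have hEc : Continuous Em := by
    have hβc := hβ.smooth.continuous
    simp only [hEm]
    fun_prop
  have hXi : Integrable (fun η : Rd d => Complex.exp (Complex.I * ((inner ℝ v η : ℝ) : ℂ)) * X d η) := by
    have h0 := X_weight (d := d) 0
    simp only [pow_zero, one_mul] at h0
    refine h0.mono' ?_ (Filter.Eventually.of_forall fun η => ?_)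
    · apply Continuous.aestronglyMeasurable
      have := X_cont (d := d)
      fun_prop
    · rw [norm_mul, hexp, one_mul]
  have hDi : Integrable (fun η : Rd d => Complex.exp (Complex.I * ((inner ℝ v η : ℝ) : ℂ)) *
      ((Em η - 1) * X d η)) := by
    refine (hCi.div_const K₀).mono' ?_ (Filter.Eventually.of_forall fun η => ?_)
    · apply Continuous.aestronglyMeasurable
      have := X_cont (d := d)
      fun_prop
    · rw [norm_mul, hexp, one_mul, norm_mul]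
      calc ‖Em η - 1‖ * ‖X d η‖ ≤ ((2 * B * ‖η‖ ^ 2 + M * ‖η‖ ^ 1) / K₀) * ‖X d η‖ :=
            mul_le_mul_of_nonneg_right (herr η) (norm_nonneg _)
        _ = _ := by ring
  have hsum : c * ∫ η : Rd d, Complex.exp (Complex.I * ((inner ℝ v η : ℝ) : ℂ)) * (Em η * X d η)
      = 1 + c * ∫ η : Rd d, Complex.exp (Complex.I * ((inner ℝ v η : ℝ) : ℂ)) * ((Em η - 1) * X d η) := by
    have h0 : ∫ η : Rd d, Complex.exp (Complex.I * ((inner ℝ v η : ℝ) : ℂ)) * (Em η * X d η)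
        = (∫ η : Rd d, Complex.exp (Complex.I * ((inner ℝ v η : ℝ) : ℂ)) * X d η) +
          ∫ η : Rd d, Complex.exp (Complex.I * ((inner ℝ v η : ℝ) : ℂ)) * ((Em η - 1) * X d η) := by
      rw [← integral_add hXi hDi]
      refine integral_congr_ae (Filter.Eventually.of_forall fun η => ?_)
      simp only
      ring
    rw [h0, mul_add, hinv]
  rw [hsum]
  have hD : ‖c * ∫ η : Rd d, Complex.exp (Complex.I * ((inner ℝ v η : ℝ) : ℂ)) * ((Em η - 1) * X d η)‖
      ≤ 1 / 2 := by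
    rw [norm_mul]
    have h1 : ‖∫ η : Rd d, Complex.exp (Complex.I * ((inner ℝ v η : ℝ) : ℂ)) * ((Em η - 1) * X d η)‖
        ≤ Cc / K₀ := by
      rw [hCc, ← integral_div]
      refine norm_integral_le_of_norm_le (hCi.div_const K₀) (Filter.Eventually.of_forall fun η => ?_)
      rw [norm_mul, hexp, one_mul, norm_mul]
      calc ‖Em η - 1‖ * ‖X d η‖ ≤ ((2 * B * ‖η‖ ^ 2 + M * ‖η‖ ^ 1) / K₀) * ‖X d η‖ :=
            mul_le_mul_of_nonneg_right (herr η) (norm_nonneg _)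
        _ = _ := by ring
    have h2 : Cc / K₀ ≤ 1 / 2 := by
      rw [div_le_div_iff₀ hK0 (by norm_num)]
      linarith
    calc _ ≤ 1 * (Cc / K₀) := mul_le_mul hcn h1 (norm_nonneg _) (by norm_num)
      _ ≤ 1 / 2 := by rw [one_mul]; exact h2
  have h3 : ‖(1 : ℂ)‖ ≤ ‖1 + c * ∫ η : Rd d, Complex.exp (Complex.I * ((inner ℝ v η : ℝ) : ℂ)) * ((Em η - 1) * X d η)‖
      + ‖c * ∫ η : Rd d, Complex.exp (Complex.I * ((inner ℝ v η : ℝ) : ℂ)) * ((Em η - 1) * X d η)‖ := by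
    have := norm_sub_le (1 + c * ∫ η : Rd d, Complex.exp (Complex.I * ((inner ℝ v η : ℝ) : ℂ)) * ((Em η - 1) * X d η))
      (c * ∫ η : Rd d, Complex.exp (Complex.I * ((inner ℝ v η : ℝ) : ℂ)) * ((Em η - 1) * X d η))
    rwa [add_sub_cancel_right] at this
  rw [norm_one] at h3
  linarith

end Pool.Agent.Lib.MP_c0f824_an.FT.PacketM
end
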