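import Pool.Agent.Lib.MP_c0f824_an.FT.Defs

/-!
# Kakeya compression at fractal times (MP_c0f824_an): the modules

Every `SpecXXX : Prop` carries its proof in the docstring. `d = m + 1`. Module `FT/XXX.lean` imports
only `FT.Spec` and proves `theorem specXXX (earlier Specs as hypotheses) : SpecXXX` in the namespace
`Pool.Agent.Lib.MP_c0f824_an.FT.XXXM`.
-/

open MeasureTheory Set
open scoped ENNReal ContDiff

namespace Pool.Agent.Lib.MP_c0f824_an.FT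

/-! ### Wave packets -/

/-- A smooth bump: `1` on the ball of radius `1`, supported in the ball of radius `2`. -/
noncomputable def bump (d : ℕ) : ContDiffBump (0 : Rd d) := ⟨1, 2, one_pos, one_lt_two⟩

/-- The packet `χ((x - x₀)/r) e^{iλ ω·(x - x₀)}`. -/
noncomputable def packet {d : ℕ} (lam r : ℝ) (om x₀ : Rd d) : Rd d → ℂ := fun x =>
  ((bump d (r⁻¹ • (x - x₀)) : ℝ) : ℂ) *
    Complex.exp (Complex.I * ((lam * inner ℝ om (x - x₀) : ℝ) : ℂ))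

/-- PACKET. With `r = K₀ 2^{-j/2}`, `λ = 2^j` the packet travels along `x₀ - tω`.
Proof. `f̂(ξ) = r^d e^{-ix₀·ξ} χ̂(r(ξ - λω))`; put `ξ = λω + η/r`, `v = (x - x₀ + tω)/r`, `|v| ≤ 1`:
`halfWave = e^{iλ(ω·(x-x₀)+t)} (2π)^{-d} ∫ e^{iv·η} e^{itψ(η)} β(|λω+η/r|/λ) χ̂(η) dη`,
`ψ(η) = |λω + η/r| - λ - ω·η/r`, `0 ≤ ψ ≤ |η|²/(r²λ) = |η|²/K₀²` (for a unit vector `ω`,
`λ + ω·w ≤ |λω+w| ≤ λ + ω·w + |w|²/λ`, square both sides), and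
`(2π)^{-d}∫ e^{iv·η} χ̂(η) dη = χ(v) = 1` (Fourier inversion). Further `β(1) = 1` (sum condition at
`r = 1`, only `k = 0` contributes), `β` is bounded by `B` and Lipschitz with constant `M`, and
`||λω+w|/λ - 1| ≤ |w|/λ`. So the error is at most
`(2π)^{-d}∫ (2B|η|²/K₀² + M|η|/K₀) |χ̂(η)| dη ≤ C/K₀ ≤ 1/2` for `K₀ = max(1, 2C)` (`j ≥ 0`, so
`rλ = K₀ 2^{j/2} ≥ K₀`). -/
def SpecPacket : Prop :=
  ∀ (d : ℕ) (β : ℝ → ℝ), IsCutoff β → ∃ K₀ : ℝ, 1 ≤ K₀ ∧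
    ∀ (j : ℕ) (om x₀ x : Rd d) (t : ℝ), ‖om‖ = 1 → 0 ≤ t → t ≤ 2 →
      ‖x - x₀ + t • om‖ ≤ K₀ * (2 : ℝ) ^ (-(j : ℝ) / 2) →
      1 / 2 ≤ ‖halfWave β j t
        (packet ((2 : ℝ) ^ (j : ℝ)) (K₀ * (2 : ℝ) ^ (-(j : ℝ) / 2)) om x₀) x‖

/-- WAVE. (1) packets are Schwartz functions (smooth, compact support:
`HasCompactSupport.toSchwartzMap`); (2) `halfWave` is linear on finite sums of Schwartz functions
(the integrand is integrable: `ft f` is continuous and bounded, `β(2^{-j}|ξ|)` has compact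
support); (3) `halfWave β j t f` is continuous (dominated convergence). -/
def SpecWave : Prop :=
  (∀ (d : ℕ) (lam r : ℝ) (om x₀ : Rd d), 0 < r →
    ∃ f : SchwartzMap (Rd d) ℂ, ∀ x, f x = packet lam r om x₀ x) ∧
  (∀ (d : ℕ) (β : ℝ → ℝ), IsCutoff β → ∀ (j : ℕ) (t : ℝ) (ι : Type) (_ : Fintype ι) (c : ι → ℂ)
    (f : ι → SchwartzMap (Rd d) ℂ) (x : Rd d),
    halfWave β j t (fun x => ∑ i, c i * f i x) x = ∑ i, c i * halfWave β j t (f i) x) ∧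
  (∀ (d : ℕ) (β : ℝ → ℝ), IsCutoff β → ∀ (j : ℕ) (t : ℝ) (f : SchwartzMap (Rd d) ℂ),
    Continuous (halfWave β j t f))

/-- SIGNS. Proof: average over all sign vectors; for each `t, x`: Jensen (`q/2 ≥ 1`) and
`average |∑ ε_i a_i|² = ∑ |a_i|²` (induction on the index set with the parallelogram law, sum over
the powerset). -/
def SpecSigns : Prop :=
  ∀ (ι X : Type) (_ : Fintype ι) (_ : MeasurableSpace X) (μ : Measure X) (F : Finset ℝ)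
    (u : ℝ → ι → X → ℂ) (q : ℝ), 2 ≤ q → (∀ t i, Measurable (u t i)) →
    ∃ ε : ι → ℝ, (∀ i, ε i = 1 ∨ ε i = -1) ∧
      ∑ t ∈ F, ∫⁻ x, (∑ i, ‖u t i x‖ₑ ^ (2 : ℝ)) ^ (q / 2) ∂μ ≤
        ∑ t ∈ F, ∫⁻ x, ‖∑ i, (ε i : ℂ) * u t i x‖ₑ ^ q ∂μ

/-- MASS. Proof: `G = ∑ 1_{B i}`, `θ = kb/(2v)`; pointwise `G ≤ θ + θ^{1-q/2} G^{q/2}`; integrate
over `U`: `kb ≤ θ v + θ^{1-q/2} ∫ G^{q/2}`, and `θ v = kb/2`; finally `∑‖u i‖² ≥ G/4`. -/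
def SpecMass : Prop :=
  ∀ (ι X : Type) (_ : Fintype ι) (_ : Nonempty ι) (_ : MeasurableSpace X) (μ : Measure X)
    (B : ι → Set X) (U : Set X) (b v q : ℝ) (u : ι → X → ℂ), 0 < b → 0 < v → 2 < q →
    (∀ i, MeasurableSet (B i)) → (∀ i, B i ⊆ U) → MeasurableSet U → μ U ≤ ENNReal.ofReal v →
    (∀ i, ENNReal.ofReal b ≤ μ (B i)) → (∀ i, Measurable (u i)) →
    (∀ i, ∀ x ∈ B i, 1 / 2 ≤ ‖u i x‖) →
    ENNReal.ofReal (((Fintype.card ι : ℝ) * b / 8) ^ (q / 2) * v ^ (1 - q / 2)) ≤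
      ∫⁻ x, (∑ i, ‖u i x‖ₑ ^ (2 : ℝ)) ^ (q / 2) ∂μ

/-! ### Digits -/

/-- The number `∑_{i<n} c_i N^{-(i+1)}` with digits `c`. -/
noncomputable def dv (N : ℕ) {n k : ℕ} (c : Fin n → Fin k) : ℝ :=
  ∑ i, ((c i : ℕ) : ℝ) / (N : ℝ) ^ ((i : ℕ) + 1)

/-- ZERO (few overlaps at time `0`). Proof. Put `z_i = y_i + b_i + H b_{i-1}` (`b_0 = 0`,
`1 ≤ i ≤ n`), `z_i < H + H(P-1) = HP ≤ N`. Then
`dv y + (1+H/N) dv b = dv z + H b_n N^{-(n+1)}`, so `dv z` lies in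
`[x - R - N^{-n}, x + R]`; it is a multiple of `N^{-n}` and `dv` is injective on digits `< N`: at
most `2R N^n + 2` values `z`; `(y,b) ↦ (z, b_n)` is injective (`z_{i+1}/H = b_i`). -/
def SpecZero : Prop :=
  ∀ (N n P Q H : ℕ), 1 ≤ n → 1 ≤ P → P ≤ Q → 2 * Q ≤ H → H * P ≤ N →
    ∀ (x R : ℝ), 0 ≤ R →
      (Nat.card {yb : (Fin n → Fin Q) × (Fin n → Fin P) //
        |dv N yb.1 + (1 + (H : ℝ) / N) * dv N yb.2 - x| ≤ R} : ℝ) ≤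
        P * (2 * R * (N : ℝ) ^ n + 2)

/-- CARRY (no carry at the times of `E`). Proof. `s = dv e / N^h`; the product
`s · dv b = ∑_{i,j} e_j b_i N^{-(h+i+j+2)}` (`i < n`, `j < M`), the coefficient at `N^{-μ}` has at
most `n` terms (one for each `i`), each `≤ (G-1)(P-1)`. For positions `μ ≤ n` put
`c_μ = y_μ + coefficient < Q + nGP ≤ 2Q`. The positions `μ > n` contribute at most
`nGP ∑_{μ>n} N^{-μ} ≤ 2nGP/N · N^{-n} ≤ N^{-n}`. -/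
def SpecCarry : Prop :=
  ∀ (N n M h G P Q : ℕ), 1 ≤ n → n * G * P ≤ Q → 2 * Q ≤ N →
    ∀ (y : Fin n → Fin Q) (b : Fin n → Fin P) (e : Fin M → Fin G),
      ∃ c : Fin n → Fin (2 * Q),
        0 ≤ dv N y + dv N e / (N : ℝ) ^ h * dv N b - dv N c ∧
        dv N y + dv N e / (N : ℝ) ^ h * dv N b - dv N c ≤ 1 / (N : ℝ) ^ n

/-- SEP. The numbers `dv e / N^h` are `N^{-(h+M)}`-separated and lie in `[0, N^{-h}]`
(multiply by `N^{h+M}`: integers, injective because the digits are `< N`;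
`∑ (G-1)N^{-i} ≤ (G-1)/(N-1) ≤ 1`). -/
def SpecSep : Prop :=
  ∀ (N M h G : ℕ), 2 ≤ N → G ≤ N → ∀ (e e' : Fin M → Fin G),
    0 ≤ dv N e / (N : ℝ) ^ h ∧ dv N e / (N : ℝ) ^ h ≤ 1 / (N : ℝ) ^ h ∧
    (e ≠ e' → 1 / (N : ℝ) ^ (h + M) ≤ |dv N e / (N : ℝ) ^ h - dv N e' / (N : ℝ) ^ h|)

/-! ### The sets of times -/

/-- The set of times `{τ - dv e / N^h}`. -/
def times (N M h G : ℕ) (τ : ℝ) : Set ℝ :=
  range fun e : Fin M → Fin G => τ - dv N e / (N : ℝ) ^ h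

/-- COVER (the characteristic of one block). Proof. `N^{-(u+1)} < R ≤ N^{-u}` and
`N^{-v} ≤ δ < N^{-(v-1)}` (`v ≥ u`). Two points whose digits differ at a position `≤ u` are at
distance `≥ N^{-u}/2` (`2G ≤ N`): at most `3` classes of points with the same digits up to `u`
meet an interval of length `R`; each has at most `G^{v-u}` subclasses with the same digits up to
`v`, each of diameter `≤ N^{-v}/2 < δ`. So at most `3G^{v-u} ≤ 3 (N^{v-u})^α ≤ 3 (N²R/δ)^α`. -/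
def SpecCover : Prop :=
  ∀ (N M h G : ℕ) (τ α : ℝ), 0 < α → α ≤ 1 → 2 ≤ N → 1 ≤ G → 2 * G ≤ N → (G : ℝ) ≤ (N : ℝ) ^ α →
    ∀ (x R δ : ℝ), 0 < δ → δ ≤ R → R ≤ 1 →
      (cov (times N M h G τ ∩ Icc x (x + R)) δ : ℝ) ≤ 3 * (N : ℝ) ^ 2 * (R / δ) ^ α

/-- The parameters of the block `w`: `N = 2^{aw}`, `G = 2^{gw}`, `P = 2^{pw}`, `n = 2^{w+l}`,
`h = 2^w`, `Q = nGP`, `H = 2Q`; the frequency is `2^j` with `j = 2n·aw`. -/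
structure Par where
  a : ℕ
  g : ℕ
  p : ℕ
  l : ℕ
  hg : 1 ≤ g
  hp : 1 ≤ p
  ha : g + 2 * p + 2 ≤ a

namespace Par
variable (D : Par) (w : ℕ)

def N : ℕ := 2 ^ (D.a * w)
def G : ℕ := 2 ^ (D.g * w)
def P : ℕ := 2 ^ (D.p * w)
def n : ℕ := 2 ^ (w + D.l)
def h : ℕ := 2 ^ w
def Q : ℕ := D.n w * D.G w * D.P w
def H : ℕ := 2 * D.Q w
def M : ℕ := 2 * D.n w - h w
def j : ℕ := 2 * D.n w * (D.a * w)
/-- `τ_w = 1 + H/N` -/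
noncomputable def τ : ℝ := 1 + (D.H w : ℝ) / (D.N w : ℝ)
/-- The block `E_w` of the set of times. -/
def E : Set ℝ := times (D.N w) (D.M w) (h w) (D.G w) (D.τ w)
/-- The union of the blocks `E_w`, `w ≥ w₀`. -/
def EE (w₀ : ℕ) : Set ℝ := ⋃ w ≥ w₀, D.E w

end Par

/-- PARAM (arithmetic of the parameters, for `w ≥ l + 1`). All are powers of `2`:
`HP = 2^{1 + w + l + gw + 2pw} ≤ 2^{(g+2p+2)w} ≤ N`. `τ - 1 = H/N ≤ 1/P ≤ 2^{-w}`; the points of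
`E_w` lie in `[1, 2]` since `dv e/N^h ≤ N^{-h} ≤ 1/N ≤ H/N` (SpecSep). -/
def SpecParam : Prop :=
  ∀ (D : Par) (w : ℕ), D.l + 1 ≤ w →
    D.H w * D.P w ≤ D.N w ∧ 2 * D.Q w ≤ D.N w ∧ 2 * D.G w ≤ D.N w ∧ 2 ≤ D.N w ∧ 1 ≤ D.G w ∧
    1 ≤ D.P w ∧ D.P w ≤ D.Q w ∧ 1 ≤ D.n w ∧ Par.h w + D.M w = 2 * D.n w ∧
    D.E w ⊆ Icc 1 2 ∧ D.E w ⊆ Icc (D.τ w - 1 / (D.N w : ℝ) ^ (Par.h w)) (D.τ w) ∧
    1 < D.τ w ∧ D.τ w ≤ 1 + (2 : ℝ) ^ (-(w : ℝ)) ∧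
    (2 : ℝ) ^ (-(D.j w : ℝ)) = 1 / (D.N w : ℝ) ^ (2 * D.n w) ∧
    (2 : ℝ) ^ (-(D.j w : ℝ) / 2) = 1 / (D.N w : ℝ) ^ (D.n w) ∧ 2 ^ w ≤ D.j w

/-- UNION (the characteristic of the union). Proof. Let `δ ≤ b - a`. The blocks with
`τ_w ≤ 1 + δ/2` lie in one open interval of length `δ` (around `[1, 1+δ/2]`). The others have
`2^{-w} > δ/2`, `w < log₂(2/δ)`. Such a block is contained in `[τ_w - N^{-h}, τ_w]`, so it is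
covered by one interval unless `N^{-h} ≥ δ/2`, and then `2^w ≤ h·aw ≤ log₂(2/δ)`,
`N ≤ (log₂(2/δ))^a`, and SpecCover gives `3 (log₂(2/δ))^{2a} ((b-a)/δ)^α`. Total at most
`1 + (log₂(2/δ) + 1) · 3 (log₂(2/δ))^{2a} ((b-a)/δ)^α`. -/
def SpecUnion : Prop :=
  ∀ (D : Par) (α : ℝ), 0 < α → α < 1 → (D.g : ℝ) ≤ α * D.a → ∀ w₀ : ℕ, D.l + 1 ≤ w₀ →
    ∃ C₀ : ℝ, ∀ δ a b : ℝ, 0 < δ → δ < 1 → 1 ≤ a → b ≤ 2 → δ ≤ b - a →
      (cov (D.EE w₀ ∩ Icc a b) δ : ℝ) ≤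
        C₀ * (Real.log (2 / δ)) ^ (2 * D.a + 1) * ((b - a) / δ) ^ α

/-! ### The configuration -/

/-- Index of a packet: digits of `y`, digits of `b`, position in the direction of propagation. -/
abbrev Idx (m n Q P L : ℕ) := (Fin m → Fin n → Fin Q) × (Fin m → Fin n → Fin P) × Fin L

/-- The vector with the coordinates `x₀` and `v`. -/
noncomputable def vec {m : ℕ} (x₀ : ℝ) (v : Fin m → ℝ) : Rd (m + 1) :=
  WithLp.toLp 2 (Fin.cons x₀ v)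

/-- `√(1 - |b|²)` -/
noncomputable def hgt {m : ℕ} (b : Fin m → ℝ) : ℝ := Real.sqrt (1 - ∑ i, b i ^ 2)

/-- The direction `ω_T = (√(1-|b|²), b)`. -/
noncomputable def dir {m n Q P L : ℕ} (N : ℕ) (T : Idx m n Q P L) : Rd (m + 1) :=
  vec (hgt fun i => dv N (T.2.1 i)) (fun i => dv N (T.2.1 i))

/-- The position at time `0`: `x_T = (k N^{-n} + τ√(1-|b|²), y + τ b)`. -/
noncomputable def pos {m n Q P L : ℕ} (N : ℕ) (τ : ℝ) (T : Idx m n Q P L) : Rd (m + 1) :=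
  vec (((T.2.2 : ℕ) : ℝ) / (N : ℝ) ^ n + τ * hgt fun i => dv N (T.2.1 i))
    (fun i => dv N (T.1 i) + τ * dv N (T.2.1 i))

/-- OVERLAP (time `0`). Proof: `‖x - x_T‖ ≤ R` implies `|x_i - (y_i + τ b_i)| ≤ R` for each
`i`, so at most `P(2RN^n+2)` pairs `(y_i, b_i)` by SpecZero (`τ = 1 + H/N`); for given `b` the
first coordinate leaves at most `2RN^n + 1` values `k`. -/
def SpecOverlap : Prop :=
  ∀ (m N n P Q H L : ℕ), 1 ≤ n → 1 ≤ P → P ≤ Q → 2 * Q ≤ H → H * P ≤ N →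
    ∀ (x : Rd (m + 1)) (R : ℝ), 0 ≤ R →
      (Nat.card {T : Idx m n Q P L // ‖x - pos N (1 + (H : ℝ) / N) T‖ ≤ R} : ℝ) ≤
        ((P : ℝ) * (2 * R * (N : ℝ) ^ n + 2)) ^ (m + 1)

/-- COMPRESSION (times near `E`). `t` is within `N^{-2n}` of the time `τ - dv e/N^h`; all balls
`closedBall (x_T - t ω_T) r`, `r ≥ N^{-n}`, lie in a set `U` of measure
`≤ (4 + 2r)(6r (2Q)^n)^m`. Proof. The first coordinate of `x_T - tω_T` is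
`k N^{-n} + (τ-t)√(1-|b|²) ∈ [-1, 3]` (`k < N^n`, `|τ - t| ≤ 2`), the coordinate `i` is
`y_i + (τ-t) b_i = y_i + s b_i + θ b_i`, `|θ| ≤ N^{-2n}`, `s = dv e/N^h`, `0 ≤ b_i ≤ 1`; by SpecCarry
it is within `N^{-n} + N^{-2n} ≤ 2r` of `dv c`. `U` = product of `[-1-r, 3+r]` and of `m` copies of
`W = ⋃_c [dv c - 3r, dv c + 3r]`, measure `≤ (4+2r)(6r(2Q)^n)^m`
(`EuclideanSpace.volume_preserving_measurableEquiv`, `volume_pi_pi`). -/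
def SpecCompress : Prop :=
  ∀ (m N n M h G P Q : ℕ), 1 ≤ n → 2 ≤ N → 1 ≤ G → n * G * P ≤ Q → 2 * Q ≤ N →
    ∀ (τ t r : ℝ) (e : Fin M → Fin G), 1 / (N : ℝ) ^ n ≤ r → |τ - t| ≤ 1 →
      |t - (τ - dv N e / (N : ℝ) ^ h)| ≤ 1 / (N : ℝ) ^ (2 * n) →
      ∃ U : Set (Rd (m + 1)), MeasurableSet U ∧
        volume U ≤ ENNReal.ofReal ((4 + 2 * r) * (6 * r * (2 * Q : ℝ) ^ n) ^ m) ∧
        ∀ T : Idx m n Q P (N ^ n),
          Metric.closedBall (pos N τ T - t • dir N T) r ⊆ U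

/-- NET: a maximal `δ`-separated subset `F` of `E' ⊇ E` contains a finite set `F'` with
`2 |F'| ≥ k`, all of whose points are within `δ` of `E`, where `E` contains `k` points
`δ`-separated (`E` the range of an injective `δ`-separated family indexed by `ι`). Proof: choose
for every point of the family a point of `F` at distance `< δ` (maximality); at most two points
have the same image. -/
def SpecNet : Prop :=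
  ∀ (ι : Type) (_ : Fintype ι) (t : ι → ℝ) (δ : ℝ) (E' F : Set ℝ), 0 < δ →
    (∀ i i', i ≠ i' → δ ≤ |t i - t i'|) → (∀ i, t i ∈ E') → IsNet E' δ F →
    ∃ F' : Finset ℝ, (∀ x ∈ F', x ∈ F ∧ ∃ i, |x - t i| < δ) ∧ Fintype.card ι ≤ 2 * F'.card

/-- LOWER (one block). For every cutoff there is `K₀ ≥ 1` such that for all blocks `w` and all
`E' ⊇ E_w`, `(∗)` at the frequency `2^{j_w}` with the constant `C` implies the numerical inequality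
below (`v_d` = volume of the unit ball, `V_R ≤ (2R)^{m+1}` the volume of the ball of radius `R = 4(m+1) + 2K₀`).
Proof. SpecNet with the points of `E_w` (`δ = 2^{-j} = N^{-2n}`, SpecSep, SpecParam): `F'`.
`f = ∑_T ε_T f_T`, `f_T = packet 2^j r ω_T x_T`, `r = K₀ 2^{-j/2} = K₀ N^{-n}`,
`L = N^n`, signs by SpecSigns for `u t T = halfWave β j t f_T`. For `t ∈ F'` SpecCompress and
SpecPacket (`‖x - x_T + tω_T‖ ≤ r`, `‖ω_T‖ = 1` since `∑ b_i² ≤ 1` for `w` large: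
`b_i ≤ 2P/N ≤ 2^{-w}`, so `m 4^{-w} ≤ 1`) and SpecMass give
`∑_{t∈F'} ∫ |halfWave f|^q ≥ |F'| (k b/8)^{q/2} v^{1-q/2}`,
`k = Q^{nm} P^{nm} N^n`, `b = v_d r^{m+1}`, `v = (4+2r)(6r(2Q)^n)^m`. Upper bound:
`|f| ≤ M₀ := (P(4K₀+2))^{m+1}` (SpecOverlap, `R = 2r`) and `f` is supported in the ball of radius
`R` (`‖x_T‖ ≤ 3 + 3m`, `2r ≤ 2K₀`), so `‖f‖_p ≤ M₀ V_R^{1/p} ≤ M₀ (1 + V_R)`. -/
def SpecLower : Prop :=
  ∀ (m : ℕ) (β : ℝ → ℝ), 1 ≤ m → IsCutoff β → ∃ K₀ : ℝ, 1 ≤ K₀ ∧ ∃ c₁ : ℝ, 0 < c₁ ∧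
    ∀ (D : Par) (w : ℕ) (E' F : Set ℝ) (p q s C : ℝ), D.l + 1 ≤ w → (m : ℝ) ≤ 4 ^ w →
      1 ≤ p → 2 < q → 0 < C →
      D.E w ⊆ E' → E' ⊆ Icc 1 2 → IsNet E' ((2 : ℝ) ^ (-(D.j w : ℝ))) F →
      IneqAt (m + 1) β (D.j w) F p q s C →
      ((D.G w : ℝ) ^ (D.M w) / 2 *
        (((D.Q w : ℝ) * D.P w / D.N w) ^ (D.n w * m) * c₁) ^ (q / 2) *
        (((2 * D.Q w : ℝ) / D.N w) ^ (D.n w * m) * (6 + 2 * K₀) ^ (m + 1) * 6 ^ m) ^ (1 - q / 2)) ^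
          (1 / q) ≤
        C * (2 : ℝ) ^ ((D.j w : ℝ) * s) * ((D.P w : ℝ) * (4 * K₀ + 2)) ^ (m + 1) *
          (1 + (8 * ((m : ℝ) + 1) + 4 * K₀) ^ (m + 1))

/-- NUM (choice of the parameters). For `s < s_*(q)` there are parameters `D` with `g ≤ αa` and
`c > 0` such that for all constants `K₀, c₁` and all large `w` the inequality of SpecLower forces
`C ≥ 2^{c j_w}`. Proof. Take `log₂` of both sides and divide by `nw`. With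
`a - 1 - g = 2p + c'`, `c' ∈ {1, 2}` (`p = ⌊(a-g-2)/2⌋`), `M = 2n - h = n(2 - 2^{-l})`,
`log₂ (2Q)^n = n((1+g+p)w + l + 1)`, `log₂ N^n = naw`:
`log₂ LHS^q ≥ nw [g(2 - 2^{-l}) + m(q/2-1)p - m c'] - O(n) - O(1)` and
`log₂ RHS^q ≤ q log₂ C + 2naw·qs + O(w)`. As `a, l → ∞` with `g = ⌊αa⌋`:
`[g(2-2^{-l}) + m(q/2-1)p - mc']/(2a) → α + m(q/2-1)(1-α)/4 = q s_*(q)`. -/
def SpecNum : Prop :=
  ∀ (m : ℕ) (α q s : ℝ), 1 ≤ m → 0 < α → α < 1 → 2 < q → s < sStar (m + 1) α q →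
    ∃ (D : Par) (c : ℝ), 0 < c ∧ (D.g : ℝ) ≤ α * D.a ∧
      ∀ K₀ c₁ : ℝ, 1 ≤ K₀ → 0 < c₁ → ∃ w₁ : ℕ, ∀ w : ℕ, w₁ ≤ w → ∀ C : ℝ, 0 < C →
        ((D.G w : ℝ) ^ (D.M w) / 2 *
          (((D.Q w : ℝ) * D.P w / D.N w) ^ (D.n w * m) * c₁) ^ (q / 2) *
          (((2 * D.Q w : ℝ) / D.N w) ^ (D.n w * m) * (6 + 2 * K₀) ^ (m + 1) * 6 ^ m) ^
            (1 - q / 2)) ^ (1 / q) ≤
          C * (2 : ℝ) ^ ((D.j w : ℝ) * s) * ((D.P w : ℝ) * (4 * K₀ + 2)) ^ (m + 1) *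
            (1 + (8 * ((m : ℝ) + 1) + 4 * K₀) ^ (m + 1)) →
        (2 : ℝ) ^ (c * D.j w) ≤ C

/-- LINE (on (L)). For `q_c ≤ q < q_c + 2α(1-α)/(3d+5+α(d-1))` on (L): `q > 2`, `1 < p`,
`s_c(p,q) < s_*(q)`. Proof. `d = m+1`, `q = q_c + 2η`, `q_c = 2 + 2α/m`;
`1/p = 1 - (m+2α)/(mq)`, so `1 < p`; `s₁ = s₂` on (L) and `s₃ ≤ s₁` there
(`s₁ - s₃ = m - (m+α)... ≥ 0`, i.e. `q(s₁-s₃) = m(q - q_c)/... ≥ 0`: compute);
`q s₁ = α + (m+2)η`, `q s_* = α + α(1-α)/4 + mη(1-α)/4`. -/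
def SpecLine : Prop :=
  ∀ (d : ℕ) (α p q : ℝ), 2 ≤ d → 0 < α → α < 1 → 0 < p → OnL d α p q → qc d α ≤ q →
    q < qc d α + 2 * α * (1 - α) / (3 * d + 5 + α * ((d : ℝ) - 1)) →
    2 < q ∧ 1 < p ∧ sc d α p q < sStar d α q

/-! ### The theorem -/

/-- MAIN. -/
def SpecMain : Prop :=
  ∀ (d : ℕ) (α p q : ℝ), 2 ≤ d → 0 < α → α < 1 → 0 < p → OnL d α p q → qc d α ≤ q →
    q < qc d α + 2 * α * (1 - α) / (3 * d + 5 + α * ((d : ℝ) - 1)) →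
    (∃ E : Set ℝ, E ⊆ Icc 1 2 ∧
      (∃ (κ : ℕ) (C₀ : ℝ), ∀ δ a b : ℝ, 0 < δ → δ < 1 → 1 ≤ a → b ≤ 2 → δ ≤ b - a →
        (cov (E ∩ Icc a b) δ : ℝ) ≤ C₀ * (Real.log (2 / δ)) ^ κ * ((b - a) / δ) ^ α) ∧
      ∃ σ : ℝ, 0 < σ ∧ ∀ β : ℝ → ℝ, IsCutoff β → ∀ C : ℝ,
        ¬ Ineq d β E p q (sc d α p q + σ) C) ∧
    (∃ c : ℝ, 0 < c ∧ ∀ β : ℝ → ℝ, IsCutoff β → ∀ A₀ : ℝ, ∃ A : ℝ, A₀ ≤ A ∧
      ∃ E : Set ℝ, E ⊆ Icc 1 2 ∧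
        (∀ δ a b : ℝ, 0 < δ → δ < 1 → 1 ≤ a → b ≤ 2 → δ ≤ b - a →
          (cov (E ∩ Icc a b) δ : ℝ) ≤ A * ((b - a) / δ) ^ α) ∧
        ∀ C : ℝ, Ineq d β E p q (sc d α p q) C → Real.exp (A ^ c) ≤ C)

end Pool.Agent.Lib.MP_c0f824_an.FT
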