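import Pool.Agent.Lib.MP_c0f824_an.FT.Spec

section
/-!
# Kakeya compression at fractal times (MP_c0f824_an): arithmetic of the parameters
-/
open MeasureTheory Set
open scoped ENNReal ContDiff

namespace Pool.Agent.Lib.MP_c0f824_an.FT.ParamM

open Pool.Agent.Lib.MP_c0f824_an.FT

variable (D : Par) (w : ℕ)

lemma HP_le (hw : D.l + 1 ≤ w) : D.H w * D.P w ≤ D.N w := by
  have h1 : D.H w * D.P w = 2 ^ (1 + (w + D.l) + D.g * w + D.p * w + D.p * w) := by
    simp only [Par.H, Par.Q, Par.n, Par.G, Par.P, pow_add, pow_one]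
    ring
  rw [h1]
  unfold Par.N
  apply Nat.pow_le_pow_right (by norm_num)
  have h2 : (D.g + 2 * D.p + 2) * w ≤ D.a * w := Nat.mul_le_mul_right w D.ha
  nlinarith

lemma one_le_G : 1 ≤ D.G w := Nat.one_le_two_pow
lemma one_le_P : 1 ≤ D.P w := Nat.one_le_two_pow
lemma one_le_n : 1 ≤ D.n w := Nat.one_le_two_pow
lemma one_le_N : 1 ≤ D.N w := Nat.one_le_two_pow

lemma P_le_Q : D.P w ≤ D.Q w := by
  have h1 : 1 ≤ D.n w * D.G w := Nat.one_le_iff_ne_zero.2
    (Nat.mul_ne_zero (Nat.one_le_iff_ne_zero.1 (one_le_n D w))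
      (Nat.one_le_iff_ne_zero.1 (one_le_G D w)))
  unfold Par.Q
  exact Nat.le_mul_of_pos_left _ h1

lemma G_le_Q : D.G w ≤ D.Q w := by
  unfold Par.Q
  calc D.G w ≤ D.n w * D.G w := Nat.le_mul_of_pos_left _ (one_le_n D w)
    _ ≤ D.n w * D.G w * D.P w := Nat.le_mul_of_pos_right _ (one_le_P D w)

lemma one_le_Q : 1 ≤ D.Q w := (one_le_P D w).trans (P_le_Q D w)

lemma twoQ_le (hw : D.l + 1 ≤ w) : 2 * D.Q w ≤ D.N w :=
  calc 2 * D.Q w = D.H w := rfl
    _ ≤ D.H w * D.P w := Nat.le_mul_of_pos_right _ (one_le_P D w)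
    _ ≤ D.N w := HP_le D w hw

lemma twoG_le (hw : D.l + 1 ≤ w) : 2 * D.G w ≤ D.N w :=
  (Nat.mul_le_mul_left 2 (G_le_Q D w)).trans (twoQ_le D w hw)

lemma two_le_N (hw : D.l + 1 ≤ w) : 2 ≤ D.N w := by
  have h1 := twoG_le D w hw
  have h2 := one_le_G D w
  omega

lemma h_add_M : Par.h w + D.M w = 2 * D.n w := by
  have h1 : Par.h w ≤ 2 * D.n w := by
    unfold Par.h Par.n
    have : 2 ^ w ≤ 2 ^ (w + D.l) := Nat.pow_le_pow_right (by norm_num) (Nat.le_add_right _ _)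
    omega
  unfold Par.M
  omega

lemma HN_le (hw : D.l + 1 ≤ w) : (D.H w : ℝ) / (D.N w : ℝ) ≤ (2 : ℝ) ^ (-(w : ℝ)) := by
  have hN : (0 : ℝ) < (D.N w : ℝ) := by exact_mod_cast (one_le_N D w)
  have hP : (0 : ℝ) < (D.P w : ℝ) := by exact_mod_cast (one_le_P D w)
  have h1 : (D.H w : ℝ) * (D.P w : ℝ) ≤ (D.N w : ℝ) := by exact_mod_cast HP_le D w hw
  have h2 : (2 : ℝ) ^ w ≤ (D.P w : ℝ) := by
    have : 2 ^ w ≤ D.P w := by
      unfold Par.P
      exact Nat.pow_le_pow_right (by norm_num) (Nat.le_mul_of_pos_left _ D.hp)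
    exact_mod_cast this
  rw [Real.rpow_neg (by norm_num), Real.rpow_natCast]
  calc (D.H w : ℝ) / (D.N w : ℝ) ≤ 1 / (D.P w : ℝ) := by
        rw [div_le_div_iff₀ hN hP, one_mul]
        exact h1
    _ ≤ ((2 : ℝ) ^ w)⁻¹ := by
        rw [one_div]
        exact inv_anti₀ (by positivity) h2

lemma E_sub (hS : SpecSep) (hw : D.l + 1 ≤ w) :
    D.E w ⊆ Icc (D.τ w - 1 / (D.N w : ℝ) ^ (Par.h w)) (D.τ w) := by
  rintro x ⟨e, rfl⟩
  have hG : D.G w ≤ D.N w := by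
    have := twoG_le D w hw
    omega
  obtain ⟨h1, h2, -⟩ := hS (D.N w) (D.M w) (Par.h w) (D.G w) (two_le_N D w hw) hG e e
  simp only [mem_Icc]
  constructor
  · linarith
  · linarith

lemma E_sub_one (hS : SpecSep) (hw : D.l + 1 ≤ w) : D.E w ⊆ Icc 1 2 := by
  intro x hx
  obtain ⟨h1, h2⟩ := E_sub D w hS hw hx
  have hN : (1 : ℝ) ≤ (D.N w : ℝ) := by exact_mod_cast (one_le_N D w)
  have hN0 : (0 : ℝ) < (D.N w : ℝ) := by linarith
  have hH : (1 : ℝ) ≤ (D.H w : ℝ) := by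
    have : 1 ≤ D.H w := by
      have := one_le_Q D w
      unfold Par.H
      omega
    exact_mod_cast this
  have hh : Par.h w ≠ 0 := by
    unfold Par.h
    positivity
  have h3 : 1 / (D.N w : ℝ) ^ (Par.h w) ≤ (D.H w : ℝ) / (D.N w : ℝ) := by
    have h4 : (D.N w : ℝ) ≤ (D.N w : ℝ) ^ (Par.h w) := le_self_pow₀ hN hh
    calc 1 / (D.N w : ℝ) ^ (Par.h w) ≤ 1 / (D.N w : ℝ) := one_div_le_one_div_of_le hN0 h4
      _ ≤ (D.H w : ℝ) / (D.N w : ℝ) := by
        apply div_le_div_of_nonneg_right hH hN0.le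
  have h5 := HN_le D w hw
  have h6 : (2 : ℝ) ^ (-(w : ℝ)) ≤ 1 := by
    rw [Real.rpow_neg (by norm_num), Real.rpow_natCast]
    apply inv_le_one_of_one_le₀
    exact one_le_pow₀ (by norm_num)
  have h7 : D.τ w = 1 + (D.H w : ℝ) / (D.N w : ℝ) := rfl
  rw [h7] at h1 h2
  constructor
  · linarith
  · linarith

lemma two_pow_j : (2 : ℝ) ^ (-(D.j w : ℝ)) = 1 / (D.N w : ℝ) ^ (2 * D.n w) := by
  rw [Real.rpow_neg (by norm_num), Real.rpow_natCast, one_div]
  congr 1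
  have : 2 ^ D.j w = D.N w ^ (2 * D.n w) := by
    unfold Par.j Par.N
    rw [← pow_mul]
    congr 1
    ring
  exact_mod_cast this

lemma two_pow_half_j : (2 : ℝ) ^ (-(D.j w : ℝ) / 2) = 1 / (D.N w : ℝ) ^ (D.n w) := by
  have h1 : (-(D.j w : ℝ) / 2) = -((D.n w * (D.a * w) : ℕ) : ℝ) := by
    unfold Par.j
    push_cast
    ring
  rw [h1, Real.rpow_neg (by norm_num), Real.rpow_natCast, one_div]
  congr 1
  have : 2 ^ (D.n w * (D.a * w)) = D.N w ^ (D.n w) := by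
    unfold Par.N
    rw [← pow_mul]
    congr 1
    ring
  exact_mod_cast this

lemma two_pow_le_j (hw : D.l + 1 ≤ w) : 2 ^ w ≤ D.j w := by
  unfold Par.j Par.n
  have h1 : 2 ^ w ≤ 2 ^ (w + D.l) := Nat.pow_le_pow_right (by norm_num) (Nat.le_add_right _ _)
  have h2 : 1 ≤ D.a * w := Nat.one_le_iff_ne_zero.2 (Nat.mul_ne_zero (by have := D.ha; omega)
    (by omega))
  calc 2 ^ w ≤ 2 * 2 ^ (w + D.l) := by omega
    _ ≤ 2 * 2 ^ (w + D.l) * (D.a * w) := Nat.le_mul_of_pos_right _ h2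

/-- PARAM. -/
theorem specParam (hS : SpecSep) : SpecParam := by
  intro D w hw
  refine ⟨HP_le D w hw, twoQ_le D w hw, twoG_le D w hw, two_le_N D w hw, one_le_G D w,
    one_le_P D w, P_le_Q D w, one_le_n D w, h_add_M D w, E_sub_one D w hS hw, E_sub D w hS hw,
    ?_, ?_, two_pow_j D w, two_pow_half_j D w, two_pow_le_j D w hw⟩
  · have hN : (0 : ℝ) < (D.N w : ℝ) := by exact_mod_cast (one_le_N D w)
    have hH : (0 : ℝ) < (D.H w : ℝ) := by
      have : 0 < D.H w := by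
        have := one_le_Q D w
        unfold Par.H
        omega
      exact_mod_cast this
    have : 0 < (D.H w : ℝ) / (D.N w : ℝ) := div_pos hH hN
    have h7 : D.τ w = 1 + (D.H w : ℝ) / (D.N w : ℝ) := rfl
    rw [h7]
    linarith
  · have h7 : D.τ w = 1 + (D.H w : ℝ) / (D.N w : ℝ) := rfl
    rw [h7]
    linarith [HN_le D w hw]

end Pool.Agent.Lib.MP_c0f824_an.FT.ParamM
end

section
/-!
# MP_c0f824_an, FT: separation and characteristic of one block
-/
open MeasureTheory Set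
open scoped ENNReal ContDiff

namespace Pool.Agent.Lib.MP_c0f824_an.FT.SepCoverM

theorem dv_succ (N : ℕ) {M G : ℕ} (e : Fin (M + 1) → Fin G) :
    dv N e = (((e 0 : ℕ) : ℝ) + dv N (fun i => e i.succ)) / N := by
  unfold dv
  rw [Fin.sum_univ_succ, add_div, Finset.sum_div]
  congr 1
  · simp
  · refine Finset.sum_congr rfl fun i _ => ?_
    rw [Fin.val_succ, pow_succ (N : ℝ) ((i : ℕ) + 1), div_mul_eq_div_div]

theorem dv_zero (N : ℕ) {G : ℕ} (e : Fin 0 → Fin G) : dv N e = 0 := by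
  simp [dv]

theorem dv_nonneg (N : ℕ) {M G : ℕ} (e : Fin M → Fin G) : 0 ≤ dv N e :=
  Finset.sum_nonneg fun _ _ => by positivity

theorem dv_le {N : ℕ} (hN : 2 ≤ N) : ∀ {M G : ℕ} (_ : G ≤ N) (e : Fin M → Fin G),
    dv N e ≤ 1 - 1 / (N : ℝ) ^ M
  | 0, _, _, e => by simp [dv_zero]
  | M + 1, G, hG, e => by
    have ih := dv_le hN hG (fun i => e i.succ)
    have hN0 : (0 : ℝ) < N := by
      have : 0 < N := by omega
      exact_mod_cast this
    have h1 : ((e 0 : ℕ) : ℝ) + 1 ≤ N := by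
      have : (e 0 : ℕ) + 1 ≤ N := by
        have := (e 0).2
        omega
      exact_mod_cast this
    rw [dv_succ, div_le_iff₀ hN0]
    have h2 : (1 - 1 / (N : ℝ) ^ (M + 1)) * N = N - 1 / (N : ℝ) ^ M := by
      rw [pow_succ]
      field_simp
    rw [h2]
    linarith

theorem dv_le_half {N : ℕ} (hN : 2 ≤ N) : ∀ {M G : ℕ} (_ : 2 * G ≤ N) (e : Fin M → Fin G),
    dv N e ≤ 1 / 2
  | 0, _, _, e => by simp [dv_zero]
  | M + 1, G, hG, e => by
    have ih := dv_le_half hN hG (fun i => e i.succ)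
    have hN0 : (0 : ℝ) < N := by
      have : 0 < N := by omega
      exact_mod_cast this
    have h1 : 2 * ((e 0 : ℕ) : ℝ) + 2 ≤ N := by
      have : 2 * (e 0 : ℕ) + 2 ≤ N := by
        have := (e 0).2
        omega
      exact_mod_cast this
    rw [dv_succ, div_le_iff₀ hN0]
    linarith

theorem dv_sep {N : ℕ} (hN : 2 ≤ N) : ∀ {M G : ℕ} (_ : G ≤ N) (e e' : Fin M → Fin G),
    e ≠ e' → 1 / (N : ℝ) ^ M ≤ |dv N e - dv N e'|
  | 0, _, _, e, e', h => absurd (Subsingleton.elim e e') h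
  | M + 1, G, hG, e, e', h => by
    have hN0 : (0 : ℝ) < N := by
      have : 0 < N := by omega
      exact_mod_cast this
    have h1 : dv N e - dv N e' = ((((e 0 : ℕ) : ℝ) - ((e' 0 : ℕ) : ℝ)) +
        (dv N (fun i => e i.succ) - dv N (fun i => e' i.succ))) / N := by
      rw [dv_succ N e, dv_succ N e']
      ring
    rw [h1, abs_div, abs_of_pos hN0, pow_succ, ← div_div, div_le_div_iff_of_pos_right hN0]
    by_cases h0 : e 0 = e' 0
    · have ht : (fun i => e i.succ) ≠ fun i : Fin M => e' i.succ := by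
        intro h2
        apply h
        funext i
        refine Fin.cases h0 (fun j => congrFun h2 j) i
      rw [h0, sub_self, zero_add]
      exact dv_sep hN hG _ _ ht
    · have h2 : (1 : ℝ) ≤ |((e 0 : ℕ) : ℝ) - ((e' 0 : ℕ) : ℝ)| := by
        have h3 : ((e 0 : ℕ) : ℤ) - ((e' 0 : ℕ) : ℤ) ≠ 0 := by
          intro h4
          apply h0
          apply Fin.ext
          omega
        have h5 : (1 : ℤ) ≤ |((e 0 : ℕ) : ℤ) - ((e' 0 : ℕ) : ℤ)| := Int.one_le_abs h3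
        exact_mod_cast h5
      have h3 := dv_nonneg N (fun i => e i.succ)
      have h4 := dv_nonneg N (fun i => e' i.succ)
      have h5 := dv_le hN hG (fun i => e i.succ)
      have h6 := dv_le hN hG (fun i => e' i.succ)
      have h7 : |dv N (fun i => e i.succ) - dv N (fun i => e' i.succ)| ≤ 1 - 1 / (N : ℝ) ^ M := by
        rw [abs_le]
        constructor <;> linarith
      have h8 := abs_sub_abs_le_abs_sub (((e 0 : ℕ) : ℝ) - ((e' 0 : ℕ) : ℝ))
        (-(dv N (fun i => e i.succ) - dv N (fun i => e' i.succ)))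
      rw [abs_neg, sub_neg_eq_add] at h8
      linarith

/-! ### coverings -/

/-- `A` is covered by `n` open intervals of length `δ` -/
def Cv (A : Set ℝ) (δ : ℝ) (n : ℕ) : Prop := ∃ c : Fin n → ℝ, A ⊆ ⋃ i, Ioo (c i) (c i + δ)

theorem Cv.cov_le {A : Set ℝ} {δ : ℝ} {n : ℕ} (h : Cv A δ n) : cov A δ ≤ n := Nat.sInf_le h

theorem Cv.mono {A B : Set ℝ} {δ : ℝ} {n : ℕ} (h : Cv B δ n) (hAB : A ⊆ B) : Cv A δ n := by
  obtain ⟨c, hc⟩ := h
  exact ⟨c, hAB.trans hc⟩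

theorem Cv.mono_n {A : Set ℝ} {δ : ℝ} {n m : ℕ} (h : Cv A δ n) (hnm : n ≤ m) : Cv A δ m := by
  obtain ⟨c, hc⟩ := h
  refine ⟨fun i => if hi : (i : ℕ) < n then c ⟨i, hi⟩ else 0, fun x hx => ?_⟩
  obtain ⟨i, hi⟩ := mem_iUnion.1 (hc hx)
  refine mem_iUnion.2 ⟨⟨i, lt_of_lt_of_le i.2 hnm⟩, ?_⟩
  simpa using hi

theorem Cv.one {A : Set ℝ} {δ a b : ℝ} (hA : A ⊆ Icc a b) (h : b - a < δ) : Cv A δ 1 := by
  refine ⟨fun _ => (a + b - δ) / 2, fun x hx => ?_⟩
  obtain ⟨h1, h2⟩ := hA hx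
  refine mem_iUnion.2 ⟨0, ?_, ?_⟩ <;> dsimp only <;> linarith

theorem Cv.union {G : ℕ} {A : Fin G → Set ℝ} {δ : ℝ} {n : ℕ} (h : ∀ a, Cv (A a) δ n) :
    Cv (⋃ a, A a) δ (G * n) := by
  choose c hc using h
  refine ⟨fun i => c (finProdFinEquiv.symm i).1 (finProdFinEquiv.symm i).2, fun x hx => ?_⟩
  obtain ⟨a, ha⟩ := mem_iUnion.1 hx
  obtain ⟨i, hi⟩ := mem_iUnion.1 (hc a ha)
  refine mem_iUnion.2 ⟨finProdFinEquiv (a, i), ?_⟩
  simpa using hi

/-- the scaled set of times -/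
def AA (N M G : ℕ) (ρ τ : ℝ) : Set ℝ := range fun e : Fin M → Fin G => τ - ρ * dv N e

theorem AA_sub {N M G : ℕ} (hN : 2 ≤ N) (hG : 2 * G ≤ N) {ρ τ : ℝ} (hρ : 0 ≤ ρ) :
    AA N M G ρ τ ⊆ Icc (τ - ρ / 2) τ := by
  rintro _ ⟨e, rfl⟩
  have h1 := dv_nonneg N e
  have h2 := dv_le_half hN hG e
  constructor <;> dsimp only <;> nlinarith

theorem AA_zero {N G : ℕ} {ρ τ : ℝ} : AA N 0 G ρ τ ⊆ Icc τ τ := by
  rintro _ ⟨e, rfl⟩
  simp [dv_zero]

theorem AA_succ {N M G : ℕ} {ρ τ : ℝ} :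
    AA N (M + 1) G ρ τ ⊆ ⋃ a : Fin G, AA N M G (ρ / N) (τ - ρ * ((a : ℕ) : ℝ) / N) := by
  rintro _ ⟨e, rfl⟩
  refine mem_iUnion.2 ⟨e 0, (fun i => e i.succ), ?_⟩
  dsimp only
  rw [dv_succ N e]
  ring

/-- covering of the whole set -/
theorem cv_all {N G : ℕ} (hN : 2 ≤ N) (hG1 : 1 ≤ G) (hG : 2 * G ≤ N) {δ : ℝ} (hδ : 0 < δ) :
    ∀ (k M : ℕ) (ρ τ : ℝ), 0 ≤ ρ → ρ / (N : ℝ) ^ k / 2 < δ → Cv (AA N M G ρ τ) δ (G ^ k)
  | 0, M, ρ, τ, hρ, h => by
    rw [pow_zero, div_one] at h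
    exact Cv.one (AA_sub hN hG hρ) (by linarith)
  | k + 1, 0, ρ, τ, hρ, h =>
    (Cv.one AA_zero (by simpa using hδ)).mono_n (Nat.one_le_pow _ _ hG1)
  | k + 1, M + 1, ρ, τ, hρ, h => by
    have hN0 : (0 : ℝ) < N := by
      have : 0 < N := by omega
      exact_mod_cast this
    rw [pow_succ, mul_comm]
    refine (Cv.union fun a => cv_all hN hG1 hG hδ k M (ρ / N) (τ - ρ * ((a : ℕ) : ℝ) / N)
      (by positivity) ?_).mono AA_succ
    rw [show ρ / (N : ℝ) / (N : ℝ) ^ k = ρ / (N : ℝ) ^ (k + 1) by rw [div_div, pow_succ']]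
    exact h

/-- covering of the part in an interval -/
theorem cv_loc {N G : ℕ} (hN : 2 ≤ N) (hG1 : 1 ≤ G) (hG : 2 * G ≤ N) {α : ℝ} (hα : 0 < α)
    (hα1 : α ≤ 1) (hGα : (G : ℝ) ≤ (N : ℝ) ^ α) {x R δ : ℝ} (hδ : 0 < δ) (hR : δ ≤ R) :
    ∀ (M : ℕ) (ρ τ : ℝ), 0 ≤ ρ →
      ∃ n : ℕ, Cv (AA N M G ρ τ ∩ Icc x (x + R)) δ n ∧ (n : ℝ) ≤ (N : ℝ) ^ 2 * (R / δ) ^ α := by
  have hN0 : (0 : ℝ) < N := by
    have : 0 < N := by omega
    exact_mod_cast this
  have hN1 : (1 : ℝ) ≤ N := by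
    have : 1 ≤ N := by omega
    exact_mod_cast this
  have hRδ : 1 ≤ R / δ := by rwa [le_div_iff₀ hδ, one_mul]
  have h1 : (1 : ℝ) ≤ (N : ℝ) ^ 2 * (R / δ) ^ α :=
    one_le_mul_of_one_le_of_one_le (one_le_pow₀ hN1) (Real.one_le_rpow hRδ hα.le)
  intro M
  induction M with
  | zero =>
    intro ρ τ hρ
    refine ⟨1, (Cv.one AA_zero (by simpa using hδ)).mono inter_subset_left, ?_⟩
    rw [Nat.cast_one]
    exact h1
  | succ M ih =>
    intro ρ τ hρ
    by_cases hc : R < ρ / (2 * N)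
    · -- one class
      by_cases he : (AA N (M + 1) G ρ τ ∩ Icc x (x + R)).Nonempty
      · obtain ⟨_, ⟨⟨e, rfl⟩, he2⟩⟩ := he
        obtain ⟨n, hn, hn2⟩ := ih (ρ / N) (τ - ρ * ((e 0 : ℕ) : ℝ) / N) (by positivity)
        refine ⟨n, hn.mono ?_, hn2⟩
        rintro _ ⟨⟨e', rfl⟩, he'2⟩
        refine ⟨⟨fun i => e' i.succ, ?_⟩, he'2⟩
        have h0 : e' 0 = e 0 := by
          by_contra hne
          have h3 := dv_nonneg N (fun i => e i.succ)
          have h4 := dv_nonneg N (fun i => e' i.succ)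
          have h5 := dv_le_half hN hG (fun i => e i.succ)
          have h6 := dv_le_half hN hG (fun i => e' i.succ)
          have h7 : (1 : ℝ) ≤ |((e' 0 : ℕ) : ℝ) - ((e 0 : ℕ) : ℝ)| := by
            have h3 : ((e' 0 : ℕ) : ℤ) - ((e 0 : ℕ) : ℤ) ≠ 0 := by
              intro h4
              apply hne
              apply Fin.ext
              omega
            have h5 : (1 : ℤ) ≤ |((e' 0 : ℕ) : ℤ) - ((e 0 : ℕ) : ℤ)| := Int.one_le_abs h3
            exact_mod_cast h5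
          obtain ⟨a1, a2⟩ := he2
          obtain ⟨b1, b2⟩ := he'2
          dsimp only at a1 a2 b1 b2
          rw [dv_succ N e] at a1 a2
          rw [dv_succ N e'] at b1 b2
          have e1 : ρ * ((((e 0 : ℕ) : ℝ) + dv N (fun i => e i.succ)) / N) =
              ρ / N * (((e 0 : ℕ) : ℝ) + dv N (fun i => e i.succ)) := by ring
          have e2 : ρ * ((((e' 0 : ℕ) : ℝ) + dv N (fun i => e' i.succ)) / N) =
              ρ / N * (((e' 0 : ℕ) : ℝ) + dv N (fun i => e' i.succ)) := by ring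
          rw [e1] at a1 a2
          rw [e2] at b1 b2
          have e3 : ρ / (2 * N) = ρ / N / 2 := by
            rw [mul_comm, div_div]
          rw [e3] at hc
          have hp : 0 < ρ / N := by linarith
          rcases le_or_gt 0 (((e' 0 : ℕ) : ℝ) - ((e 0 : ℕ) : ℝ)) with hs | hs
          · rw [abs_of_nonneg hs] at h7
            nlinarith
          · rw [abs_of_neg hs] at h7
            nlinarith
        dsimp only
        rw [dv_succ N e', h0]
        ring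
      · refine ⟨1, ?_, ?_⟩
        · rw [not_nonempty_iff_eq_empty.1 he]
          exact ⟨fun _ => 0, empty_subset _⟩
        · rw [Nat.cast_one]
          exact h1
    · push Not at hc
      -- smallest k with ρ N^{-k} / 2 < δ
      have hex : ∃ k : ℕ, ρ / (N : ℝ) ^ k / 2 < δ := by
        obtain ⟨k, hk⟩ := pow_unbounded_of_one_lt (ρ / δ)
          (show (1 : ℝ) < N by
            have : 1 < N := by omega
            exact_mod_cast this)
        refine ⟨k, ?_⟩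
        have hp : (0 : ℝ) < (N : ℝ) ^ k := by positivity
        rw [div_lt_iff₀ hδ] at hk
        have : ρ / (N : ℝ) ^ k < δ := by
          rw [div_lt_iff₀ hp]
          linarith
        linarith [div_nonneg hρ hp.le]
      classical
      let k := Nat.find hex
      have hk : ρ / (N : ℝ) ^ k / 2 < δ := Nat.find_spec hex
      refine ⟨G ^ k, (cv_all hN hG1 hG hδ k (M + 1) ρ τ hρ hk).mono inter_subset_left, ?_⟩
      have hNk : (N : ℝ) ^ k ≤ (N : ℝ) ^ 2 * (R / δ) := by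
        rcases Nat.eq_zero_or_pos k with h0 | h0
        · rw [h0, pow_zero]
          exact one_le_mul_of_one_le_of_one_le (one_le_pow₀ hN1) hRδ
        · have hmin : ¬ ρ / (N : ℝ) ^ (k - 1) / 2 < δ := Nat.find_min hex (by omega)
          push Not at hmin
          have hkk : (N : ℝ) ^ k = (N : ℝ) ^ (k - 1) * N := by
            rw [← pow_succ]
            congr 1
            omega
          have hp : (0 : ℝ) < (N : ℝ) ^ (k - 1) := by positivity
          rw [le_div_iff₀ (by norm_num : (0 : ℝ) < 2), le_div_iff₀ hp] at hmin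
          rw [div_le_iff₀ (by positivity : (0 : ℝ) < 2 * N)] at hc
          rw [hkk, mul_div_assoc', le_div_iff₀ hδ]
          have h2 : (N : ℝ) ^ (k - 1) * δ ≤ R * N := by nlinarith
          nlinarith [mul_le_mul_of_nonneg_right h2 hN0.le]
      push_cast
      calc (G : ℝ) ^ k ≤ ((N : ℝ) ^ α) ^ k := by gcongr
        _ = ((N : ℝ) ^ k) ^ α := by
          rw [← Real.rpow_natCast, ← Real.rpow_mul hN0.le, mul_comm, Real.rpow_mul hN0.le,
            Real.rpow_natCast]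
        _ ≤ ((N : ℝ) ^ 2 * (R / δ)) ^ α := by
          exact Real.rpow_le_rpow (by positivity) hNk hα.le
        _ = ((N : ℝ) ^ 2) ^ α * (R / δ) ^ α :=
          Real.mul_rpow (by positivity) (by positivity)
        _ ≤ (N : ℝ) ^ 2 * (R / δ) ^ α := by
          gcongr
          calc ((N : ℝ) ^ 2) ^ α ≤ ((N : ℝ) ^ 2) ^ (1 : ℝ) :=
                Real.rpow_le_rpow_of_exponent_le (one_le_pow₀ hN1) hα1
            _ = (N : ℝ) ^ 2 := Real.rpow_one _

end Pool.Agent.Lib.MP_c0f824_an.FT.SepCoverM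

namespace Pool.Agent.Lib.MP_c0f824_an.FT

open SepCoverM

theorem specSep : SpecSep := by
  intro N M h G hN hG e e'
  have hN0 : (0 : ℝ) < N := by
    have : 0 < N := by omega
    exact_mod_cast this
  have hp : (0 : ℝ) < (N : ℝ) ^ h := by positivity
  refine ⟨div_nonneg (dv_nonneg N e) hp.le, ?_, fun hne => ?_⟩
  · rw [div_le_div_iff_of_pos_right hp]
    have h1 := dv_le hN hG e
    have h2 : (0 : ℝ) < 1 / (N : ℝ) ^ M := by positivity
    linarith
  · rw [← sub_div, abs_div, abs_of_pos hp, pow_add, mul_comm, ← div_div,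
      div_le_div_iff_of_pos_right hp]
    exact dv_sep hN hG e e' hne

theorem specCover : SpecCover := by
  intro N M h G τ α hα hα1 hN hG1 hG hGα x R δ hδ hR _
  have hN0 : (0 : ℝ) < N := by
    have : 0 < N := by omega
    exact_mod_cast this
  obtain ⟨n, hn, hn2⟩ := cv_loc hN hG1 hG hα hα1 hGα hδ hR (x := x) M (1 / (N : ℝ) ^ h) τ
    (by positivity)
  have hset : times N M h G τ = AA N M G (1 / (N : ℝ) ^ h) τ := by
    unfold times AA
    congr 1
    funext e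
    ring
  rw [hset]
  have h1 : (cov (AA N M G (1 / (N : ℝ) ^ h) τ ∩ Icc x (x + R)) δ : ℝ) ≤ n := by
    exact_mod_cast hn.cov_le
  have h2 : (0 : ℝ) ≤ (N : ℝ) ^ 2 * (R / δ) ^ α := by
    have : 0 ≤ R / δ := div_nonneg (hδ.le.trans hR) hδ.le
    positivity
  calc (cov (AA N M G (1 / (N : ℝ) ^ h) τ ∩ Icc x (x + R)) δ : ℝ) ≤ n := h1
    _ ≤ (N : ℝ) ^ 2 * (R / δ) ^ α := hn2
    _ ≤ 3 * (N : ℝ) ^ 2 * (R / δ) ^ α := by nlinarith

end Pool.Agent.Lib.MP_c0f824_an.FT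
end

section
/-!
# MP_c0f824_an, FT : SIGNS (random signs)
-/
set_option autoImplicit false

open MeasureTheory Set
open scoped ENNReal ContDiff

namespace Pool.Agent.Lib.MP_c0f824_an.FT.SignsM

/-- the sign of a bit -/
noncomputable def sg (b : Bool) : ℝ := if b then 1 else -1

theorem sg_mul_self (b : Bool) : sg b * sg b = 1 := by cases b <;> simp [sg]

theorem sg_eq (b : Bool) : sg b = 1 ∨ sg b = -1 := by cases b <;> simp [sg]

theorem sg_not (b : Bool) : sg (!b) = -sg b := by cases b <;> simp [sg]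

theorem sum_sg {ι : Type} [Fintype ι] [DecidableEq ι] (i j : ι) :
    ∑ e : ι → Bool, sg (e i) * sg (e j) = if i = j then 2 ^ Fintype.card ι else 0 := by
  split_ifs with h
  · subst h
    simp [sg_mul_self]
  · have hji : j ≠ i := fun h' => h h'.symm
    refine Finset.sum_involution (fun e _ => Function.update e i (!(e i))) ?_ ?_ ?_ ?_
    · intro e _
      rw [Function.update_self, Function.update_of_ne hji, sg_not]
      ring
    · intro e _ _ h'
      have := congrFun h' i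
      rw [Function.update_self] at this
      exact absurd this (by cases e i <;> simp)
    · intro e _
      exact Finset.mem_univ _
    · intro e _
      simp

theorem norm_sum_sq {ι : Type} [Fintype ι] (s : ι → ℝ) (a : ι → ℂ) :
    ‖∑ i, (s i : ℂ) * a i‖ ^ 2 =
      ∑ i, ∑ j, s i * s j * (a i * (starRingEnd ℂ) (a j)).re := by
  have h1 : ‖∑ i, (s i : ℂ) * a i‖ ^ 2 =
      ((∑ i, (s i : ℂ) * a i) * (starRingEnd ℂ) (∑ i, (s i : ℂ) * a i)).re := by
    rw [Complex.mul_conj, Complex.ofReal_re, Complex.normSq_eq_norm_sq]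
  rw [h1, map_sum, Finset.sum_mul_sum, Complex.re_sum]
  refine Finset.sum_congr rfl fun i _ => ?_
  rw [Complex.re_sum]
  refine Finset.sum_congr rfl fun j _ => ?_
  rw [map_mul, Complex.conj_ofReal]
  have h2 : (s i : ℂ) * a i * ((s j : ℂ) * (starRingEnd ℂ) (a j)) =
      ((s i * s j : ℝ) : ℂ) * (a i * (starRingEnd ℂ) (a j)) := by
    push_cast
    ring
  rw [h2, Complex.re_ofReal_mul]

theorem sum_norm_sq {ι : Type} [Fintype ι] [DecidableEq ι] (a : ι → ℂ) :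
    ∑ e : ι → Bool, ‖∑ i, (sg (e i) : ℂ) * a i‖ ^ 2 =
      2 ^ Fintype.card ι * ∑ i, ‖a i‖ ^ 2 := by
  have h1 : ∑ e : ι → Bool, ‖∑ i, (sg (e i) : ℂ) * a i‖ ^ 2 =
      ∑ i, ∑ j, (∑ e : ι → Bool, sg (e i) * sg (e j)) * (a i * (starRingEnd ℂ) (a j)).re := by
    rw [Finset.sum_congr rfl fun e _ => norm_sum_sq (fun i => sg (e i)) a, Finset.sum_comm]
    refine Finset.sum_congr rfl fun i _ => ?_
    rw [Finset.sum_comm]
    refine Finset.sum_congr rfl fun j _ => ?_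
    rw [Finset.sum_mul]
  rw [h1, Finset.mul_sum]
  refine Finset.sum_congr rfl fun i _ => ?_
  rw [Finset.sum_eq_single i]
  · rw [sum_sg, if_pos rfl, Complex.mul_conj, Complex.ofReal_re, Complex.normSq_eq_norm_sq]
  · intro j _ hj
    rw [sum_sg, if_neg (fun h => hj h.symm), zero_mul]
  · intro h
    exact absurd (Finset.mem_univ i) h

theorem enorm_rpow_two (z : ℂ) : ‖z‖ₑ ^ (2 : ℝ) = ENNReal.ofReal (‖z‖ ^ 2) := by
  rw [← ofReal_norm_eq_enorm, ENNReal.ofReal_rpow_of_nonneg (norm_nonneg _) (by norm_num)]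
  norm_num

theorem avg_sq {ι : Type} [Fintype ι] [DecidableEq ι] (a : ι → ℂ) :
    ∑ e : ι → Bool, ((2 : ℝ≥0∞) ^ Fintype.card ι)⁻¹ * ‖∑ i, (sg (e i) : ℂ) * a i‖ₑ ^ (2 : ℝ) =
      ∑ i, ‖a i‖ₑ ^ (2 : ℝ) := by
  have h0 : (2 : ℝ≥0∞) ^ Fintype.card ι ≠ 0 := by positivity
  have h0' : (2 : ℝ≥0∞) ^ Fintype.card ι ≠ ⊤ := ENNReal.pow_ne_top (by norm_num)
  rw [← Finset.mul_sum]
  simp only [enorm_rpow_two]
  rw [← ENNReal.ofReal_sum_of_nonneg fun e _ => by positivity,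
    ← ENNReal.ofReal_sum_of_nonneg fun e _ => by positivity, sum_norm_sq,
    ENNReal.ofReal_mul (by positivity), ENNReal.ofReal_pow (by norm_num), ENNReal.ofReal_ofNat,
    ← mul_assoc, ENNReal.inv_mul_cancel h0 h0', one_mul]

/-- Jensen -/
theorem pointwise {ι : Type} [Fintype ι] [DecidableEq ι] (a : ι → ℂ) (q : ℝ) (hq : 2 ≤ q) :
    (∑ i, ‖a i‖ₑ ^ (2 : ℝ)) ^ (q / 2) ≤
      ∑ e : ι → Bool, ((2 : ℝ≥0∞) ^ Fintype.card ι)⁻¹ * ‖∑ i, (sg (e i) : ℂ) * a i‖ₑ ^ q := by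
  have h0 : (2 : ℝ≥0∞) ^ Fintype.card ι ≠ 0 := by positivity
  have h0' : (2 : ℝ≥0∞) ^ Fintype.card ι ≠ ⊤ := ENNReal.pow_ne_top (by norm_num)
  have hw : ∑ _e : ι → Bool, ((2 : ℝ≥0∞) ^ Fintype.card ι)⁻¹ = 1 := by
    rw [Finset.sum_const, nsmul_eq_mul, Finset.card_univ, Fintype.card_fun, Fintype.card_bool]
    push_cast
    exact ENNReal.mul_inv_cancel h0 h0'
  have h1 := ENNReal.rpow_arith_mean_le_arith_mean_rpow (Finset.univ : Finset (ι → Bool))
    (fun _ => ((2 : ℝ≥0∞) ^ Fintype.card ι)⁻¹)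
    (fun e => ‖∑ i, (sg (e i) : ℂ) * a i‖ₑ ^ (2 : ℝ)) hw (p := q / 2) (by linarith)
  rw [avg_sq] at h1
  refine h1.trans (le_of_eq ?_)
  refine Finset.sum_congr rfl fun e _ => ?_
  rw [← ENNReal.rpow_mul, mul_div_cancel₀ q two_ne_zero]

theorem specSigns : SpecSigns := by
  classical
  intro ι X _ _ μ F u q hq hu
  let S : (ι → Bool) → ℝ≥0∞ := fun e =>
    ∑ t ∈ F, ∫⁻ x, ‖∑ i, ((sg (e i) : ℝ) : ℂ) * u t i x‖ₑ ^ q ∂μ
  have h0 : (2 : ℝ≥0∞) ^ Fintype.card ι ≠ 0 := by positivity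
  have h0' : (2 : ℝ≥0∞) ^ Fintype.card ι ≠ ⊤ := ENNReal.pow_ne_top (by norm_num)
  obtain ⟨e₀, -, he₀⟩ := Finset.exists_max_image (Finset.univ : Finset (ι → Bool)) S
    ⟨fun _ => true, Finset.mem_univ _⟩
  refine ⟨fun i => sg (e₀ i), fun i => sg_eq _, ?_⟩
  have hmeas : ∀ (e : ι → Bool) (t : ℝ),
      Measurable fun x => ‖∑ i, ((sg (e i) : ℝ) : ℂ) * u t i x‖ₑ ^ q := by
    intro e t
    refine Measurable.pow_const ?_ q
    refine Measurable.enorm ?_
    exact Finset.measurable_sum _ fun i _ => (hu t i).const_mul _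
  have h1 : ∑ t ∈ F, ∫⁻ x, (∑ i, ‖u t i x‖ₑ ^ (2 : ℝ)) ^ (q / 2) ∂μ ≤
      ∑ t ∈ F, ∑ e : ι → Bool, ((2 : ℝ≥0∞) ^ Fintype.card ι)⁻¹ *
        ∫⁻ x, ‖∑ i, ((sg (e i) : ℝ) : ℂ) * u t i x‖ₑ ^ q ∂μ := by
    refine Finset.sum_le_sum fun t _ => ?_
    refine (lintegral_mono fun x => pointwise (fun i => u t i x) q hq).trans (le_of_eq ?_)
    rw [lintegral_finsetSum _ fun e _ => (hmeas e t).const_mul _]
    refine Finset.sum_congr rfl fun e _ => ?_
    rw [lintegral_const_mul _ (hmeas e t)]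
  refine h1.trans ?_
  rw [Finset.sum_comm]
  have h2 : ∑ e : ι → Bool, ∑ t ∈ F, ((2 : ℝ≥0∞) ^ Fintype.card ι)⁻¹ *
      ∫⁻ x, ‖∑ i, ((sg (e i) : ℝ) : ℂ) * u t i x‖ₑ ^ q ∂μ =
      ((2 : ℝ≥0∞) ^ Fintype.card ι)⁻¹ * ∑ e : ι → Bool, S e := by
    rw [Finset.mul_sum]
    refine Finset.sum_congr rfl fun e _ => ?_
    rw [Finset.mul_sum]
  rw [h2]
  calc ((2 : ℝ≥0∞) ^ Fintype.card ι)⁻¹ * ∑ e : ι → Bool, S e
      ≤ ((2 : ℝ≥0∞) ^ Fintype.card ι)⁻¹ * ∑ _e : ι → Bool, S e₀ := by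
        gcongr with e _
        exact he₀ e (Finset.mem_univ _)
    _ = S e₀ := by
        rw [Finset.sum_const, nsmul_eq_mul, Finset.card_univ, Fintype.card_fun,
          Fintype.card_bool, ← mul_assoc]
        push_cast
        rw [ENNReal.inv_mul_cancel h0 h0', one_mul]

end Pool.Agent.Lib.MP_c0f824_an.FT.SignsM
end

section
/-!
# The characteristic of the union of the blocks
-/
open Set
open scoped ENNReal ContDiff

namespace Pool.Agent.Lib.MP_c0f824_an.FT.UnionM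

theorem cov_le {A : Set ℝ} {δ : ℝ} (s : Finset ℝ) (h : A ⊆ ⋃ c ∈ s, Ioo c (c + δ)) :
    cov A δ ≤ s.card := by
  apply Nat.sInf_le
  refine ⟨fun i => (s.equivFin.symm i : ℝ), fun x hx => ?_⟩
  have h1 := h hx
  rw [mem_iUnion₂] at h1
  obtain ⟨c, hc, hx⟩ := h1
  rw [mem_iUnion]
  refine ⟨s.equivFin ⟨c, hc⟩, ?_⟩
  simpa using hx

theorem exists_cover {A : Set ℝ} (hA : A.Finite) {δ : ℝ} (hδ : 0 < δ) :
    ∃ s : Finset ℝ, s.card ≤ cov A δ ∧ A ⊆ ⋃ c ∈ s, Ioo c (c + δ) := by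
  classical
  have hne : {n : ℕ | ∃ c : Fin n → ℝ, A ⊆ ⋃ i, Ioo (c i) (c i + δ)}.Nonempty := by
    refine ⟨hA.toFinset.card, fun i => (hA.toFinset.equivFin.symm i : ℝ) - δ / 2, ?_⟩
    intro x hx
    rw [mem_iUnion]
    refine ⟨hA.toFinset.equivFin ⟨x, hA.mem_toFinset.2 hx⟩, ?_⟩
    simp only [Equiv.symm_apply_apply]
    constructor <;> linarith
  obtain ⟨c, hc⟩ := Nat.sInf_mem hne
  refine ⟨Finset.univ.image c, ?_, ?_⟩
  · refine Finset.card_image_le.trans ?_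
    rw [Finset.card_univ, Fintype.card_fin]
    exact le_rfl
  · intro x hx
    have h1 := hc hx
    rw [mem_iUnion] at h1
    obtain ⟨i, hi⟩ := h1
    rw [mem_iUnion₂]
    exact ⟨c i, Finset.mem_image_of_mem _ (Finset.mem_univ i), hi⟩

theorem E_finite (D : Par) (w : ℕ) : (D.E w).Finite := finite_range _

/-- one block -/
theorem block (hC : SpecCover) (hP : SpecParam) (D : Par) (α : ℝ) (hα : 0 < α) (hα1 : α < 1)
    (hg : (D.g : ℝ) ≤ α * D.a) (w : ℕ) (hw : D.l + 1 ≤ w) {δ a b Λ : ℝ} (hδ : 0 < δ)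
    (ha : 1 ≤ a) (hb : b ≤ 2) (hab : δ ≤ b - a) (hΛ : (2 : ℝ) ^ Λ = 2 / δ) (hΛ1 : 1 ≤ Λ) :
    ∃ s : Finset ℝ, (s.card : ℝ) ≤ 3 * Λ ^ (2 * D.a) * ((b - a) / δ) ^ α ∧
      D.E w ∩ Icc a b ⊆ ⋃ c ∈ s, Ioo c (c + δ) := by
  obtain ⟨q1, q2, q3, q4, q5, q6, q7, q8, q9, q10, q11, q12, q13, q14, q15, q16⟩ := hP D w hw
  have hX : 1 ≤ ((b - a) / δ) ^ α :=
    Real.one_le_rpow ((one_le_div hδ).2 hab) hα.le
  have hΛa : 1 ≤ Λ ^ (2 * D.a) := one_le_pow₀ hΛ1
  have hw1 : 1 ≤ w := by omega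
  have ha1 : 1 ≤ D.a := by have := D.ha; omega
  have hN0 : (0 : ℝ) < D.N w := by exact_mod_cast (by omega : 0 < D.N w)
  rcases lt_or_ge (1 / (D.N w : ℝ) ^ (Par.h w)) (δ / 2) with hcase | hcase
  · refine ⟨{D.τ w - δ / 2 - δ / 4}, ?_, ?_⟩
    · rw [Finset.card_singleton, Nat.cast_one]
      nlinarith
    · rintro x ⟨hx, _⟩
      have h1 := q11 hx
      rw [mem_iUnion₂]
      refine ⟨_, Finset.mem_singleton_self _, ?_, ?_⟩
      · linarith [h1.1]
      · linarith [h1.2]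
  · have h1 : (D.N w : ℝ) ^ (Par.h w) ≤ (2 : ℝ) ^ Λ := by
      rw [hΛ, le_div_iff₀ hδ]
      have h2 : δ / 2 * (D.N w : ℝ) ^ (Par.h w) ≤ 1 := by
        rwa [le_div_iff₀ (by positivity)] at hcase
      linarith
    have h2 : (D.N w : ℝ) ^ (Par.h w) = (2 : ℝ) ^ ((D.a * w * 2 ^ w : ℕ) : ℝ) := by
      rw [Real.rpow_natCast]
      unfold Par.N Par.h
      push_cast
      rw [← pow_mul]
    rw [h2, Real.rpow_le_rpow_left_iff one_lt_two] at h1
    have h3 : ((2 : ℝ) ^ w) ≤ Λ := by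
      refine le_trans ?_ h1
      have h4 : 2 ^ w ≤ D.a * w * 2 ^ w := by
        have h5 : 1 ≤ D.a * w := Nat.one_le_iff_ne_zero.2 (by positivity)
        nlinarith [Nat.zero_le (2 ^ w)]
      exact_mod_cast h4
    have h4 : (D.N w : ℝ) ≤ Λ ^ D.a := by
      have : (D.N w : ℝ) = ((2 : ℝ) ^ w) ^ D.a := by
        unfold Par.N
        push_cast
        rw [← pow_mul, mul_comm]
      rw [this]
      exact pow_le_pow_left₀ (by positivity) h3 _
    have h5 : (D.N w : ℝ) ^ 2 ≤ Λ ^ (2 * D.a) := by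
      rw [mul_comm 2 D.a, pow_mul]
      exact pow_le_pow_left₀ hN0.le h4 2
    have hG : (D.G w : ℝ) ≤ (D.N w : ℝ) ^ α := by
      unfold Par.G Par.N
      push_cast
      rw [← Real.rpow_natCast 2 (D.g * w), ← Real.rpow_natCast 2 (D.a * w), ← Real.rpow_mul two_pos.le]
      apply Real.rpow_le_rpow_of_exponent_le one_le_two
      push_cast
      have : (0 : ℝ) ≤ w := Nat.cast_nonneg w
      nlinarith
    have h6 := hC (D.N w) (D.M w) (Par.h w) (D.G w) (D.τ w) α hα hα1.le q4 q5 q3 hG a (b - a) δ hδ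
      hab (by linarith)
    rw [add_sub_cancel] at h6
    obtain ⟨s, hs, hcov⟩ := exists_cover ((E_finite D w).inter_of_left (Icc a b)) hδ
    refine ⟨s, ?_, hcov⟩
    have h7 : (s.card : ℝ) ≤ (cov (D.E w ∩ Icc a b) δ : ℝ) := by exact_mod_cast hs
    refine (h7.trans h6).trans ?_
    apply mul_le_mul_of_nonneg_right _ (by linarith)
    linarith

theorem specUnion (hC : SpecCover) (hP : SpecParam) : SpecUnion := by
  classical
  intro D α hα hα1 hg w₀ hw₀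
  refine ⟨7 / (Real.log 2) ^ (2 * D.a + 1), ?_⟩
  intro δ a b hδ hδ1 ha hb hab
  set Λ : ℝ := Real.logb 2 (2 / δ) with hΛdef
  have hl2 : 0 < Real.log 2 := Real.log_pos one_lt_two
  have h2δ : 0 < 2 / δ := by positivity
  have hΛ : (2 : ℝ) ^ Λ = 2 / δ := Real.rpow_logb two_pos (by norm_num) h2δ
  have hΛ1 : 1 ≤ Λ := by
    have : (2 : ℝ) ^ (1 : ℝ) ≤ (2 : ℝ) ^ Λ := by
      rw [hΛ, Real.rpow_one, le_div_iff₀ hδ]
      linarith
    rwa [Real.rpow_le_rpow_left_iff one_lt_two] at this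
  have hX : 1 ≤ ((b - a) / δ) ^ α :=
    Real.one_le_rpow ((one_le_div hδ).2 hab) hα.le
  choose s hs1 hs2 using fun (w : ℕ) (hw : D.l + 1 ≤ w) =>
    block hC hP D α hα hα1 hg w hw hδ ha hb hab hΛ hΛ1
  set t : ℕ → Finset ℝ := fun w => if hw : D.l + 1 ≤ w then s w hw else ∅ with ht
  set u : Finset ℝ := insert (1 - δ / 4) ((Finset.range ⌈Λ⌉₊).biUnion t) with hu
  have hcov : D.EE w₀ ∩ Icc a b ⊆ ⋃ c ∈ u, Ioo c (c + δ) := by
    rintro x ⟨hx, hxab⟩
    unfold Par.EE at hx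
    rw [mem_iUnion₂] at hx
    obtain ⟨w, hw, hx⟩ := hx
    have hlw : D.l + 1 ≤ w := hw₀.trans hw
    obtain ⟨q1, q2, q3, q4, q5, q6, q7, q8, q9, q10, q11, q12, q13, q14, q15, q16⟩ := hP D w hlw
    rw [mem_iUnion₂]
    rcases le_or_gt (D.τ w) (1 + δ / 2) with hc | hc
    · refine ⟨1 - δ / 4, Finset.mem_insert_self _ _, ?_, ?_⟩
      · linarith [(q10 hx).1]
      · linarith [(q11 hx).2]
    · have h1 : δ / 2 < (2 : ℝ) ^ (-(w : ℝ)) := by linarith
      have h2 : (2 : ℝ) ^ (w : ℝ) < (2 : ℝ) ^ Λ := by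
        rw [hΛ, lt_div_iff₀ hδ]
        rw [Real.rpow_neg two_pos.le, ← one_div, lt_div_iff₀ (by positivity)] at h1
        linarith
      rw [Real.rpow_lt_rpow_left_iff one_lt_two] at h2
      have h3 : w < ⌈Λ⌉₊ := Nat.lt_ceil.2 h2
      have h4 := hs2 w hlw ⟨hx, hxab⟩
      rw [mem_iUnion₂] at h4
      obtain ⟨c, hc1, hc2⟩ := h4
      refine ⟨c, ?_, hc2⟩
      rw [hu, Finset.mem_insert]
      right
      rw [Finset.mem_biUnion]
      refine ⟨w, Finset.mem_range.2 h3, ?_⟩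
      rw [ht]
      simp only
      rw [dif_pos hlw]
      exact hc1
  have hcard : (u.card : ℝ) ≤ 1 + (Λ + 1) * (3 * Λ ^ (2 * D.a) * ((b - a) / δ) ^ α) := by
    have h1 : u.card ≤ ((Finset.range ⌈Λ⌉₊).biUnion t).card + 1 := Finset.card_insert_le _ _
    have h2 : ((Finset.range ⌈Λ⌉₊).biUnion t).card ≤ ∑ w ∈ Finset.range ⌈Λ⌉₊, (t w).card :=
      Finset.card_biUnion_le
    have h3 : (((∑ w ∈ Finset.range ⌈Λ⌉₊, (t w).card) : ℕ) : ℝ) ≤
        ∑ w ∈ Finset.range ⌈Λ⌉₊, 3 * Λ ^ (2 * D.a) * ((b - a) / δ) ^ α := by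
      push_cast
      apply Finset.sum_le_sum
      intro w _
      rw [ht]
      simp only
      split_ifs with h
      · exact hs1 w h
      · simp only [Finset.card_empty, Nat.cast_zero]
        positivity
    rw [Finset.sum_const, Finset.card_range, nsmul_eq_mul] at h3
    have h4 : ((⌈Λ⌉₊ : ℕ) : ℝ) ≤ Λ + 1 := (Nat.ceil_lt_add_one (by linarith)).le
    have h5 : (u.card : ℝ) ≤ (((Finset.range ⌈Λ⌉₊).biUnion t).card : ℝ) + 1 := by
      exact_mod_cast h1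
    have h6 : (((Finset.range ⌈Λ⌉₊).biUnion t).card : ℝ) ≤
        (((∑ w ∈ Finset.range ⌈Λ⌉₊, (t w).card) : ℕ) : ℝ) := by exact_mod_cast h2
    have h7 : (0 : ℝ) ≤ 3 * Λ ^ (2 * D.a) * ((b - a) / δ) ^ α := by positivity
    have h8 := mul_le_mul_of_nonneg_right h4 h7
    linarith
  have hfin : (cov (D.EE w₀ ∩ Icc a b) δ : ℝ) ≤ (u.card : ℝ) := by
    exact_mod_cast cov_le u hcov
  refine (hfin.trans hcard).trans ?_
  have hY : Λ ^ (2 * D.a + 1) = Real.log (2 / δ) ^ (2 * D.a + 1) / Real.log 2 ^ (2 * D.a + 1) := by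
    rw [hΛdef, Real.logb, div_pow]
  have hZ : 7 / Real.log 2 ^ (2 * D.a + 1) * Real.log (2 / δ) ^ (2 * D.a + 1) =
      7 * Λ ^ (2 * D.a + 1) := by
    rw [hY]; ring
  rw [hZ]
  have hΛa : 1 ≤ Λ ^ (2 * D.a) := one_le_pow₀ hΛ1
  have e1 : Λ ^ (2 * D.a + 1) = Λ ^ (2 * D.a) * Λ := pow_succ _ _
  rw [e1]
  set X := ((b - a) / δ) ^ α
  set Y := Λ ^ (2 * D.a)
  have f1 : 1 ≤ Y * X := one_le_mul_of_one_le_of_one_le hΛa hX
  have f2 : Y * X ≤ Y * X * Λ := by nlinarith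
  nlinarith

end Pool.Agent.Lib.MP_c0f824_an.FT.UnionM
end

section
/-!
# FT/Wave: packets are Schwartz functions, linearity and continuity of the half-wave operator
-/
open MeasureTheory Set
open scoped ENNReal ContDiff

namespace Pool.Agent.Lib.MP_c0f824_an.FT.WaveM

/-- Smoothness of the packet. -/
theorem packet_contDiff (d : ℕ) (lam r : ℝ) (om x₀ : Rd d) :
    ContDiff ℝ ∞ (packet lam r om x₀) := by
  unfold packet
  have h1 : ContDiff ℝ ∞ (fun x : Rd d => (bump d (r⁻¹ • (x - x₀)) : ℝ)) :=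
    (bump d).contDiff.comp ((contDiff_id.sub contDiff_const).const_smul r⁻¹)
  have h2 : ContDiff ℝ ∞ (fun x : Rd d => (lam * inner ℝ om (x - x₀) : ℝ)) :=
    contDiff_const.mul (contDiff_const.inner ℝ (contDiff_id.sub contDiff_const))
  have h3 : ContDiff ℝ ∞ (fun x : Rd d => (((bump d (r⁻¹ • (x - x₀)) : ℝ)) : ℂ)) :=
    Complex.ofRealCLM.contDiff.comp h1
  have h4 : ContDiff ℝ ∞ (fun x : Rd d => ((lam * inner ℝ om (x - x₀) : ℝ) : ℂ)) :=
    Complex.ofRealCLM.contDiff.comp h2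
  exact h3.mul ((contDiff_const.mul h4).cexp)

/-- Compact support of the packet. -/
theorem packet_support (d : ℕ) (lam r : ℝ) (om x₀ : Rd d) (hr : 0 < r) :
    HasCompactSupport (packet lam r om x₀) := by
  refine HasCompactSupport.intro (isCompact_closedBall x₀ (2 * r)) ?_
  intro x hx
  have h1 : 2 * r < ‖x - x₀‖ := by
    rw [Metric.mem_closedBall, dist_eq_norm, not_le] at hx
    exact hx
  have h2 : (bump d (r⁻¹ • (x - x₀)) : ℝ) = 0 := by
    apply (bump d).zero_of_le_dist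
    have h3 : dist (r⁻¹ • (x - x₀)) 0 = r⁻¹ * ‖x - x₀‖ := by
      rw [dist_zero_right, norm_smul, Real.norm_of_nonneg (by positivity)]
    rw [h3]
    show (2 : ℝ) ≤ r⁻¹ * ‖x - x₀‖
    rw [inv_mul_eq_div, le_div_iff₀ hr]
    exact h1.le
  show ((bump d (r⁻¹ • (x - x₀)) : ℝ) : ℂ) * _ = 0
  rw [h2]
  simp

theorem norm_cexp_I_mul (a : ℝ) : ‖Complex.exp (Complex.I * (a : ℂ))‖ = 1 := by
  rw [mul_comm]
  exact Complex.norm_exp_ofReal_mul_I a

/-- The integrand of the Fourier transform is integrable. -/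
theorem integrable_ft (d : ℕ) (f : SchwartzMap (Rd d) ℂ) (ξ : Rd d) :
    Integrable (fun x => Complex.exp (-(Complex.I * ((inner ℝ x ξ : ℝ) : ℂ))) * f x) := by
  refine (f.integrable (μ := volume)).norm.mono' ?_ ?_
  · apply Continuous.aestronglyMeasurable
    have := f.continuous
    fun_prop
  · refine Filter.Eventually.of_forall fun x => ?_
    rw [norm_mul]
    have : ‖Complex.exp (-(Complex.I * ((inner ℝ x ξ : ℝ) : ℂ)))‖ = 1 := by
      have h := norm_cexp_I_mul (-(inner ℝ x ξ : ℝ))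
      rw [← h]
      congr 2
      push_cast
      ring
    rw [this, one_mul]

/-- The Fourier transform of a Schwartz function is continuous. -/
theorem continuous_ft (d : ℕ) (f : SchwartzMap (Rd d) ℂ) : Continuous (ft (f : Rd d → ℂ)) := by
  unfold ft
  refine continuous_of_dominated (bound := fun x => ‖f x‖) ?_ ?_
    (f.integrable (μ := volume)).norm ?_
  · intro ξ
    exact (integrable_ft d f ξ).aestronglyMeasurable
  · intro ξ
    refine Filter.Eventually.of_forall fun x => ?_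
    rw [norm_mul]
    have : ‖Complex.exp (-(Complex.I * ((inner ℝ x ξ : ℝ) : ℂ)))‖ = 1 := by
      have h := norm_cexp_I_mul (-(inner ℝ x ξ : ℝ))
      rw [← h]
      congr 2
      push_cast
      ring
    rw [this, one_mul]
  · refine Filter.Eventually.of_forall fun x => ?_
    fun_prop

/-- The cutoff in the frequency. -/
theorem cutoff_zero {β : ℝ → ℝ} (hβ : IsCutoff β) {s : ℝ} (hs : 2 ≤ s) : β s = 0 := by
  by_contra h
  have := hβ.supp (subset_tsupport β (Function.mem_support.2 h))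
  exact absurd this.2 (not_lt.2 hs)

theorem continuous_beta {β : ℝ → ℝ} (hβ : IsCutoff β) : Continuous β := hβ.smooth.continuous

/-- The integrand of the half-wave operator. -/
noncomputable def gg {d : ℕ} (β : ℝ → ℝ) (j : ℕ) (t : ℝ) (f : Rd d → ℂ) (x ξ : Rd d) : ℂ :=
  Complex.exp (Complex.I * ((inner ℝ x ξ : ℝ) : ℂ)) *
      Complex.exp (Complex.I * ((t * ‖ξ‖ : ℝ) : ℂ)) *
      ((β ((2 : ℝ) ^ (-(j : ℝ)) * ‖ξ‖) : ℝ) : ℂ) * ft f ξ

theorem gg_continuous {d : ℕ} {β : ℝ → ℝ} (hβ : IsCutoff β) (j : ℕ) (t : ℝ)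
    (f : SchwartzMap (Rd d) ℂ) : Continuous (fun p : Rd d × Rd d => gg β j t f p.1 p.2) := by
  unfold gg
  have h1 := continuous_ft d f
  have h2 := continuous_beta hβ
  have h3 : Continuous fun p : Rd d × Rd d => ft (f : Rd d → ℂ) p.2 := h1.comp continuous_snd
  have h4 : Continuous fun p : Rd d × Rd d => ((β ((2 : ℝ) ^ (-(j : ℝ)) * ‖p.2‖) : ℝ) : ℂ) :=
    Complex.continuous_ofReal.comp (h2.comp (continuous_const.mul continuous_snd.norm))
  have h5 : Continuous fun p : Rd d × Rd d =>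
      Complex.exp (Complex.I * ((inner ℝ p.1 p.2 : ℝ) : ℂ)) := by fun_prop
  have h6 : Continuous fun p : Rd d × Rd d =>
      Complex.exp (Complex.I * ((t * ‖p.2‖ : ℝ) : ℂ)) := by fun_prop
  exact ((h5.mul h6).mul h4).mul h3

theorem gg_cont_right {d : ℕ} {β : ℝ → ℝ} (hβ : IsCutoff β) (j : ℕ) (t : ℝ)
    (f : SchwartzMap (Rd d) ℂ) (x : Rd d) : Continuous (fun ξ => gg β j t f x ξ) := by
  have h : Continuous (fun ξ : Rd d => ((x, ξ) : Rd d × Rd d)) := by fun_prop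
  have h2 := (gg_continuous hβ j t f).comp h
  exact h2

theorem gg_cont_left {d : ℕ} {β : ℝ → ℝ} (hβ : IsCutoff β) (j : ℕ) (t : ℝ)
    (f : SchwartzMap (Rd d) ℂ) (ξ : Rd d) : Continuous (fun x => gg β j t f x ξ) := by
  have h : Continuous (fun x : Rd d => ((x, ξ) : Rd d × Rd d)) := by fun_prop
  have h2 := (gg_continuous hβ j t f).comp h
  exact h2

theorem gg_support {d : ℕ} {β : ℝ → ℝ} (hβ : IsCutoff β) (j : ℕ) (t : ℝ)
    (f : SchwartzMap (Rd d) ℂ) (x : Rd d) : HasCompactSupport (fun ξ => gg β j t f x ξ) := by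
  refine HasCompactSupport.intro (isCompact_closedBall (0 : Rd d) (2 * (2 : ℝ) ^ (j : ℝ))) ?_
  intro ξ hξ
  have h1 : 2 * (2 : ℝ) ^ (j : ℝ) < ‖ξ‖ := by
    rw [Metric.mem_closedBall, dist_zero_right, not_le] at hξ
    exact hξ
  have h2 : 2 ≤ (2 : ℝ) ^ (-(j : ℝ)) * ‖ξ‖ := by
    rw [Real.rpow_neg (by norm_num), inv_mul_eq_div, le_div_iff₀ (by positivity)]
    exact h1.le
  unfold gg
  rw [cutoff_zero hβ h2]
  simp

theorem gg_integrable {d : ℕ} {β : ℝ → ℝ} (hβ : IsCutoff β) (j : ℕ) (t : ℝ)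
    (f : SchwartzMap (Rd d) ℂ) (x : Rd d) : Integrable (fun ξ => gg β j t f x ξ) :=
  (gg_cont_right hβ j t f x).integrable_of_hasCompactSupport (gg_support hβ j t f x)

theorem norm_gg {d : ℕ} {β : ℝ → ℝ} (j : ℕ) (t : ℝ) (f : Rd d → ℂ) (x ξ : Rd d) :
    ‖gg β j t f x ξ‖ = ‖gg β j t f 0 ξ‖ := by
  unfold gg
  simp only [norm_mul, norm_cexp_I_mul]

theorem halfWave_eq {d : ℕ} (β : ℝ → ℝ) (j : ℕ) (t : ℝ) (f : Rd d → ℂ) (x : Rd d) :
    halfWave β j t f x = (((2 * Real.pi) ^ d : ℝ) : ℂ)⁻¹ * ∫ ξ, gg β j t f x ξ := rfl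

theorem ft_sum {d : ℕ} {ι : Type} [Fintype ι] (c : ι → ℂ) (f : ι → SchwartzMap (Rd d) ℂ)
    (ξ : Rd d) : ft (fun x => ∑ i, c i * f i x) ξ = ∑ i, c i * ft (f i : Rd d → ℂ) ξ := by
  unfold ft
  have h : ∀ x : Rd d, Complex.exp (-(Complex.I * ((inner ℝ x ξ : ℝ) : ℂ))) * ∑ i, c i * f i x =
      ∑ i, c i * (Complex.exp (-(Complex.I * ((inner ℝ x ξ : ℝ) : ℂ))) * f i x) := by
    intro x
    rw [Finset.mul_sum]
    refine Finset.sum_congr rfl fun i _ => ?_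
    ring
  simp only [h]
  rw [integral_finsetSum]
  · refine Finset.sum_congr rfl fun i _ => ?_
    rw [integral_const_mul]
  · intro i _
    exact (integrable_ft d (f i) ξ).const_mul (c i)

theorem halfWave_sum {d : ℕ} {β : ℝ → ℝ} (hβ : IsCutoff β) (j : ℕ) (t : ℝ) {ι : Type} [Fintype ι]
    (c : ι → ℂ) (f : ι → SchwartzMap (Rd d) ℂ) (x : Rd d) :
    halfWave β j t (fun x => ∑ i, c i * f i x) x = ∑ i, c i * halfWave β j t (f i) x := by
  rw [halfWave_eq]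
  have h : ∀ ξ : Rd d, gg β j t (fun x => ∑ i, c i * f i x) x ξ =
      ∑ i, c i * gg β j t (f i) x ξ := by
    intro ξ
    unfold gg
    rw [ft_sum, Finset.mul_sum]
    refine Finset.sum_congr rfl fun i _ => ?_
    ring
  simp only [h]
  rw [integral_finsetSum]
  · rw [Finset.mul_sum]
    refine Finset.sum_congr rfl fun i _ => ?_
    rw [integral_const_mul, halfWave_eq]
    ring
  · intro i _
    exact (gg_integrable hβ j t (f i) x).const_mul (c i)

theorem halfWave_continuous {d : ℕ} {β : ℝ → ℝ} (hβ : IsCutoff β) (j : ℕ) (t : ℝ)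
    (f : SchwartzMap (Rd d) ℂ) : Continuous (halfWave β j t f) := by
  have h : Continuous fun x : Rd d => ∫ ξ, gg β j t f x ξ := by
    refine continuous_of_dominated (bound := fun ξ => ‖gg β j t f 0 ξ‖) ?_ ?_
      (gg_integrable hβ j t f 0).norm ?_
    · intro x
      exact (gg_integrable hβ j t f x).aestronglyMeasurable
    · intro x
      exact Filter.Eventually.of_forall fun ξ => (norm_gg j t f x ξ).le
    · exact Filter.Eventually.of_forall fun ξ => gg_cont_left hβ j t f ξ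
  exact continuous_const.mul h

/-- WAVE. -/
theorem specWave : SpecWave := by
  refine ⟨?_, ?_, ?_⟩
  · intro d lam r om x₀ hr
    exact ⟨(packet_support d lam r om x₀ hr).toSchwartzMap (packet_contDiff d lam r om x₀),
      fun x => rfl⟩
  · intro d β hβ j t ι _ c f x
    exact halfWave_sum hβ j t c f x
  · intro d β hβ j t f
    exact halfWave_continuous hβ j t f

end Pool.Agent.Lib.MP_c0f824_an.FT.WaveM
end

section
/-!
# Few overlaps at time `0` (digits)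
-/
open Set

namespace Pool.Agent.Lib.MP_c0f824_an.FT.ZeroM

/-- The digit `b_{i-1}` (`0` for `i = 0`). -/
def prev {n P : ℕ} (b : Fin n → Fin P) (i : Fin n) : ℕ :=
  if (i : ℕ) = 0 then 0 else (b ⟨(i : ℕ) - 1, by omega⟩ : ℕ)

/-- The digits `z_i = y_i + b_i + H b_{i-1}`. -/
def zz {n P Q : ℕ} (H : ℕ) (y : Fin n → Fin Q) (b : Fin n → Fin P) (i : Fin n) : ℕ :=
  (y i : ℕ) + (b i : ℕ) + H * prev b i

theorem prev_zero {k P : ℕ} (b : Fin (k + 1) → Fin P) : prev b 0 = 0 := by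
  simp [prev]

theorem prev_succ {k P : ℕ} (b : Fin (k + 1) → Fin P) (i : Fin k) :
    prev b i.succ = (b i.castSucc : ℕ) := by
  simp only [prev, Fin.val_succ, Nat.add_eq_zero_iff, one_ne_zero, and_false, if_false]
  congr 1

theorem key {k P Q N H : ℕ} (hN : (N : ℝ) ≠ 0) (y : Fin (k + 1) → Fin Q)
    (b : Fin (k + 1) → Fin P) :
    dv N y + (1 + (H : ℝ) / N) * dv N b =
      (∑ i, ((zz H y b i : ℕ) : ℝ) / (N : ℝ) ^ ((i : ℕ) + 1)) +
        (H : ℝ) * ((b (Fin.last k) : ℕ) : ℝ) / (N : ℝ) ^ (k + 2) := by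
  have h1 : (∑ i : Fin (k + 1), ((prev b i : ℕ) : ℝ) / (N : ℝ) ^ ((i : ℕ) + 1)) =
      ∑ i : Fin k, ((b i.castSucc : ℕ) : ℝ) / (N : ℝ) ^ ((i : ℕ) + 2) := by
    rw [Fin.sum_univ_succ, prev_zero]
    simp only [Nat.cast_zero, zero_div, zero_add]
    refine Finset.sum_congr rfl fun i _ => ?_
    rw [prev_succ, Fin.val_succ]
  have h2 : dv N b = (∑ i : Fin k, ((b i.castSucc : ℕ) : ℝ) / (N : ℝ) ^ ((i : ℕ) + 1)) +
      ((b (Fin.last k) : ℕ) : ℝ) / (N : ℝ) ^ (k + 1) := by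
    unfold dv
    rw [Fin.sum_univ_castSucc]
    simp
  have h3 : (∑ i : Fin (k + 1), ((zz H y b i : ℕ) : ℝ) / (N : ℝ) ^ ((i : ℕ) + 1)) =
      dv N y + dv N b + (H : ℝ) *
        ∑ i : Fin (k + 1), ((prev b i : ℕ) : ℝ) / (N : ℝ) ^ ((i : ℕ) + 1) := by
    unfold dv zz
    rw [Finset.mul_sum, ← Finset.sum_add_distrib, ← Finset.sum_add_distrib]
    refine Finset.sum_congr rfl fun i _ => ?_
    push_cast
    ring
  have h4 : (H : ℝ) / N * dv N b =
      (H : ℝ) * ∑ i : Fin k, ((b i.castSucc : ℕ) : ℝ) / (N : ℝ) ^ ((i : ℕ) + 2) +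
        (H : ℝ) * ((b (Fin.last k) : ℕ) : ℝ) / (N : ℝ) ^ (k + 2) := by
    rw [h2, mul_add, Finset.mul_sum, Finset.mul_sum]
    congr 1
    · refine Finset.sum_congr rfl fun i _ => ?_
      rw [pow_succ (N : ℝ) ((i : ℕ) + 1)]
      field_simp
    · rw [pow_succ (N : ℝ) (k + 1)]
      field_simp
  rw [h3, h1, add_mul, one_mul, h4]
  ring

/-- The integer with the digits `z`. -/
theorem code_eq {n N : ℕ} (hN : (N : ℝ) ≠ 0) (z : Fin n → Fin N) :
    (((finFunctionFinEquiv (fun i : Fin n => z i.rev) : Fin (N ^ n)) : ℕ) : ℝ) =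
      (N : ℝ) ^ n * ∑ i, ((z i : ℕ) : ℝ) / (N : ℝ) ^ ((i : ℕ) + 1) := by
  rw [finFunctionFinEquiv_apply, Finset.mul_sum]
  push_cast
  rw [← Equiv.sum_comp Fin.revPerm]
  refine Finset.sum_congr rfl fun i _ => ?_
  have hi := i.isLt
  have hr : ((Fin.revPerm i : Fin n) : ℕ) = n - ((i : ℕ) + 1) := by
    simp [Fin.revPerm_apply, Fin.val_rev]
  have hrr : (Fin.revPerm i : Fin n).rev = i := by
    simp [Fin.revPerm_apply]
  rw [hr, hrr]
  have : (N : ℝ) ^ n = (N : ℝ) ^ (n - ((i : ℕ) + 1)) * (N : ℝ) ^ ((i : ℕ) + 1) := by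
    rw [← pow_add]
    congr 1
    omega
  rw [this]
  field_simp

theorem zz_lt {n P Q N H : ℕ} (hPQ : P ≤ Q) (hQH : 2 * Q ≤ H) (hHP : H * P ≤ N)
    (y : Fin n → Fin Q) (b : Fin n → Fin P) (i : Fin n) : zz H y b i < N := by
  have h1 := (y i).isLt
  have h2 := (b i).isLt
  have h3 : prev b i + 1 ≤ P := by
    unfold prev
    split
    · omega
    · exact (b _).isLt
  have h4 : H * (prev b i + 1) ≤ H * P := Nat.mul_le_mul_left _ h3
  rw [mul_add, mul_one] at h4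
  unfold zz
  omega

/-- The digits `z` and the last digit of `b` determine `y` and `b`. -/
theorem inj {k P Q H : ℕ} (hPQ : P ≤ Q) (hQH : 2 * Q ≤ H)
    (y y' : Fin (k + 1) → Fin Q) (b b' : Fin (k + 1) → Fin P)
    (hz : ∀ i, zz H y b i = zz H y' b' i) (hl : b (Fin.last k) = b' (Fin.last k)) :
    y = y' ∧ b = b' := by
  have hlt : ∀ (y : Fin (k + 1) → Fin Q) (b : Fin (k + 1) → Fin P) (i : Fin (k + 1)),
      (y i : ℕ) + (b i : ℕ) < H := by
    intro y b i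
    have h1 := (y i).isLt
    have h2 := (b i).isLt
    omega
  have hpos : 0 < H := by
    have := hlt y b 0
    omega
  have hprev : ∀ i, prev b i = prev b' i := by
    intro i
    have h := hz i
    unfold zz at h
    have e1 : ((y i : ℕ) + (b i : ℕ) + H * prev b i) / H = prev b i := by
      rw [Nat.add_mul_div_left _ _ hpos, Nat.div_eq_of_lt (hlt y b i), zero_add]
    have e2 : ((y' i : ℕ) + (b' i : ℕ) + H * prev b' i) / H = prev b' i := by
      rw [Nat.add_mul_div_left _ _ hpos, Nat.div_eq_of_lt (hlt y' b' i), zero_add]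
    rw [← e1, ← e2, h]
  have hb : b = b' := by
    funext i
    refine Fin.lastCases hl (fun i => ?_) i
    have h := hprev i.succ
    rw [prev_succ, prev_succ] at h
    exact Fin.ext h
  refine ⟨?_, hb⟩
  funext i
  have h := hz i
  unfold zz at h
  rw [hprev i, hb] at h
  exact Fin.ext (by omega)

theorem specZero : SpecZero := by
  intro N n P Q H hn hP hPQ hQH hHP x R hR
  classical
  obtain ⟨k, rfl⟩ : ∃ k, n = k + 1 := ⟨n - 1, by omega⟩
  have hH2 : 2 ≤ H := by omega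
  have hN2 : 2 ≤ N := by nlinarith
  have hN0 : (N : ℝ) ≠ 0 := by positivity
  have hNp : (0 : ℝ) < N := by positivity
  set S : Finset ℤ := Finset.Icc ⌈(N : ℝ) ^ (k + 1) * (x - R) - 1⌉
    ⌊(N : ℝ) ^ (k + 1) * (x + R)⌋ with hS
  let z : (Fin (k + 1) → Fin Q) × (Fin (k + 1) → Fin P) → Fin (k + 1) → Fin N := fun yb i =>
    ⟨zz H yb.1 yb.2 i, zz_lt hPQ hQH hHP yb.1 yb.2 i⟩
  let code : (Fin (k + 1) → Fin Q) × (Fin (k + 1) → Fin P) → ℤ × Fin P := fun yb =>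
    ((((finFunctionFinEquiv (fun i : Fin (k + 1) => z yb i.rev) : Fin (N ^ (k + 1))) : ℕ) : ℤ),
      yb.2 (Fin.last k))
  have hcard : (Finset.univ.filter fun yb : (Fin (k + 1) → Fin Q) × (Fin (k + 1) → Fin P) =>
      |dv N yb.1 + (1 + (H : ℝ) / N) * dv N yb.2 - x| ≤ R).card ≤
      (S ×ˢ (Finset.univ : Finset (Fin P))).card := by
    refine Finset.card_le_card_of_injOn code ?_ ?_
    · intro yb hyb
      simp only [Finset.coe_filter, Finset.mem_univ, true_and, mem_ofPred_eq] at hyb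
      rw [key hN0] at hyb
      have hc := code_eq hN0 (z yb)
      set c : ℕ := ((finFunctionFinEquiv (fun i : Fin (k + 1) => z yb i.rev) :
        Fin (N ^ (k + 1))) : ℕ) with hcdef
      have hzv : (∑ i, ((z yb i : ℕ) : ℝ) / (N : ℝ) ^ ((i : ℕ) + 1)) =
        ∑ i, ((zz H yb.1 yb.2 i : ℕ) : ℝ) / (N : ℝ) ^ ((i : ℕ) + 1) := rfl
      rw [hzv] at hc
      set Z : ℝ := ∑ i, ((zz H yb.1 yb.2 i : ℕ) : ℝ) / (N : ℝ) ^ ((i : ℕ) + 1) with hZ
      have htail0 : 0 ≤ (H : ℝ) * ((yb.2 (Fin.last k) : ℕ) : ℝ) / (N : ℝ) ^ (k + 2) := by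
        positivity
      have htail1 : (N : ℝ) ^ (k + 1) *
          ((H : ℝ) * ((yb.2 (Fin.last k) : ℕ) : ℝ) / (N : ℝ) ^ (k + 2)) ≤ 1 := by
        have e : (N : ℝ) ^ (k + 1) *
          ((H : ℝ) * ((yb.2 (Fin.last k) : ℕ) : ℝ) / (N : ℝ) ^ (k + 2)) =
          (H : ℝ) * ((yb.2 (Fin.last k) : ℕ) : ℝ) / N := by
          rw [pow_succ (N : ℝ) (k + 1)]
          field_simp
        rw [e, div_le_one hNp]
        have hb := (yb.2 (Fin.last k)).isLt
        have h5 : H * (yb.2 (Fin.last k) : ℕ) ≤ N :=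
          le_trans (Nat.mul_le_mul_left _ hb.le) hHP
        exact_mod_cast h5
      have hNk : (0 : ℝ) < (N : ℝ) ^ (k + 1) := by positivity
      rw [abs_le] at hyb
      obtain ⟨hlo, hhi⟩ := hyb
      have hlo' := mul_le_mul_of_nonneg_left hlo hNk.le
      have hhi' := mul_le_mul_of_nonneg_left hhi hNk.le
      have htail0' := mul_nonneg hNk.le htail0
      simp only [Finset.coe_product, Set.mem_prod, Finset.mem_coe, Finset.mem_univ, and_true]
      rw [hS, Finset.mem_Icc, Int.ceil_le, Int.le_floor]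
      have hcz : (((code yb).1 : ℤ) : ℝ) = (N : ℝ) ^ (k + 1) * Z := by
        rw [← hc]
        push_cast [code]
        rfl
      rw [hcz]
      constructor <;> linarith
    · intro yb _ yb' _ hcc
      simp only [code, Prod.mk.injEq, Nat.cast_inj] at hcc
      have h1 := finFunctionFinEquiv.injective (Fin.ext hcc.1)
      have h2 : ∀ i, zz H yb.1 yb.2 i = zz H yb'.1 yb'.2 i := by
        intro i
        have h3 := congrFun h1 i.rev
        simp only [Fin.rev_rev, z, Fin.mk.injEq] at h3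
        exact h3
      have h4 := inj hPQ hQH yb.1 yb'.1 yb.2 yb'.2 h2 hcc.2
      exact Prod.ext h4.1 h4.2
  rw [Nat.card_eq_fintype_card, Fintype.card_subtype]
  have hSc : ((S.card : ℕ) : ℝ) ≤ 2 * R * (N : ℝ) ^ (k + 1) + 2 := by
    rw [hS, Int.card_Icc]
    have hNk : (0 : ℝ) < (N : ℝ) ^ (k + 1) := by positivity
    have h6 : (((⌊(N : ℝ) ^ (k + 1) * (x + R)⌋ + 1 - ⌈(N : ℝ) ^ (k + 1) * (x - R) - 1⌉) : ℤ) : ℝ)
        ≤ 2 * R * (N : ℝ) ^ (k + 1) + 2 := by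
      push_cast
      have h7 := Int.floor_le ((N : ℝ) ^ (k + 1) * (x + R))
      have h8 := Int.le_ceil ((N : ℝ) ^ (k + 1) * (x - R) - 1)
      linarith
    have h9 : (0 : ℝ) ≤ 2 * R * (N : ℝ) ^ (k + 1) + 2 := by positivity
    rcases le_total 0 (⌊(N : ℝ) ^ (k + 1) * (x + R)⌋ + 1 - ⌈(N : ℝ) ^ (k + 1) * (x - R) - 1⌉)
      with h | h
    · have h10 := Int.toNat_of_nonneg h
      have h11 : ((((⌊(N : ℝ) ^ (k + 1) * (x + R)⌋ + 1 -
          ⌈(N : ℝ) ^ (k + 1) * (x - R) - 1⌉).toNat : ℕ) : ℤ) : ℝ) =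
          (((⌊(N : ℝ) ^ (k + 1) * (x + R)⌋ + 1 -
            ⌈(N : ℝ) ^ (k + 1) * (x - R) - 1⌉) : ℤ) : ℝ) := by
        rw [h10]
      rw [Int.cast_natCast] at h11
      rw [h11]
      exact h6
    · rw [Int.toNat_of_nonpos h]
      simpa using h9
  rw [Finset.card_product, Finset.card_univ, Fintype.card_fin] at hcard
  calc (((Finset.univ.filter fun yb : (Fin (k + 1) → Fin Q) × (Fin (k + 1) → Fin P) =>
      |dv N yb.1 + (1 + (H : ℝ) / N) * dv N yb.2 - x| ≤ R).card : ℕ) : ℝ)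
      ≤ ((S.card * P : ℕ) : ℝ) := by exact_mod_cast hcard
    _ = (P : ℝ) * (S.card : ℝ) := by push_cast; ring
    _ ≤ (P : ℝ) * (2 * R * (N : ℝ) ^ (k + 1) + 2) :=
        mul_le_mul_of_nonneg_left hSc (by positivity)

end Pool.Agent.Lib.MP_c0f824_an.FT.ZeroM
end
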